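import Mathlib
import Pool.Agent.Helper766.KoebeRadius
import Pool.Agent.Results.MP_6cc408_an.RealAxisSharp

set_option autoImplicit false

open Polynomial Pool.Agent.Results.MP_6cc408_an.RealAxisSharp

namespace Pool.Agent.Helper766.G

open Pool.Agent.Helper766

/-- the conjectured value -/
noncomputable def VN (N : ℕ) : ℝ := 1 / (4 * Real.cos (Real.pi / ((N : ℝ) + 2)) ^ 2)

/-- a normalised counterexample -/
structure Bad (N : ℕ) (p : ℝ[X]) (ρ δ s : ℝ) : Prop where
  cls : InClass N p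
  inj : ∃ R : ℝ, 1 < R ∧ Set.InjOn (fun z : ℂ => aeval z p) (Metric.ball (0 : ℂ) R)
  rho_pos : 0 < ρ
  rho_lt : ρ < VN N
  d_pos : 0 < δ
  d_le : δ ≤ Real.pi / 2
  s_pos : 0 < s
  s_lt : s < Real.pi
  hit : aeval (Complex.exp ((s : ℂ) * Complex.I)) p = (ρ : ℂ) * Complex.exp ((δ : ℂ) * Complex.I)
  min : ∀ z : ℂ, ‖z‖ = 1 → ρ ≤ ‖aeval z p‖

/-- rescaling -/
noncomputable def scl (t : ℝ) (p : ℝ[X]) : ℝ[X] := C (1 / t) * p.comp (C t * X)

lemma scl_aeval (t : ℝ) (p : ℝ[X]) (z : ℂ) :
    aeval z (scl t p) = ((1 / t : ℝ) : ℂ) * aeval ((t : ℂ) * z) p := by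
  unfold scl
  rw [map_mul, aeval_C, aeval_comp]
  simp

lemma scl_inClass {N : ℕ} {p : ℝ[X]} (hp : InClass N p) {t : ℝ} (ht0 : 0 < t) (ht1 : t ≤ 1) :
    InClass N (scl t p) := by
  obtain ⟨h1, h2, h3, h4⟩ := hp
  have ht : t ≠ 0 := ht0.ne'
  refine ⟨?_, ?_, ?_, ?_⟩
  · unfold scl
    rw [natDegree_C_mul (by positivity), natDegree_comp, natDegree_C_mul_X _ ht, mul_one, h1]
  · rw [coeff_zero_eq_eval_zero]
    unfold scl
    rw [eval_mul, eval_comp]
    simp [← coeff_zero_eq_eval_zero, h2]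
  · unfold scl
    have : (C (1 / t) * p.comp (C t * X)).coeff 1 =
        (derivative (C (1 / t) * p.comp (C t * X))).eval 0 := by
      rw [← coeff_zero_eq_eval_zero, coeff_derivative]
      simp
    rw [this, derivative_C_mul, derivative_comp]
    simp [deriv_zero h3, ht]
  · intro z1 hz1 z2 hz2 h
    simp only [scl_aeval] at h
    have hne : ((1 / t : ℝ) : ℂ) ≠ 0 := by
      have : (1 / t : ℝ) ≠ 0 := by positivity
      exact_mod_cast this
    have h' := mul_left_cancel₀ hne h
    have key : ∀ z : ℂ, z ∈ Metric.ball (0 : ℂ) 1 → (t : ℂ) * z ∈ Metric.ball (0 : ℂ) 1 := by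
      intro z hz
      rw [mem_ball_zero_iff] at hz ⊢
      rw [norm_mul, Complex.norm_real, Real.norm_eq_abs, abs_of_pos ht0]
      calc t * ‖z‖ ≤ 1 * ‖z‖ := by gcongr
        _ < 1 := by linarith
    have := h4 (key z1 hz1) (key z2 hz2) h'
    have htc : (t : ℂ) ≠ 0 := by exact_mod_cast ht
    exact mul_left_cancel₀ htc this

lemma scl_injOn {N : ℕ} {p : ℝ[X]} (hp : InClass N p) {t : ℝ} (ht0 : 0 < t) :
    Set.InjOn (fun z : ℂ => aeval z (scl t p)) (Metric.ball (0 : ℂ) (1 / t)) := by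
  intro z1 hz1 z2 hz2 h
  simp only [scl_aeval] at h
  have ht : t ≠ 0 := ht0.ne'
  have hne : ((1 / t : ℝ) : ℂ) ≠ 0 := by
    have : (1 / t : ℝ) ≠ 0 := by positivity
    exact_mod_cast this
  have h' := mul_left_cancel₀ hne h
  have key : ∀ z : ℂ, z ∈ Metric.ball (0 : ℂ) (1 / t) → (t : ℂ) * z ∈ Metric.ball (0 : ℂ) 1 := by
    intro z hz
    rw [mem_ball_zero_iff] at hz ⊢
    rw [norm_mul, Complex.norm_real, Real.norm_eq_abs, abs_of_pos ht0]
    calc t * ‖z‖ < t * (1 / t) := by gcongr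
      _ = 1 := by field_simp
  have := hp.2.2.2 (key z1 hz1) (key z2 hz2) h'
  have htc : (t : ℂ) ≠ 0 := by exact_mod_cast ht
  exact mul_left_cancel₀ htc this

lemma exists_small {N : ℕ} (hN : 1 ≤ N) (h : koebeRadius N < VN N) :
    ∃ p : ℝ[X], InClass N p ∧ ∃ z : ℂ, ‖z‖ = 1 ∧ ‖aeval z p‖ < VN N := by
  have hV : 0 ≤ VN N := by unfold VN; positivity
  obtain ⟨r, hr1, hr2⟩ := exists_between h
  have hr3 : r ∉ {r : ℝ | ∀ p : ℝ[X], InClass N p → Metric.ball (0 : ℂ) r ⊆ image p} := by
    intro hmem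
    have hb : BddAbove {r : ℝ | ∀ p : ℝ[X], InClass N p → Metric.ball (0 : ℂ) r ⊆ image p} := by
      refine ⟨VN N, ?_⟩
      intro r' hr'
      have h1 := (result N hN).1.2
      apply h1
      intro q hq x hx
      apply hr' q hq
      rw [mem_ball_zero_iff, Complex.norm_real, Real.norm_eq_abs]
      exact hx
    have := le_csSup hb hmem
    unfold koebeRadius at hr1
    linarith
  simp only [Set.mem_ofPred_eq] at hr3
  push Not at hr3
  obtain ⟨p, hp, hnot⟩ := hr3
  refine ⟨p, hp, ?_⟩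
  by_contra hcon
  push Not at hcon
  apply hnot
  apply ball_subset_image p hp.2.1 hp.2.2.1
  intro z hz
  exact hr2.le.trans (hcon z hz)

lemma VN_pos {N : ℕ} (hN : 1 ≤ N) : 0 < VN N := by
  unfold VN
  have hc : 0 < Real.cos (Real.pi / ((N : ℝ) + 2)) := by
    apply Real.cos_pos_of_mem_Ioo
    have hN1 : (1 : ℝ) ≤ N := by exact_mod_cast hN
    constructor
    · have : 0 < Real.pi / ((N : ℝ) + 2) := by positivity
      linarith [Real.pi_pos]
    · rw [div_lt_div_iff_of_pos_left Real.pi_pos (by positivity) (by norm_num)]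
      linarith
  positivity

/-- If the conjectured value fails there is a normalised counterexample. -/
theorem exists_bad {N : ℕ} (hN : 1 ≤ N) (h : koebeRadius N < VN N) :
    ∃ (p : ℝ[X]) (ρ δ s : ℝ), Bad N p ρ δ s := by
  obtain ⟨p0, hp0, z1, hz1, hsmall⟩ := exists_small hN h
  -- rescale
  obtain ⟨t, ht0, ht1, htV⟩ : ∃ t : ℝ, 0 < t ∧ t < 1 ∧ ‖aeval z1 (scl t p0)‖ < VN N := by
    have hc : ContinuousAt (fun t : ℝ => ‖((1 / t : ℝ) : ℂ) * aeval ((t : ℂ) * z1) p0‖) 1 := by
      apply ContinuousAt.norm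
      apply ContinuousAt.mul
      · apply Complex.continuous_ofReal.continuousAt.comp
        exact continuousAt_const.div continuousAt_id one_ne_zero
      · apply p0.continuous_aeval.continuousAt.comp
        exact (Complex.continuous_ofReal.mul continuous_const).continuousAt
    have hv : (fun t : ℝ => ‖((1 / t : ℝ) : ℂ) * aeval ((t : ℂ) * z1) p0‖) 1 < VN N := by
      simpa using hsmall
    have hev := (hc.tendsto.mono_left (nhdsWithin_le_nhds (s := Set.Iio 1))).eventually
      (gt_mem_nhds hv)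
    have h6 : ∀ᶠ y in nhdsWithin (1 : ℝ) (Set.Iio 1), y ∈ Set.Ioo (0 : ℝ) 1 :=
      Ioo_mem_nhdsLT one_pos
    obtain ⟨t, ht⟩ := (hev.and h6).exists
    refine ⟨t, ht.2.1, ht.2.2, ?_⟩
    rw [scl_aeval]
    exact ht.1
  set q := scl t p0 with hq
  have hqc : InClass N q := scl_inClass hp0 ht0 ht1.le
  have hqi : Set.InjOn (fun z : ℂ => aeval z q) (Metric.ball (0 : ℂ) (1 / t)) :=
    scl_injOn hp0 ht0
  have hR : 1 < 1 / t := by rw [lt_div_iff₀ ht0]; linarith
  clear_value q
  -- minimum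
  have hcomp : IsCompact (Metric.sphere (0 : ℂ) 1) := isCompact_sphere 0 1
  have hne : (Metric.sphere (0 : ℂ) 1).Nonempty := ⟨1, by simp⟩
  obtain ⟨z0, hz0, hmin⟩ := hcomp.exists_isMinOn hne
    (f := fun z : ℂ => ‖aeval z q‖) (by
      exact (q.continuous_aeval.norm).continuousOn)
  have hz0n : ‖z0‖ = 1 := by simpa using hz0
  have hmin' : ∀ z : ℂ, ‖z‖ = 1 → ‖aeval z0 q‖ ≤ ‖aeval z q‖ := by
    intro z hz
    exact hmin (by simpa using hz)
  have h00 : aeval (0 : ℂ) q = 0 := by
    have := aeval_ofReal' q 0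
    simp only [Complex.ofReal_zero] at this
    rw [this, ← coeff_zero_eq_eval_zero, hqc.2.1]
    simp
  have hmem0 : (0 : ℂ) ∈ Metric.ball (0 : ℂ) (1 / t) := by
    rw [mem_ball_zero_iff]; simpa using ht0
  have hρ0 : aeval z0 q ≠ 0 := by
    intro h0
    have : z0 = 0 := hqi (by rw [mem_ball_zero_iff, hz0n]; exact hR) hmem0 (by
      simp only; rw [h0, h00])
    rw [this] at hz0n
    simp at hz0n
  have hρV : ‖aeval z0 q‖ < VN N := (hmin' z1 hz1).trans_lt htV
  have hnim : aeval z0 q ∉ image q := by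
    rintro ⟨z, hz, hzz⟩
    rw [mem_ball_zero_iff] at hz
    have : z = z0 := hqi (by rw [mem_ball_zero_iff]; linarith)
      (by rw [mem_ball_zero_iff, hz0n]; exact hR) hzz
    rw [this, hz0n] at hz
    exact lt_irrefl _ hz
  have him : (aeval z0 q).im ≠ 0 := by
    intro h0
    apply hnim
    have e : aeval z0 q = (((aeval z0 q).re : ℝ) : ℂ) := by
      apply Complex.ext <;> simp [h0]
    rw [e]
    apply covers_real hN hqc
    have : |(aeval z0 q).re| ≤ ‖aeval z0 q‖ := Complex.abs_re_le_norm _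
    exact this.trans_lt hρV
  -- normalise Im > 0
  obtain ⟨z2, hz2n, hz2eq, hz2im⟩ : ∃ z2 : ℂ, ‖z2‖ = 1 ∧ ‖aeval z2 q‖ = ‖aeval z0 q‖ ∧
      0 < (aeval z2 q).im := by
    rcases lt_or_gt_of_ne him with h1 | h1
    · refine ⟨starRingEnd ℂ z0, by simpa using hz0n, ?_, ?_⟩
      · rw [aeval_conj, Complex.norm_conj]
      · rw [aeval_conj, Complex.conj_im]; linarith
    · exact ⟨z0, hz0n, rfl, h1⟩
  have hz2pos : 0 < z2.im := by
    by_contra hcon
    push Not at hcon
    have := im_circle_nonneg q (deriv_zero hqc.2.2.1) hqc.2.2.2 (z := starRingEnd ℂ z2)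
      (by simpa using hz2n) (by simpa using hcon)
    rw [aeval_conj, Complex.conj_im] at this
    linarith
  set s := Complex.arg z2 with hs
  have hsexp : Complex.exp ((s : ℂ) * Complex.I) = z2 := by
    have := Complex.norm_mul_exp_arg_mul_I z2
    rw [hz2n] at this
    simpa using this
  have hs0 : 0 < s := by
    have h1 : 0 ≤ s := Complex.arg_nonneg_iff.mpr hz2pos.le
    rcases h1.eq_or_lt with h2 | h2
    · exfalso
      rw [← hsexp, ← h2] at hz2pos
      simp at hz2pos
    · exact h2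
  have hsπ : s < Real.pi := by
    rcases (Complex.arg_le_pi z2).eq_or_lt with h2 | h2
    · exfalso
      rw [Complex.arg_eq_pi_iff] at h2
      linarith [h2.2]
    · exact h2
  set w2 := aeval z2 q with hw2
  set δ := Complex.arg w2 with hδ
  have hδexp : (‖w2‖ : ℂ) * Complex.exp ((δ : ℂ) * Complex.I) = w2 :=
    Complex.norm_mul_exp_arg_mul_I w2
  have hδ0 : 0 < δ := by
    have h1 : 0 ≤ δ := Complex.arg_nonneg_iff.mpr hz2im.le
    rcases h1.eq_or_lt with h2 | h2
    · exfalso
      rw [← hδexp, ← h2] at hz2im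
      simp at hz2im
    · exact h2
  have hδπ : δ < Real.pi := by
    rcases (Complex.arg_le_pi w2).eq_or_lt with h2 | h2
    · exfalso
      rw [Complex.arg_eq_pi_iff] at h2
      linarith [h2.2]
    · exact h2
  have hw2n : 0 < ‖w2‖ := by
    rw [hz2eq]; exact norm_pos_iff.mpr hρ0
  rcases le_or_gt δ (Real.pi / 2) with hle | hgt
  · refine ⟨q, ‖w2‖, δ, s, ?_⟩
    exact {
      cls := hqc
      inj := ⟨1 / t, hR, hqi⟩
      rho_pos := hw2n
      rho_lt := by rw [hz2eq]; exact hρV
      d_pos := hδ0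
      d_le := hle
      s_pos := hs0
      s_lt := hsπ
      hit := by rw [hsexp, ← hw2, hδexp]
      min := by intro z hz; rw [hz2eq]; exact hmin' z hz }
  · have haev : ∀ z : ℂ, aeval z (-(q.comp (-X))) = -aeval (-z) q := by
      intro z
      rw [map_neg, aeval_comp]
      simp
    refine ⟨-(q.comp (-X)), ‖w2‖, Real.pi - δ, Real.pi - s, ?_⟩
    exact {
      cls := class_reflect hqc
      inj := by
        refine ⟨1 / t, hR, ?_⟩
        intro a ha b hb hab
        simp only [haev] at hab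
        have := hqi (x₁ := -a) (x₂ := -b) (by simpa using ha) (by simpa using hb)
          (neg_injective hab)
        exact neg_injective this
      rho_pos := hw2n
      rho_lt := by rw [hz2eq]; exact hρV
      d_pos := by linarith
      d_le := by linarith
      s_pos := by linarith
      s_lt := by linarith
      hit := by
        rw [haev]
        have e1 : ∀ x : ℝ, Complex.exp (((Real.pi - x : ℝ) : ℂ) * Complex.I) =
            -starRingEnd ℂ (Complex.exp ((x : ℂ) * Complex.I)) := by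
          intro x
          rw [← Complex.exp_conj]
          push_cast
          rw [sub_mul, Complex.exp_sub, Complex.exp_pi_mul_I, map_mul, Complex.conj_ofReal,
            Complex.conj_I, mul_neg, Complex.exp_neg]
          rw [neg_div, one_div]
        rw [e1, e1, neg_neg, hsexp, aeval_conj, ← hw2]
        conv_lhs => rw [← hδexp]
        rw [map_mul, Complex.conj_ofReal]
        ring
      min := by
        intro z hz
        rw [haev, norm_neg, hz2eq]
        exact hmin' _ (by simpa using hz) }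

end Pool.Agent.Helper766.G
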