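import Mathlib
import Pool.Agent.Helper766.G.Exists

set_option autoImplicit false

open Polynomial Complex

namespace Pool.Agent.Helper766.G

open Pool.Agent.Helper766 Pool.Agent.Results.MP_6cc408_an.RealAxisSharp

/-- sum of principal logarithms -/
noncomputable def LS (S : Multiset ℂ) (z : ℂ) : ℂ := (S.map (fun ζ => Complex.log (1 - z / ζ))).sum

/-- no branch problem at `z` -/
def Good (S : Multiset ℂ) (z : ℂ) : Prop := ∀ ζ ∈ S, 1 - z / ζ ∈ slitPlane

lemma LS_zero (z : ℂ) : LS 0 z = 0 := by simp [LS]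

lemma LS_cons (a : ℂ) (S : Multiset ℂ) (z : ℂ) :
    LS (a ::ₘ S) z = Complex.log (1 - z / a) + LS S z := by simp [LS]

lemma Good_cons {a : ℂ} {S : Multiset ℂ} {z : ℂ} :
    Good (a ::ₘ S) z ↔ 1 - z / a ∈ slitPlane ∧ Good S z := by
  unfold Good
  simp

lemma LS_exp (S : Multiset ℂ) {z : ℂ} (h : Good S z) :
    exp (LS S z) = (S.map (fun ζ => 1 - z / ζ)).prod := by
  induction S using Multiset.induction_on with
  | empty => simp [LS_zero]
  | cons a S ih =>
    rw [Good_cons] at h
    rw [LS_cons, exp_add, ih h.2, exp_log (slitPlane_ne_zero h.1)]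
    simp

lemma LS_continuousAt (S : Multiset ℂ) {z : ℂ} (h : Good S z) : ContinuousAt (LS S) z := by
  induction S using Multiset.induction_on with
  | empty =>
    have : LS 0 = fun _ => (0 : ℂ) := by funext z; exact LS_zero z
    rw [this]; exact continuousAt_const
  | cons a S ih =>
    rw [Good_cons] at h
    have : LS (a ::ₘ S) = fun z => Complex.log (1 - z / a) + LS S z := by
      funext z; exact LS_cons a S z
    rw [this]
    apply ContinuousAt.add _ (ih h.2)
    have hc : ContinuousAt (fun z : ℂ => 1 - z / a) z :=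
      (continuous_const.sub (continuous_id.div_const a)).continuousAt
    exact hc.clog h.1

lemma LS_differentiableAt (S : Multiset ℂ) {z : ℂ} (h : Good S z) :
    DifferentiableAt ℂ (LS S) z := by
  induction S using Multiset.induction_on with
  | empty =>
    have : LS 0 = fun _ => (0 : ℂ) := by funext z; exact LS_zero z
    rw [this]; exact differentiableAt_const _
  | cons a S ih =>
    rw [Good_cons] at h
    have : LS (a ::ₘ S) = fun z => Complex.log (1 - z / a) + LS S z := by
      funext z; exact LS_cons a S z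
    rw [this]
    apply DifferentiableAt.add _ (ih h.2)
    have hc : DifferentiableAt ℂ (fun z : ℂ => 1 - z / a) z :=
      (differentiableAt_const _).sub (differentiableAt_id.div_const a)
    exact hc.clog h.1

lemma LS_im_bound (S : Multiset ℂ) (z : ℂ) : |(LS S z).im| ≤ Multiset.card S * Real.pi := by
  induction S using Multiset.induction_on with
  | empty => simp [LS_zero]
  | cons a S ih =>
    rw [LS_cons, add_im, log_im, Multiset.card_cons]
    push_cast
    have h1 := abs_arg_le_pi (1 - z / a)
    have h2 := abs_add_le (arg (1 - z / a)) (LS S z).im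
    linarith

lemma LS_at_zero (S : Multiset ℂ) : LS S 0 = 0 := by
  induction S using Multiset.induction_on with
  | empty => simp [LS_zero]
  | cons a S ih => rw [LS_cons, ih]; simp

lemma slit_of_norm {z ζ : ℂ} (hζ : ζ ≠ 0) (hle : ‖z‖ ≤ ‖ζ‖) (hne : z ≠ ζ) :
    1 - z / ζ ∈ slitPlane := by
  rw [mem_slitPlane_iff]
  left
  rw [sub_re, one_re, sub_pos]
  by_contra hcon
  push Not at hcon
  have hn : ‖z / ζ‖ ≤ 1 := by
    rw [norm_div, div_le_one (norm_pos_iff.mpr hζ)]
    exact hle
  have h1 := Complex.sq_norm (z / ζ)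
  rw [normSq_apply] at h1
  have h2 : ‖z / ζ‖ ^ 2 ≤ 1 := by
    have := norm_nonneg (z / ζ)
    nlinarith
  have him : (z / ζ).im = 0 := by nlinarith
  have hre : (z / ζ).re = 1 := by
    have h3 := Complex.re_le_norm (z / ζ)
    linarith
  have : z / ζ = 1 := by apply Complex.ext <;> simp [him, hre]
  rw [div_eq_one_iff_eq hζ] at this
  exact hne this

/-- the polynomial `p - w` over `ℂ` -/
noncomputable def Qp (p : ℝ[X]) (w : ℂ) : ℂ[X] := p.map (algebraMap ℝ ℂ) - C w

lemma Qp_eval (p : ℝ[X]) (w z : ℂ) : (Qp p w).eval z = aeval z p - w := by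
  unfold Qp
  rw [eval_sub, eval_map_algebraMap, eval_C]

/-- roots of `p - w` -/
noncomputable def Rt (p : ℝ[X]) (w : ℂ) : Multiset ℂ := (Qp p w).roots

lemma aeval_zero' (p : ℝ[X]) (h0 : p.coeff 0 = 0) : aeval (0 : ℂ) p = 0 := by
  have := aeval_ofReal' p 0
  simp only [Complex.ofReal_zero] at this
  rw [this, ← coeff_zero_eq_eval_zero, h0]
  simp

lemma mem_Rt {p : ℝ[X]} {w : ℂ} (hw : w ≠ 0) (h0 : p.coeff 0 = 0) {z : ℂ} :
    z ∈ Rt p w ↔ aeval z p = w := by
  have hne : Qp p w ≠ 0 := by
    intro h
    have := Qp_eval p w 0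
    rw [h, eval_zero, aeval_zero' p h0] at this
    apply hw
    linear_combination this
  unfold Rt
  rw [mem_roots hne, IsRoot.def, Qp_eval, sub_eq_zero]

lemma prod_eq {p : ℝ[X]} {w : ℂ} (hw : w ≠ 0) (h0 : p.coeff 0 = 0) (z : ℂ) :
    ((Rt p w).map (fun ζ => 1 - z / ζ)).prod = 1 - aeval z p / w := by
  have hs := IsAlgClosed.splits (Qp p w)
  have h1 := hs.eval_eq_prod_roots z
  have h2 := hs.eval_eq_prod_roots 0
  rw [Qp_eval] at h1 h2
  rw [aeval_zero' p h0] at h2
  have h3 : (((Qp p w).roots).map (fun a => z - a)).prod =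
      (((Qp p w).roots).map (fun a => 0 - a)).prod * ((Rt p w).map (fun ζ => 1 - z / ζ)).prod := by
    unfold Rt
    rw [← Multiset.prod_map_mul]
    congr 1
    apply Multiset.map_congr rfl
    intro a ha
    have ha0 : a ≠ 0 := by
      rintro rfl
      have := (mem_Rt hw h0 (z := 0)).mp ha
      rw [aeval_zero' p h0] at this
      exact hw this.symm
    field_simp
    ring
  rw [h3, ← mul_assoc, ← h2] at h1
  field_simp
  linear_combination h1

end Pool.Agent.Helper766.G
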