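import Mathlib
import Pool.Agent.Helper766.G.LogFn

set_option autoImplicit false

open Polynomial Complex

namespace Pool.Agent.Helper766.G

open Pool.Agent.Helper766 Pool.Agent.Results.MP_6cc408_an.RealAxisSharp

/-- the boundary point -/
noncomputable def wpt (ρ δ : ℝ) : ℂ := (ρ : ℂ) * exp ((δ : ℂ) * I)

/-- `log(1 - P/w)` -/
noncomputable def LL (p : ℝ[X]) (ρ δ : ℝ) : ℂ → ℂ := LS (Rt p (wpt ρ δ))

/-- `2 Re G` -/
noncomputable def RR (p : ℝ[X]) (ρ δ : ℝ) (z : ℂ) : ℝ :=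
  (LL p ρ δ z).im + (LL p ρ δ (starRingEnd ℂ z)).im

lemma stay_pi {f : ℝ → ℝ} {a b : ℝ} (hf : ContinuousOn f (Set.uIcc a b))
    (hs : ∀ x ∈ Set.uIcc a b, Real.sin (f x) ≤ 0) (h1 : Real.pi ≤ f a) (h2 : f a ≤ 2 * Real.pi) :
    Real.pi ≤ f b ∧ f b ≤ 2 * Real.pi := by
  have hπ := Real.pi_pos
  constructor
  · by_contra hcon
    push Not at hcon
    obtain ⟨c, hc1, hc2⟩ := exists_between (max_lt hcon hπ)
    have hc3 : f b < c := (le_max_left _ _).trans_lt hc1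
    have hc4 : 0 < c := (le_max_right _ _).trans_lt hc1
    have hiv := intermediate_value_uIcc hf
    have hmem : c ∈ Set.uIcc (f a) (f b) := by
      rw [Set.uIcc_comm, Set.uIcc_of_le (by linarith)]
      exact ⟨hc3.le, by linarith⟩
    obtain ⟨x, hx, hxc⟩ := hiv hmem
    have := hs x hx
    rw [hxc] at this
    have := Real.sin_pos_of_pos_of_lt_pi hc4 hc2
    linarith
  · by_contra hcon
    push Not at hcon
    obtain ⟨c, hc1, hc2⟩ := exists_between (lt_min hcon (by linarith : 2 * Real.pi < 3 * Real.pi))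
    have hc3 : c < f b := hc2.trans_le (min_le_left _ _)
    have hc4 : c < 3 * Real.pi := hc2.trans_le (min_le_right _ _)
    have hiv := intermediate_value_uIcc hf
    have hmem : c ∈ Set.uIcc (f a) (f b) := by
      rw [Set.uIcc_of_le (by linarith)]
      exact ⟨by linarith, hc3.le⟩
    obtain ⟨x, hx, hxc⟩ := hiv hmem
    have := hs x hx
    rw [hxc] at this
    have h5 : 0 < Real.sin (c - 2 * Real.pi) :=
      Real.sin_pos_of_pos_of_lt_pi (by linarith) (by linarith)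
    rw [Real.sin_sub_two_pi] at h5
    linarith

lemma stay_neg {f : ℝ → ℝ} {a b : ℝ} (hf : ContinuousOn f (Set.uIcc a b))
    (hs : ∀ x ∈ Set.uIcc a b, Real.sin (f x) ≤ 0) (h1 : -Real.pi ≤ f a) (h2 : f a ≤ 0) :
    -Real.pi ≤ f b ∧ f b ≤ 0 := by
  have := stay_pi (f := fun x => f x + 2 * Real.pi) (hf.add continuousOn_const)
    (by intro x hx; rw [Real.sin_add_two_pi]; exact hs x hx) (by linarith) (by linarith)
  constructor <;> linarith [this.1, this.2]

lemma start_pos {f : ℝ → ℝ} (hf : ContinuousOn f (Set.Icc 0 1)) (h0 : f 0 = 0)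
    (hs : ∀ x, 0 < x → x ≤ 1 → 0 < Real.sin (f x)) : 0 < f 1 ∧ f 1 < Real.pi := by
  have hπ := Real.pi_pos
  have hf' : ContinuousOn f (Set.uIcc 0 1) := by rwa [Set.uIcc_of_le zero_le_one]
  have hiv := intermediate_value_uIcc hf'
  have hs1 := hs 1 one_pos le_rfl
  constructor
  · by_contra hcon
    push Not at hcon
    have h1 : f 1 < -Real.pi := by
      by_contra h2
      push Not at h2
      have := Real.sin_nonpos_of_nonpos_of_neg_pi_le hcon h2
      linarith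
    have hmem : -(Real.pi / 2) ∈ Set.uIcc (f 0) (f 1) := by
      rw [h0, Set.uIcc_comm, Set.uIcc_of_le (by linarith)]
      exact ⟨by linarith, by linarith⟩
    obtain ⟨x, hx, hxc⟩ := hiv hmem
    rw [Set.uIcc_of_le zero_le_one] at hx
    have hx0 : 0 < x := by
      rcases hx.1.eq_or_lt with h | h
      · rw [← h, h0] at hxc; linarith
      · exact h
    have := hs x hx0 hx.2
    rw [hxc, Real.sin_neg, Real.sin_pi_div_two] at this
    linarith
  · by_contra hcon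
    push Not at hcon
    have hmem : Real.pi ∈ Set.uIcc (f 0) (f 1) := by
      rw [h0, Set.uIcc_of_le (by linarith)]
      exact ⟨hπ.le, hcon⟩
    obtain ⟨x, hx, hxc⟩ := hiv hmem
    rw [Set.uIcc_of_le zero_le_one] at hx
    have hx0 : 0 < x := by
      rcases hx.1.eq_or_lt with h | h
      · rw [← h, h0] at hxc; linarith
      · exact h
    have := hs x hx0 hx.2
    rw [hxc, Real.sin_pi] at this
    linarith

section

variable {N : ℕ} {p : ℝ[X]} {ρ δ s : ℝ}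

lemma wpt_ne (hb : Bad N p ρ δ s) : wpt ρ δ ≠ 0 := by
  unfold wpt
  have : (ρ : ℂ) ≠ 0 := by exact_mod_cast hb.rho_pos.ne'
  exact mul_ne_zero this (exp_ne_zero _)

lemma root_unique (hb : Bad N p ρ δ s) {ζ : ℂ} (hζ : aeval ζ p = wpt ρ δ) (hn : ‖ζ‖ ≤ 1) :
    ζ = exp ((s : ℂ) * I) := by
  obtain ⟨R, hR, hinj⟩ := hb.inj
  apply hinj
  · rw [mem_ball_zero_iff]; linarith
  · rw [mem_ball_zero_iff, norm_exp_ofReal_mul_I]; exact hR
  · simp only
    rw [hζ, hb.hit]; rfl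

lemma root_norm (hb : Bad N p ρ δ s) {ζ : ℂ} (hζ : ζ ∈ Rt p (wpt ρ δ)) : 1 ≤ ‖ζ‖ := by
  rw [mem_Rt (wpt_ne hb) hb.cls.2.1] at hζ
  by_contra hcon
  push Not at hcon
  have := root_unique hb hζ hcon.le
  rw [this, norm_exp_ofReal_mul_I] at hcon
  exact lt_irrefl _ hcon

lemma good_of (hb : Bad N p ρ δ s) {z : ℂ} (hz : ‖z‖ ≤ 1) (hne : z ≠ exp ((s : ℂ) * I)) :
    Good (Rt p (wpt ρ δ)) z := by
  intro ζ hζ
  have h1 := root_norm hb hζ
  apply slit_of_norm
  · intro h; rw [h, norm_zero] at h1; linarith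
  · linarith
  · rintro rfl
    rw [mem_Rt (wpt_ne hb) hb.cls.2.1] at hζ
    exact hne (root_unique hb hζ hz)

lemma LL_exp (hb : Bad N p ρ δ s) {z : ℂ} (hz : ‖z‖ ≤ 1) (hne : z ≠ exp ((s : ℂ) * I)) :
    exp (LL p ρ δ z) = 1 - aeval z p / wpt ρ δ := by
  unfold LL
  rw [LS_exp _ (good_of hb hz hne), prod_eq (wpt_ne hb) hb.cls.2.1]

lemma LL_cont (hb : Bad N p ρ δ s) {z : ℂ} (hz : ‖z‖ ≤ 1) (hne : z ≠ exp ((s : ℂ) * I)) :
    ContinuousAt (LL p ρ δ) z := LS_continuousAt _ (good_of hb hz hne)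

lemma LL_diff (hb : Bad N p ρ δ s) {z : ℂ} (hz : ‖z‖ < 1) :
    DifferentiableAt ℂ (LL p ρ δ) z := by
  apply LS_differentiableAt _ (good_of hb hz.le _)
  intro h
  rw [h, norm_exp_ofReal_mul_I] at hz
  exact lt_irrefl _ hz

lemma LL_zero : LL p ρ δ 0 = 0 := LS_at_zero _

lemma sin_s_pos (hb : Bad N p ρ δ s) : 0 < Real.sin s :=
  Real.sin_pos_of_pos_of_lt_pi hb.s_pos hb.s_lt

lemma sin_d_pos (hb : Bad N p ρ δ s) : 0 < Real.sin δ :=
  Real.sin_pos_of_pos_of_lt_pi hb.d_pos (by linarith [hb.d_le, Real.pi_pos])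

lemma ne_of_im_nonpos (hb : Bad N p ρ δ s) {z : ℂ} (hz : z.im ≤ 0) : z ≠ exp ((s : ℂ) * I) := by
  rintro rfl
  rw [exp_ofReal_mul_I_im] at hz
  linarith [sin_s_pos hb]

lemma P_pos (hb : Bad N p ρ δ s) {x : ℝ} (h0 : 0 < x) (h1 : x ≤ 1) : 0 < p.eval x := by
  have hm := strictMono_real hb.cls
  have hp0 : p.eval 0 = 0 := by rw [← coeff_zero_eq_eval_zero]; exact hb.cls.2.1
  rcases h1.eq_or_lt with h | h
  · subst h
    have ha : 0 < p.eval (1 / 2) := by
      have := hm (show (0 : ℝ) ∈ Set.Ioo (-1 : ℝ) 1 by norm_num)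
        (show (1 / 2 : ℝ) ∈ Set.Ioo (-1 : ℝ) 1 by norm_num) (by norm_num)
      simp only at this
      rwa [hp0] at this
    have ht : Filter.Tendsto (fun x : ℝ => p.eval x) (nhdsWithin 1 (Set.Iio 1))
        (nhds (p.eval 1)) := (p.continuous.tendsto 1).mono_left nhdsWithin_le_nhds
    have : p.eval (1 / 2) ≤ p.eval 1 := by
      apply ge_of_tendsto ht
      have hI : Set.Ioo (1 / 2 : ℝ) 1 ∈ nhdsWithin (1 : ℝ) (Set.Iio 1) :=
        Ioo_mem_nhdsLT (by norm_num)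
      filter_upwards [hI] with y hy
      exact (hm (by norm_num) ⟨by linarith [hy.1], hy.2⟩ hy.1).le
    linarith
  · have := hm (show (0 : ℝ) ∈ Set.Ioo (-1 : ℝ) 1 by norm_num) ⟨by linarith, h⟩ h0
    simp only at this
    rwa [hp0] at this

lemma P_neg (hb : Bad N p ρ δ s) {x : ℝ} (h0 : x < 0) (h1 : -1 ≤ x) : p.eval x < 0 := by
  have hm := strictMono_real hb.cls
  have hp0 : p.eval 0 = 0 := by rw [← coeff_zero_eq_eval_zero]; exact hb.cls.2.1
  rcases h1.eq_or_lt with h | h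
  · rw [← h]
    have ha : p.eval (-1 / 2) < 0 := by
      have := hm (show (-1 / 2 : ℝ) ∈ Set.Ioo (-1 : ℝ) 1 by norm_num)
        (show (0 : ℝ) ∈ Set.Ioo (-1 : ℝ) 1 by norm_num) (by norm_num)
      simp only at this
      rwa [hp0] at this
    have ht : Filter.Tendsto (fun x : ℝ => p.eval x) (nhdsWithin (-1) (Set.Ioi (-1)))
        (nhds (p.eval (-1))) := (p.continuous.tendsto (-1)).mono_left nhdsWithin_le_nhds
    have : p.eval (-1) ≤ p.eval (-1 / 2) := by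
      apply le_of_tendsto ht
      have hI : Set.Ioo (-1 : ℝ) (-1 / 2) ∈ nhdsWithin (-1 : ℝ) (Set.Ioi (-1)) :=
        Ioo_mem_nhdsGT (by norm_num)
      filter_upwards [hI] with y hy
      exact (hm ⟨hy.1, by linarith [hy.2]⟩ (by norm_num) hy.2).le
    linarith
  · have := hm ⟨h, by linarith⟩ (show (0 : ℝ) ∈ Set.Ioo (-1 : ℝ) 1 by norm_num) h0
    simp only at this
    rwa [hp0] at this

lemma inv_wpt (_hb : Bad N p ρ δ s) : (wpt ρ δ)⁻¹ = ((1 / ρ : ℝ) : ℂ) * exp (-((δ : ℂ) * I)) := by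
  unfold wpt
  rw [mul_inv, exp_neg]
  push_cast
  rw [one_div]

lemma exp_neg_im (δ : ℝ) : (exp (-((δ : ℂ) * I))).im = -Real.sin δ := by
  have : -((δ : ℂ) * I) = ((-δ : ℝ) : ℂ) * I := by push_cast; ring
  rw [this, exp_ofReal_mul_I_im, Real.sin_neg]

lemma exp_neg_re (δ : ℝ) : (exp (-((δ : ℂ) * I))).re = Real.cos δ := by
  have : -((δ : ℂ) * I) = ((-δ : ℝ) : ℂ) * I := by push_cast; ring
  rw [this, exp_ofReal_mul_I_re, Real.cos_neg]

lemma LL_real_sin (hb : Bad N p ρ δ s) {x : ℝ} (hx : |x| ≤ 1) :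
    Real.exp (LL p ρ δ x).re * Real.sin (LL p ρ δ x).im = p.eval x / ρ * Real.sin δ := by
  have h := LL_exp hb (z := (x : ℂ)) (by rw [norm_real]; exact hx)
    (ne_of_im_nonpos hb (by simp))
  have h2 := congrArg Complex.im h
  rw [exp_im, div_eq_mul_inv, inv_wpt hb, aeval_ofReal'] at h2
  rw [h2]
  have : (1 - ((p.eval x : ℝ) : ℂ) * (((1 / ρ : ℝ) : ℂ) * exp (-((δ : ℂ) * I)))) =
      1 - ((p.eval x / ρ : ℝ) : ℂ) * exp (-((δ : ℂ) * I)) := by push_cast; ring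
  rw [this, sub_im, one_im, im_ofReal_mul, exp_neg_im]
  ring

lemma LL_one (hb : Bad N p ρ δ s) : 0 < (LL p ρ δ 1).im ∧ (LL p ρ δ 1).im < Real.pi := by
  have h := start_pos (f := fun x : ℝ => (LL p ρ δ (x : ℂ)).im) (by
    intro x hx
    apply ContinuousAt.continuousWithinAt
    have h1 := LL_cont hb (z := (x : ℂ)) (by
      rw [norm_real, Real.norm_eq_abs, abs_le]; exact ⟨by linarith [hx.1], hx.2⟩)
      (ne_of_im_nonpos hb (by simp))
    exact continuous_im.continuousAt.comp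
      (ContinuousAt.comp (f := fun x : ℝ => (x : ℂ)) h1 continuous_ofReal.continuousAt))
    (by simp [LL_zero]) (by
    intro x hx0 hx1
    have h1 := LL_real_sin hb (x := x) (by rw [abs_le]; exact ⟨by linarith, hx1⟩)
    have h2 : 0 < p.eval x / ρ * Real.sin δ :=
      mul_pos (div_pos (P_pos hb hx0 hx1) hb.rho_pos) (sin_d_pos hb)
    rw [← h1] at h2
    exact (mul_pos_iff_of_pos_left (Real.exp_pos _)).mp h2)
  simpa using h

lemma LL_neg_one (hb : Bad N p ρ δ s) :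
    -Real.pi < (LL p ρ δ (-1)).im ∧ (LL p ρ δ (-1)).im < 0 := by
  have h := start_pos (f := fun x : ℝ => -(LL p ρ δ ((-x : ℝ) : ℂ)).im) (by
    intro x hx
    apply ContinuousAt.continuousWithinAt
    apply ContinuousAt.neg
    have h1 := LL_cont hb (z := ((-x : ℝ) : ℂ)) (by
      rw [norm_real, Real.norm_eq_abs, abs_neg, abs_le]; exact ⟨by linarith [hx.1], hx.2⟩)
      (ne_of_im_nonpos hb (by simp))
    exact continuous_im.continuousAt.comp
      (ContinuousAt.comp (f := fun x : ℝ => ((-x : ℝ) : ℂ)) h1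
        (continuous_ofReal.comp continuous_neg).continuousAt))
    (by simp [LL_zero]) (by
    intro x hx0 hx1
    have h1 := LL_real_sin hb (x := -x) (by rw [abs_neg, abs_le]; exact ⟨by linarith, hx1⟩)
    have h2 : p.eval (-x) / ρ * Real.sin δ < 0 :=
      mul_neg_of_neg_of_pos (div_neg_of_neg_of_pos (P_neg hb (by linarith) (by linarith))
        hb.rho_pos) (sin_d_pos hb)
    rw [← h1] at h2
    rw [Real.sin_neg]
    have := neg_of_mul_neg_right h2 (Real.exp_pos _).le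
    linarith)
  have e : (((-1 : ℝ)) : ℂ) = -1 := by push_cast; ring
  simp only [e] at h
  constructor <;> linarith [h.1, h.2]

lemma conj_exp (θ : ℝ) : starRingEnd ℂ (exp ((θ : ℂ) * I)) = exp (-((θ : ℂ) * I)) := by
  rw [← exp_conj, map_mul, conj_ofReal, conj_I, mul_neg]

/-- the sign condition on the circle -/
lemma RR_sin (hb : Bad N p ρ δ s) {z : ℂ} (hz : ‖z‖ ≤ 1) (h1 : z ≠ exp ((s : ℂ) * I))
    (h2 : starRingEnd ℂ z ≠ exp ((s : ℂ) * I)) :
    Real.exp ((LL p ρ δ z).re + (LL p ρ δ (starRingEnd ℂ z)).re) * Real.sin (RR p ρ δ z + δ) =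
      (1 - ‖aeval z p‖ ^ 2 / ρ ^ 2) * Real.sin δ := by
  have e1 := LL_exp hb hz h1
  have e2 := LL_exp hb (z := starRingEnd ℂ z) (by simpa using hz) h2
  rw [aeval_conj] at e2
  set P := aeval z p with hP
  have e3 : exp (LL p ρ δ z + LL p ρ δ (starRingEnd ℂ z) + (δ : ℂ) * I) =
      (1 - P / wpt ρ δ) * (1 - starRingEnd ℂ P / wpt ρ δ) * exp ((δ : ℂ) * I) := by
    rw [exp_add, exp_add, e1, e2]
  have hρ : (ρ : ℂ) ≠ 0 := by exact_mod_cast hb.rho_pos.ne'
  have e4 : (1 - P / wpt ρ δ) * (1 - starRingEnd ℂ P / wpt ρ δ) * exp ((δ : ℂ) * I) =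
      exp ((δ : ℂ) * I) - ((2 * P.re / ρ : ℝ) : ℂ) +
        ((‖P‖ ^ 2 / ρ ^ 2 : ℝ) : ℂ) * exp (-((δ : ℂ) * I)) := by
    have h3 : P + starRingEnd ℂ P = ((2 * P.re : ℝ) : ℂ) := by rw [add_conj]
    have h4 : P * starRingEnd ℂ P = ((‖P‖ ^ 2 : ℝ) : ℂ) := by
      rw [mul_conj, normSq_eq_norm_sq]
    have h5 : exp (-((δ : ℂ) * I)) * exp ((δ : ℂ) * I) = 1 := by
      rw [← exp_add]; simp
    rw [div_eq_mul_inv, div_eq_mul_inv, inv_wpt hb]
    push_cast at h3 h4 ⊢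
    have h6 : (1 - P * (1 / (ρ : ℂ) * exp (-((δ : ℂ) * I)))) *
        (1 - starRingEnd ℂ P * (1 / (ρ : ℂ) * exp (-((δ : ℂ) * I)))) * exp ((δ : ℂ) * I) =
        exp ((δ : ℂ) * I) - (P + starRingEnd ℂ P) / (ρ : ℂ) * (exp (-((δ : ℂ) * I)) *
          exp ((δ : ℂ) * I)) + (P * starRingEnd ℂ P) / (ρ : ℂ) ^ 2 * exp (-((δ : ℂ) * I)) *
            (exp (-((δ : ℂ) * I)) * exp ((δ : ℂ) * I)) := by
      field_simp
      ring
    rw [h6, h5, h3, h4]
    ring
  have e5 := congrArg Complex.im (e3.trans e4)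
  rw [exp_im] at e5
  simp only [add_re, add_im, sub_im, ofReal_im, exp_neg_im, mul_re, mul_im, I_re,
    I_im, ofReal_re, mul_zero, mul_one, add_zero, sub_zero] at e5
  rw [exp_ofReal_mul_I_im] at e5
  unfold RR
  rw [e5]
  ring

lemma RR_sin_nonpos (hb : Bad N p ρ δ s) {θ : ℝ} (h0 : 0 ≤ θ) (h1 : θ ≤ Real.pi) (hne : θ ≠ s) :
    Real.sin (RR p ρ δ (exp ((θ : ℂ) * I)) + δ) ≤ 0 := by
  have hz : ‖exp ((θ : ℂ) * I)‖ = 1 := norm_exp_ofReal_mul_I θ
  have hne1 : exp ((θ : ℂ) * I) ≠ exp ((s : ℂ) * I) := by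
    intro h
    have h2 := congrArg Complex.re h
    rw [exp_ofReal_mul_I_re, exp_ofReal_mul_I_re] at h2
    exact hne (Real.injOn_cos ⟨h0, h1⟩ ⟨hb.s_pos.le, hb.s_lt.le⟩ h2)
  have hne2 : starRingEnd ℂ (exp ((θ : ℂ) * I)) ≠ exp ((s : ℂ) * I) := by
    apply ne_of_im_nonpos hb
    rw [conj_im, exp_ofReal_mul_I_im]
    have := Real.sin_nonneg_of_nonneg_of_le_pi h0 h1
    linarith
  have h := RR_sin hb hz.le hne1 hne2
  have hmin := hb.min _ hz
  have h3 : (1 - ‖aeval (exp ((θ : ℂ) * I)) p‖ ^ 2 / ρ ^ 2) * Real.sin δ ≤ 0 := by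
    apply mul_nonpos_of_nonpos_of_nonneg _ (sin_d_pos hb).le
    rw [sub_nonpos, le_div_iff₀ (by have := hb.rho_pos; positivity), one_mul]
    have := hb.rho_pos
    gcongr
  rw [← h] at h3
  by_contra hcon
  push Not at hcon
  have := mul_pos (Real.exp_pos ((LL p ρ δ (exp ((θ : ℂ) * I))).re +
    (LL p ρ δ (starRingEnd ℂ (exp ((θ : ℂ) * I)))).re)) hcon
  linarith

lemma RR_cont (hb : Bad N p ρ δ s) {θ : ℝ} (h0 : 0 ≤ θ) (h1 : θ ≤ Real.pi) (hne : θ ≠ s) :
    ContinuousAt (fun z : ℂ => RR p ρ δ z) (exp ((θ : ℂ) * I)) := by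
  have hz : ‖exp ((θ : ℂ) * I)‖ = 1 := norm_exp_ofReal_mul_I θ
  have hne1 : exp ((θ : ℂ) * I) ≠ exp ((s : ℂ) * I) := by
    intro h
    have h2 := congrArg Complex.re h
    rw [exp_ofReal_mul_I_re, exp_ofReal_mul_I_re] at h2
    exact hne (Real.injOn_cos ⟨h0, h1⟩ ⟨hb.s_pos.le, hb.s_lt.le⟩ h2)
  have hne2 : starRingEnd ℂ (exp ((θ : ℂ) * I)) ≠ exp ((s : ℂ) * I) := by
    apply ne_of_im_nonpos hb
    rw [conj_im, exp_ofReal_mul_I_im]
    have := Real.sin_nonneg_of_nonneg_of_le_pi h0 h1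
    linarith
  unfold RR
  apply ContinuousAt.add
  · exact continuous_im.continuousAt.comp (LL_cont hb hz.le hne1)
  · apply continuous_im.continuousAt.comp
    exact ContinuousAt.comp (f := fun z : ℂ => starRingEnd ℂ z)
      (LL_cont hb (by rw [norm_conj]; exact hz.le) hne2) continuous_conj.continuousAt

lemma RR_right (hb : Bad N p ρ δ s) {θ : ℝ} (h0 : 0 ≤ θ) (h1 : θ < s) :
    Real.pi - δ ≤ RR p ρ δ (exp ((θ : ℂ) * I)) ∧
      RR p ρ δ (exp ((θ : ℂ) * I)) ≤ 2 * Real.pi - δ := by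
  have hsπ := hb.s_lt
  have hδ0 := hb.d_pos
  have hδ1 := hb.d_le
  have hπ := Real.pi_pos
  have hL := LL_one hb
  have hstart : RR p ρ δ (exp (((0 : ℝ) : ℂ) * I)) = 2 * (LL p ρ δ 1).im := by
    unfold RR; simp; ring
  have hs0 := RR_sin_nonpos hb le_rfl hπ.le hb.s_pos.ne
  rw [hstart] at hs0
  have hst1 : Real.pi ≤ 2 * (LL p ρ δ 1).im + δ := by
    by_contra hcon
    push Not at hcon
    have := Real.sin_pos_of_pos_of_lt_pi (x := 2 * (LL p ρ δ 1).im + δ) (by linarith [hL.1]) hcon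
    linarith
  have hst2 : 2 * (LL p ρ δ 1).im + δ ≤ 2 * Real.pi := by
    by_contra hcon
    push Not at hcon
    have := Real.sin_pos_of_pos_of_lt_pi (x := 2 * (LL p ρ δ 1).im + δ - 2 * Real.pi)
      (by linarith) (by linarith [hL.2])
    rw [Real.sin_sub_two_pi] at this
    linarith
  have := stay_pi (f := fun θ : ℝ => RR p ρ δ (exp ((θ : ℂ) * I)) + δ) (a := 0) (b := θ) (by
    intro x hx
    rw [Set.uIcc_of_le h0] at hx
    apply ContinuousAt.continuousWithinAt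
    apply ContinuousAt.add _ continuousAt_const
    exact ContinuousAt.comp (f := fun θ : ℝ => exp ((θ : ℂ) * I))
      (RR_cont hb hx.1 (by linarith [hx.2]) (by linarith [hx.2] : x < s).ne) (by fun_prop))
    (by
      intro x hx
      rw [Set.uIcc_of_le h0] at hx
      exact RR_sin_nonpos hb hx.1 (by linarith [hx.2]) (by linarith [hx.2] : x < s).ne)
    (by rw [hstart]; exact hst1) (by rw [hstart]; exact hst2)
  constructor <;> linarith [this.1, this.2]

lemma RR_left (hb : Bad N p ρ δ s) {θ : ℝ} (h0 : s < θ) (h1 : θ ≤ Real.pi) :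
    -(Real.pi + δ) ≤ RR p ρ δ (exp ((θ : ℂ) * I)) ∧ RR p ρ δ (exp ((θ : ℂ) * I)) ≤ -δ := by
  have hsπ := hb.s_lt
  have hs0' := hb.s_pos
  have hδ0 := hb.d_pos
  have hδ1 := hb.d_le
  have hπ := Real.pi_pos
  have hL := LL_neg_one hb
  have hstart : RR p ρ δ (exp (((Real.pi : ℝ) : ℂ) * I)) = 2 * (LL p ρ δ (-1)).im := by
    unfold RR
    rw [exp_pi_mul_I, map_neg, map_one]
    ring
  have hs0 := RR_sin_nonpos hb hπ.le le_rfl hsπ.ne'
  rw [hstart] at hs0
  have hst1 : -Real.pi ≤ 2 * (LL p ρ δ (-1)).im + δ := by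
    by_contra hcon
    push Not at hcon
    have := Real.sin_pos_of_pos_of_lt_pi (x := 2 * (LL p ρ δ (-1)).im + δ + 2 * Real.pi)
      (by linarith [hL.1]) (by linarith)
    rw [Real.sin_add_two_pi] at this
    linarith
  have hst2 : 2 * (LL p ρ δ (-1)).im + δ ≤ 0 := by
    by_contra hcon
    push Not at hcon
    have := Real.sin_pos_of_pos_of_lt_pi (x := 2 * (LL p ρ δ (-1)).im + δ) hcon
      (by linarith [hL.2])
    linarith
  have := stay_neg (f := fun θ : ℝ => RR p ρ δ (exp ((θ : ℂ) * I)) + δ) (a := Real.pi) (b := θ) (by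
    intro x hx
    rw [Set.uIcc_comm, Set.uIcc_of_le h1] at hx
    apply ContinuousAt.continuousWithinAt
    apply ContinuousAt.add _ continuousAt_const
    exact ContinuousAt.comp (f := fun θ : ℝ => exp ((θ : ℂ) * I))
      (RR_cont hb (by linarith [hx.1]) hx.2 (by linarith [hx.1] : s < x).ne') (by fun_prop))
    (by
      intro x hx
      rw [Set.uIcc_comm, Set.uIcc_of_le h1] at hx
      exact RR_sin_nonpos hb (by linarith [hx.1]) hx.2 (by linarith [hx.1] : s < x).ne')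
    (by rw [hstart]; exact hst1) (by rw [hstart]; exact hst2)
  constructor <;> linarith [this.1, this.2]

end

end Pool.Agent.Helper766.G
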