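import Mathlib

set_option autoImplicit false

open Complex Metric

namespace Pool.Agent.Helper766.G

/-- `sqrt(1 - 2 z cos β + z^2)` on the closed disc -/
noncomputable def qk (β : ℝ) (z : ℂ) : ℂ :=
  (1 - z * exp (-((β : ℂ) * I))) ^ (1 / 2 : ℂ) * (1 - z * exp ((β : ℂ) * I)) ^ (1 / 2 : ℂ)

/-- the kernel times `z^2` -/
noncomputable def kap (β v : ℝ) (z : ℂ) : ℂ := -(1 + z) * ((1 - z) ^ 2 + 2 * v * z) * qk β z

lemma norm_exp_neg (β : ℝ) : ‖exp (-((β : ℂ) * I))‖ = 1 := by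
  have : -((β : ℂ) * I) = ((-β : ℝ) : ℂ) * I := by push_cast; ring
  rw [this, norm_exp_ofReal_mul_I]

lemma re_one_sub_nonneg {u : ℂ} (h : ‖u‖ ≤ 1) : 0 ≤ (1 - u).re := by
  have := re_le_norm u
  rw [sub_re, one_re]; linarith

lemma re_one_sub_pos {u : ℂ} (h : ‖u‖ < 1) : 0 < (1 - u).re := by
  have := re_le_norm u
  rw [sub_re, one_re]; linarith

lemma qk_continuousOn (β : ℝ) : ContinuousOn (qk β) (closedBall 0 1) := by
  intro z hz
  rw [mem_closedBall_zero_iff] at hz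
  apply ContinuousAt.continuousWithinAt
  have h12 : 0 < (1 / 2 : ℂ).re := by norm_num
  unfold qk
  apply ContinuousAt.mul
  · have h1 : ContinuousAt (fun z : ℂ => 1 - z * exp (-((β : ℂ) * I))) z := by fun_prop
    exact ContinuousAt.comp (g := fun w : ℂ => w ^ (1 / 2 : ℂ)) (continuousAt_cpow_const_of_re_pos
      (Or.inl (re_one_sub_nonneg (by rw [norm_mul, norm_exp_neg, mul_one]; exact hz))) h12) h1
  · have h1 : ContinuousAt (fun z : ℂ => 1 - z * exp ((β : ℂ) * I)) z := by fun_prop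
    exact ContinuousAt.comp (g := fun w : ℂ => w ^ (1 / 2 : ℂ)) (continuousAt_cpow_const_of_re_pos
      (Or.inl (re_one_sub_nonneg (by
        rw [norm_mul, norm_exp_ofReal_mul_I, mul_one]; exact hz))) h12) h1

lemma qk_differentiableAt (β : ℝ) {z : ℂ} (hz : ‖z‖ < 1) : DifferentiableAt ℂ (qk β) z := by
  unfold qk
  apply DifferentiableAt.mul
  · apply DifferentiableAt.cpow (by fun_prop) (differentiableAt_const _)
    rw [mem_slitPlane_iff]
    left
    exact re_one_sub_pos (by rw [norm_mul, norm_exp_neg, mul_one]; exact hz)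
  · apply DifferentiableAt.cpow (by fun_prop) (differentiableAt_const _)
    rw [mem_slitPlane_iff]
    left
    exact re_one_sub_pos (by rw [norm_mul, norm_exp_ofReal_mul_I, mul_one]; exact hz)

lemma qk_zero (β : ℝ) : qk β 0 = 1 := by
  unfold qk; simp

lemma sqrt_hasDerivAt (a : ℂ) :
    HasDerivAt (fun z : ℂ => (1 - z * a) ^ (1 / 2 : ℂ)) (-(a / 2)) 0 := by
  have h1 : HasDerivAt (fun z : ℂ => 1 - z * a) (-a) 0 := by
    simpa using ((hasDerivAt_id (0 : ℂ)).mul_const a).const_sub 1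
  have h2 := h1.cpow_const (c := (1 / 2 : ℂ)) (by simp)
  convert h2 using 1
  simp
  ring

lemma qk_hasDerivAt (β : ℝ) : HasDerivAt (qk β) (-(Real.cos β : ℂ)) 0 := by
  have h := (sqrt_hasDerivAt (exp (-((β : ℂ) * I)))).mul (sqrt_hasDerivAt (exp ((β : ℂ) * I)))
  have e : qk β = (fun z : ℂ => (1 - z * exp (-((β : ℂ) * I))) ^ (1 / 2 : ℂ)) *
      (fun z : ℂ => (1 - z * exp ((β : ℂ) * I)) ^ (1 / 2 : ℂ)) := by
    funext z; rfl
  rw [e]
  refine h.congr_deriv ?_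
  simp only [zero_mul, sub_zero, one_cpow, mul_one, one_mul]
  rw [ofReal_cos, Complex.cos]
  ring_nf

lemma kap_zero (β v : ℝ) : kap β v 0 = -1 := by
  unfold kap; rw [qk_zero]; simp

lemma kap_hasDerivAt (β v : ℝ) :
    HasDerivAt (kap β v) (((1 + Real.cos β - 2 * v : ℝ) : ℂ)) 0 := by
  have h1 : HasDerivAt (fun z : ℂ => -(1 + z) * ((1 - z) ^ 2 + 2 * v * z))
      ((1 : ℂ) - 2 * (v : ℂ)) 0 := by
    have h2 : HasDerivAt (fun z : ℂ => -(1 + z)) (-1) 0 :=
      ((hasDerivAt_id (0 : ℂ)).const_add 1).neg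
    have h3 : HasDerivAt (fun z : ℂ => (1 - z) ^ 2 + 2 * (v : ℂ) * z)
        ((-2 : ℂ) + 2 * (v : ℂ)) 0 := by
      have h4 : HasDerivAt (fun z : ℂ => 1 - z) (-1) 0 := by
        simpa using (hasDerivAt_id (0 : ℂ)).const_sub 1
      have h5 := (h4.pow 2).add ((hasDerivAt_id (0 : ℂ)).const_mul (2 * (v : ℂ)))
      exact h5.congr_deriv (by simp)
    exact (h2.mul h3).congr_deriv (by simp; ring)
  have := h1.mul (qk_hasDerivAt β)
  have e : kap β v = (fun z : ℂ => -(1 + z) * ((1 - z) ^ 2 + 2 * v * z)) * qk β := by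
    funext z; rfl
  rw [e]
  refine this.congr_deriv ?_
  rw [qk_zero]
  push_cast
  simp
  ring

lemma kap_continuousOn (β v : ℝ) : ContinuousOn (kap β v) (closedBall 0 1) := by
  unfold kap
  apply ContinuousOn.mul _ (qk_continuousOn β)
  fun_prop

lemma kap_differentiableOn (β v : ℝ) : DifferentiableOn ℂ (kap β v) (ball 0 1) := by
  intro z hz
  rw [mem_ball_zero_iff] at hz
  apply DifferentiableAt.differentiableWithinAt
  unfold kap
  apply DifferentiableAt.mul _ (qk_differentiableAt β hz)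
  fun_prop

/-- polar form of the square root of `1 - e^{ix}` -/
lemma sqrt_polar {x : ℝ} (h0 : 0 < x) (h1 : x < 2 * Real.pi) :
    (1 - exp ((x : ℂ) * I)) ^ (1 / 2 : ℂ) =
      (Real.sqrt (2 * Real.sin (x / 2)) : ℂ) * exp ((((x - Real.pi) / 4 : ℝ) : ℂ) * I) := by
  have hs : 0 < Real.sin (x / 2) := Real.sin_pos_of_pos_of_lt_pi (by linarith) (by linarith)
  have h2s : 0 < 2 * Real.sin (x / 2) := by linarith
  have e1 : 1 - exp ((x : ℂ) * I) =
      exp (((Real.log (2 * Real.sin (x / 2)) : ℝ) : ℂ) + (((x - Real.pi) / 2 : ℝ) : ℂ) * I) := by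
    rw [exp_add, ← ofReal_exp, Real.exp_log h2s]
    have h2 : exp ((((x - Real.pi) / 2 : ℝ) : ℂ) * I) = exp (((x / 2 : ℝ) : ℂ) * I) * (-I) := by
      have : (((x - Real.pi) / 2 : ℝ) : ℂ) * I = ((x / 2 : ℝ) : ℂ) * I - (Real.pi : ℂ) / 2 * I := by
        push_cast; ring
      rw [this, exp_sub, exp_pi_div_two_mul_I, div_eq_mul_inv, inv_I]
    have h3 : exp ((x : ℂ) * I) = exp (((x / 2 : ℝ) : ℂ) * I) * exp (((x / 2 : ℝ) : ℂ) * I) := by
      rw [← exp_add]; congr 1; push_cast; ring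
    rw [h2, h3]
    set s := exp (((x / 2 : ℝ) : ℂ) * I) with hsdef
    have h4 : ((2 * Real.sin (x / 2) : ℝ) : ℂ) = (exp (-(((x / 2 : ℝ) : ℂ) * I)) - s) * I := by
      rw [hsdef, ofReal_mul, ofReal_sin, Complex.sin]
      push_cast
      ring_nf
    rw [h4]
    have h5 : exp (-(((x / 2 : ℝ) : ℂ) * I)) * s = 1 := by
      rw [hsdef, ← exp_add]; simp
    linear_combination (-1 : ℂ) * h5 + (s * exp (-(((x / 2 : ℝ) : ℂ) * I)) - s * s) * I_mul_I
  have hne : 1 - exp ((x : ℂ) * I) ≠ 0 := by rw [e1]; exact exp_ne_zero _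
  rw [cpow_def_of_ne_zero hne, e1, log_exp]
  · rw [show (((Real.log (2 * Real.sin (x / 2)) : ℝ) : ℂ) + (((x - Real.pi) / 2 : ℝ) : ℂ) * I) *
      (1 / 2) = ((Real.log (2 * Real.sin (x / 2)) / 2 : ℝ) : ℂ) +
        (((x - Real.pi) / 4 : ℝ) : ℂ) * I by push_cast; ring, exp_add]
    congr 1
    rw [← ofReal_exp]
    congr 1
    rw [← Real.log_sqrt h2s.le, Real.exp_log (Real.sqrt_pos.mpr h2s)]
  · simp only [add_im, ofReal_im, mul_im, ofReal_re, I_im, mul_one, I_re, mul_zero, add_zero,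
      zero_add]
    linarith [Real.pi_pos]
  · simp only [add_im, ofReal_im, mul_im, ofReal_re, I_im, mul_one, I_re, mul_zero, add_zero,
      zero_add]
    linarith [Real.pi_pos]

lemma sqrt_polar_neg {x : ℝ} (h0 : 0 < x) (h1 : x < 2 * Real.pi) :
    (1 - exp (-((x : ℂ) * I))) ^ (1 / 2 : ℂ) =
      (Real.sqrt (2 * Real.sin (x / 2)) : ℂ) * exp (-((((x - Real.pi) / 4 : ℝ) : ℂ) * I)) := by
  have h := sqrt_polar h0 h1
  have hs : 0 < Real.sin (x / 2) := Real.sin_pos_of_pos_of_lt_pi (by linarith) (by linarith)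
  have e1 : 1 - exp (-((x : ℂ) * I)) = starRingEnd ℂ (1 - exp ((x : ℂ) * I)) := by
    rw [map_sub, map_one, ← exp_conj, map_mul, conj_ofReal, conj_I, mul_neg]
  have harg : (1 - exp ((x : ℂ) * I)).arg ≠ Real.pi := by
    intro h
    rw [arg_eq_pi_iff] at h
    have h2 := h.1
    have h3 := re_one_sub_nonneg (u := exp ((x : ℂ) * I)) (by rw [norm_exp_ofReal_mul_I])
    linarith
  rw [e1, show (1 / 2 : ℂ) = starRingEnd ℂ (1 / 2 : ℂ) by
    rw [show (1 / 2 : ℂ) = ((1 / 2 : ℝ) : ℂ) by push_cast; ring, conj_ofReal],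
    conj_cpow _ _ harg]
  rw [show starRingEnd ℂ (starRingEnd ℂ (1 / 2 : ℂ)) = (1 / 2 : ℂ) from conj_conj _, h, map_mul,
    conj_ofReal, ← exp_conj, map_mul, conj_ofReal, conj_I, mul_neg]

/-- the kernel on the circle -/
noncomputable def kk (β v θ : ℝ) : ℂ := kap β v (exp ((θ : ℂ) * I)) / exp ((θ : ℂ) * I) ^ 2

lemma kap_factor (v θ : ℝ) : -(1 + exp ((θ : ℂ) * I)) *
    ((1 - exp ((θ : ℂ) * I)) ^ 2 + 2 * v * exp ((θ : ℂ) * I)) * exp (((θ / 2 : ℝ) : ℂ) * I) =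
      ((4 * Real.cos (θ / 2) * (1 - Real.cos θ - v) : ℝ) : ℂ) * exp ((θ : ℂ) * I) ^ 2 := by
  set s := exp (((θ / 2 : ℝ) : ℂ) * I) with hs
  have h3 : exp ((θ : ℂ) * I) = s * s := by
    rw [hs, ← exp_add]; congr 1; push_cast; ring
  have h5 : exp (-(((θ / 2 : ℝ) : ℂ) * I)) * s = 1 := by
    rw [hs, ← exp_add]; simp
  set t := exp (-(((θ / 2 : ℝ) : ℂ) * I)) with ht
  have h4 : ((Real.cos (θ / 2) : ℝ) : ℂ) = (s + t) / 2 := by
    rw [hs, ht, ofReal_cos, Complex.cos]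
    push_cast
    ring_nf
  have h6 : ((Real.cos θ : ℝ) : ℂ) = (s * s + t * t) / 2 := by
    have : exp (-((θ : ℂ) * I)) = t * t := by
      rw [ht, ← exp_add]; congr 1; push_cast; ring
    rw [ofReal_cos, Complex.cos, ← h3, ← this]
    ring_nf
  rw [h3]
  push_cast
  push_cast at h4 h6
  rw [h4, h6]
  have e1 : 4 * ((s + t) / 2) * (1 - (s * s + t * t) / 2 - (v : ℂ)) * (s * s) ^ 2 =
      2 * (s * s + t * s) * ((1 - v) * (s * s) - (s * s * (s * s) + (t * s) * (t * s)) / 2) * s := by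
    ring
  rw [e1, h5]
  ring

lemma kk_lt {β v θ : ℝ} (hβ : β ≤ Real.pi) (h0 : 0 ≤ θ) (h1 : θ < β) :
    kk β v θ = ((4 * Real.cos (θ / 2) * (1 - Real.cos θ - v) *
      Real.sqrt (2 * Real.cos θ - 2 * Real.cos β) : ℝ) : ℂ) := by
  have hz : exp ((θ : ℂ) * I) ≠ 0 := exp_ne_zero _
  have e1 : 1 - exp ((θ : ℂ) * I) * exp (-((β : ℂ) * I)) = 1 - exp (-(((β - θ : ℝ) : ℂ) * I)) := by
    rw [← exp_add]; congr 2; push_cast; ring
  have e2 : 1 - exp ((θ : ℂ) * I) * exp ((β : ℂ) * I) = 1 - exp (((β + θ : ℝ) : ℂ) * I) := by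
    rw [← exp_add]; congr 2; push_cast; ring
  have hq : qk β (exp ((θ : ℂ) * I)) = ((Real.sqrt (2 * Real.cos θ - 2 * Real.cos β) : ℝ) : ℂ) *
      exp (((θ / 2 : ℝ) : ℂ) * I) := by
    unfold qk
    rw [e1, e2, sqrt_polar_neg (by linarith) (by linarith [Real.pi_pos]),
      sqrt_polar (by linarith) (by linarith)]
    have hprod : Real.sqrt (2 * Real.cos θ - 2 * Real.cos β) =
        Real.sqrt (2 * Real.sin ((β - θ) / 2)) * Real.sqrt (2 * Real.sin ((β + θ) / 2)) := by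
      rw [← Real.sqrt_mul]
      · congr 1
        have := Real.cos_sub_cos θ β
        rw [show (θ + β) / 2 = (β + θ) / 2 by ring, show (θ - β) / 2 = -((β - θ) / 2) by ring,
          Real.sin_neg] at this
        linarith
      · have := Real.sin_nonneg_of_nonneg_of_le_pi (x := (β - θ) / 2) (by linarith) (by linarith)
        linarith
    rw [hprod]
    have hexp : exp (-((((β - θ - Real.pi) / 4 : ℝ) : ℂ) * I)) *
        exp ((((β + θ - Real.pi) / 4 : ℝ) : ℂ) * I) = exp (((θ / 2 : ℝ) : ℂ) * I) := by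
      rw [← exp_add]; congr 1; push_cast; ring
    rw [← hexp]
    push_cast
    ring
  unfold kk kap
  rw [div_eq_iff (pow_ne_zero 2 hz), hq]
  have := kap_factor v θ
  push_cast at this ⊢
  linear_combination ((Real.sqrt (2 * Real.cos θ - 2 * Real.cos β) : ℝ) : ℂ) * this

lemma kk_gt {β v θ : ℝ} (hβ : 0 < β) (h0 : β ≤ θ) (h1 : θ ≤ Real.pi) :
    kk β v θ = -I * ((4 * Real.cos (θ / 2) * (1 - Real.cos θ - v) *
      Real.sqrt (2 * Real.cos β - 2 * Real.cos θ) : ℝ) : ℂ) := by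
  have hz : exp ((θ : ℂ) * I) ≠ 0 := exp_ne_zero _
  rcases h0.eq_or_lt with h | h
  · subst h
    have : qk β (exp ((β : ℂ) * I)) = 0 := by
      unfold qk
      rw [← exp_add]
      simp
    unfold kk kap
    rw [this]
    simp
  have e1 : 1 - exp ((θ : ℂ) * I) * exp (-((β : ℂ) * I)) = 1 - exp (((θ - β : ℝ) : ℂ) * I) := by
    rw [← exp_add]; congr 2; push_cast; ring
  have e2 : 1 - exp ((θ : ℂ) * I) * exp ((β : ℂ) * I) = 1 - exp (((β + θ : ℝ) : ℂ) * I) := by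
    rw [← exp_add]; congr 2; push_cast; ring
  have hq : qk β (exp ((θ : ℂ) * I)) = ((Real.sqrt (2 * Real.cos β - 2 * Real.cos θ) : ℝ) : ℂ) *
      (exp (((θ / 2 : ℝ) : ℂ) * I) * (-I)) := by
    unfold qk
    rw [e1, e2, sqrt_polar (by linarith) (by linarith),
      sqrt_polar (by linarith) (by linarith)]
    have hprod : Real.sqrt (2 * Real.cos β - 2 * Real.cos θ) =
        Real.sqrt (2 * Real.sin ((θ - β) / 2)) * Real.sqrt (2 * Real.sin ((β + θ) / 2)) := by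
      rw [← Real.sqrt_mul]
      · congr 1
        have := Real.cos_sub_cos β θ
        rw [show (β - θ) / 2 = -((θ - β) / 2) by ring, Real.sin_neg] at this
        linarith
      · have := Real.sin_nonneg_of_nonneg_of_le_pi (x := (θ - β) / 2) (by linarith) (by linarith)
        linarith
    rw [hprod]
    have hexp : exp ((((θ - β - Real.pi) / 4 : ℝ) : ℂ) * I) *
        exp ((((β + θ - Real.pi) / 4 : ℝ) : ℂ) * I) = exp (((θ / 2 : ℝ) : ℂ) * I) * (-I) := by
      have h2 : exp ((((θ - β - Real.pi) / 4 : ℝ) : ℂ) * I) *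
          exp ((((β + θ - Real.pi) / 4 : ℝ) : ℂ) * I) =
          exp (((θ / 2 : ℝ) : ℂ) * I - (Real.pi : ℂ) / 2 * I) := by
        rw [← exp_add]; congr 1; push_cast; ring
      rw [h2, exp_sub, exp_pi_div_two_mul_I, div_eq_mul_inv, inv_I]
    rw [← hexp]
    push_cast
    ring
  unfold kk kap
  rw [div_eq_iff (pow_ne_zero 2 hz), hq]
  have := kap_factor v θ
  push_cast at this ⊢
  linear_combination (-I * ((Real.sqrt (2 * Real.cos β - 2 * Real.cos θ) : ℝ) : ℂ)) * this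

lemma kap_conj {β v : ℝ} {z : ℂ} (hz : ‖z‖ ≤ 1) :
    kap β v (starRingEnd ℂ z) = starRingEnd ℂ (kap β v z) := by
  have harg : ∀ u : ℂ, ‖u‖ ≤ 1 → (1 - u).arg ≠ Real.pi := by
    intro u hu h
    rw [arg_eq_pi_iff] at h
    have h3 := re_one_sub_nonneg hu
    linarith [h.1]
  have hhalf : starRingEnd ℂ (1 / 2 : ℂ) = (1 / 2 : ℂ) := by
    rw [show (1 / 2 : ℂ) = ((1 / 2 : ℝ) : ℂ) by push_cast; ring, conj_ofReal]
  have hc : ∀ u : ℂ, ‖u‖ ≤ 1 → starRingEnd ℂ ((1 - u) ^ (1 / 2 : ℂ)) =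
      (1 - starRingEnd ℂ u) ^ (1 / 2 : ℂ) := by
    intro u hu
    have := conj_cpow (1 - u) (1 / 2 : ℂ) (harg u hu)
    rw [hhalf] at this
    rw [← this, map_sub, map_one]
  unfold kap qk
  rw [map_mul, map_mul, map_mul]
  rw [hc _ (by rw [norm_mul, norm_exp_neg, mul_one]; exact hz),
    hc _ (by rw [norm_mul, norm_exp_ofReal_mul_I, mul_one]; exact hz)]
  rw [map_mul, map_mul, ← exp_conj, ← exp_conj, map_neg, map_mul, conj_ofReal, conj_I]
  simp only [map_neg, map_add, map_one, map_pow, map_sub, map_mul, conj_ofReal, map_ofNat,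
    mul_neg, neg_neg, conj_I]
  ring

lemma kk_neg (β v θ : ℝ) : kap β v (exp (-((θ : ℂ) * I))) / exp (-((θ : ℂ) * I)) ^ 2 =
    starRingEnd ℂ (kk β v θ) := by
  have e : exp (-((θ : ℂ) * I)) = starRingEnd ℂ (exp ((θ : ℂ) * I)) := by
    rw [← exp_conj, map_mul, conj_ofReal, conj_I, mul_neg]
  unfold kk
  rw [e, kap_conj (by rw [norm_exp_ofReal_mul_I]), map_div₀, map_pow]

end Pool.Agent.Helper766.G
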