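import Mathlib
import Pool.Agent.Helper766.G.Kernel

set_option autoImplicit false

open Complex Metric

namespace Pool.Agent.Helper766.G

lemma eq_mul_dslope {f : ℂ → ℂ} (f0 : f 0 = 0) (z : ℂ) : f z = z * dslope f 0 z := by
  have := sub_smul_dslope f 0 z
  rw [f0, sub_zero, sub_zero, smul_eq_mul] at this
  exact this.symm

lemma eq_add_mul_dslope (f : ℂ → ℂ) (z : ℂ) : f z = f 0 + z * dslope f 0 z := by
  have := sub_smul_dslope f 0 z
  rw [sub_zero, smul_eq_mul] at this
  rw [this]; ring

lemma deriv_dslope {f : ℂ → ℂ} (hf : DifferentiableOn ℂ f (ball 0 1)) (f0 : f 0 = 0) :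
    deriv (dslope f 0) 0 = deriv (deriv f) 0 / 2 := by
  have hmem : ball (0 : ℂ) 1 ∈ nhds (0 : ℂ) := ball_mem_nhds 0 one_pos
  set M := dslope f 0 with hM
  have hMd : DifferentiableOn ℂ M (ball 0 1) := (differentiableOn_dslope hmem).mpr hf
  have hM'd : DifferentiableOn ℂ (deriv M) (ball 0 1) := hMd.deriv isOpen_ball
  have heq : deriv f =ᶠ[nhds 0] fun z => M z + z * deriv M z := by
    filter_upwards [isOpen_ball.mem_nhds (mem_ball_self (x := (0 : ℂ)) (ε := 1) one_pos)] with z hz
    have hMz : HasDerivAt M (deriv M z) z :=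
      ((hMd z hz).differentiableAt (isOpen_ball.mem_nhds hz)).hasDerivAt
    have hfz : f = fun z => z * M z := by
      funext z; exact eq_mul_dslope f0 z
    have := (hasDerivAt_id z).mul hMz
    rw [hfz]
    rw [show (fun z => z * M z) = id * M from rfl, this.deriv]
    simp
  rw [heq.deriv_eq]
  have h0 : (0 : ℂ) ∈ ball (0 : ℂ) 1 := mem_ball_self one_pos
  have hM0 : HasDerivAt M (deriv M 0) 0 :=
    ((hMd 0 h0).differentiableAt hmem).hasDerivAt
  have hM'0 : HasDerivAt (deriv M) (deriv (deriv M) 0) 0 :=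
    ((hM'd 0 h0).differentiableAt hmem).hasDerivAt
  have h1 := hM0.add ((hasDerivAt_id (0 : ℂ)).mul hM'0)
  have h2 : (fun z => M z + z * deriv M z) = M + id * deriv M := rfl
  rw [h2, h1.deriv]
  simp

lemma mean_inv (c : ℂ) : Real.circleAverage (fun z : ℂ => c * z⁻¹) 0 1 = 0 := by
  have h1 := Real.circleAverage_zero_one_congr_inv (f := fun z : ℂ => c * z)
  have h2 : Real.circleAverage (fun z : ℂ => c * z) 0 1 = c * 0 := by
    apply DiffContOnCl.circleAverage
    apply Differentiable.diffContOnCl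
    fun_prop
  rw [h2, mul_zero] at h1
  exact h1

lemma mean_formula {L κ : ℂ → ℂ} (hL : DifferentiableOn ℂ L (ball 0 1)) (L0 : L 0 = 0)
    (hκ : DifferentiableOn ℂ κ (ball 0 1)) (hκc : ContinuousOn κ (closedBall 0 1))
    {r : ℝ} (hr0 : 0 < r) (hr1 : r < 1) :
    Real.circleAverage (fun z : ℂ => L (r * z) * κ z / z ^ 2) 0 1 =
      (r : ℂ) ^ 2 * deriv (dslope L 0) 0 * κ 0 + r * deriv L 0 * deriv κ 0 := by
  have hmem : ball (0 : ℂ) 1 ∈ nhds (0 : ℂ) := ball_mem_nhds 0 one_pos
  set M := dslope L 0 with hM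
  have hMd : DifferentiableOn ℂ M (ball 0 1) := (differentiableOn_dslope hmem).mpr hL
  set l2 := dslope M 0 with hl2
  have hl2d : DifferentiableOn ℂ l2 (ball 0 1) := (differentiableOn_dslope hmem).mpr hMd
  set k1 := dslope κ 0 with hk1
  have hk1d : DifferentiableOn ℂ k1 (ball 0 1) := (differentiableOn_dslope hmem).mpr hκ
  have hk1c : ContinuousOn k1 (closedBall 0 1) := by
    intro z hz
    by_cases h : z = 0
    · subst h
      exact ((hk1d 0 (mem_ball_self one_pos)).differentiableAt hmem).continuousAt.continuousWithinAt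
    · exact (continuousWithinAt_dslope_of_ne h).mpr (hκc z hz)
  have hmap : ∀ z : ℂ, z ∈ closedBall (0 : ℂ) 1 → (r : ℂ) * z ∈ ball (0 : ℂ) 1 := by
    intro z hz
    rw [mem_closedBall_zero_iff] at hz
    rw [mem_ball_zero_iff, norm_mul, norm_real, Real.norm_eq_abs, abs_of_pos hr0]
    calc r * ‖z‖ ≤ r * 1 := by gcongr
      _ < 1 := by linarith
  have hl2r : ∀ z : ℂ, z ∈ closedBall (0 : ℂ) 1 → DifferentiableAt ℂ (fun z : ℂ => l2 (r * z)) z := by
    intro z hz
    have h1 := (hl2d _ (hmap z hz)).differentiableAt (isOpen_ball.mem_nhds (hmap z hz))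
    exact h1.comp z (by fun_prop)
  set F : ℂ → ℂ := fun z => (r : ℂ) ^ 2 * l2 (r * z) * κ 0 + r * M 0 * k1 z +
    (r : ℂ) ^ 2 * l2 (r * z) * k1 z * z with hF
  have hFc : ContinuousOn F (closedBall 0 1) := by
    have h1 : ContinuousOn (fun z : ℂ => l2 (r * z)) (closedBall 0 1) :=
      fun z hz => (hl2r z hz).continuousAt.continuousWithinAt
    rw [hF]
    exact (((continuousOn_const.mul h1).mul continuousOn_const).add
      (continuousOn_const.mul hk1c)).add (((continuousOn_const.mul h1).mul hk1c).mul continuousOn_id)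
  have hFd : DifferentiableOn ℂ F (ball 0 1) := by
    have h1 : DifferentiableOn ℂ (fun z : ℂ => l2 (r * z)) (ball 0 1) :=
      fun z hz => (hl2r z (ball_subset_closedBall hz)).differentiableWithinAt
    rw [hF]
    exact ((((differentiableOn_const _).mul h1).mul (differentiableOn_const _)).add
      ((differentiableOn_const _).mul hk1d)).add
        ((((differentiableOn_const _).mul h1).mul hk1d).mul differentiableOn_id)
  have hFm : Real.circleAverage F 0 1 = F 0 := by
    apply DiffContOnCl.circleAverage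
    rw [abs_one]
    exact ⟨hFd, by rw [closure_ball _ one_ne_zero]; exact hFc⟩
  have hsph : Set.EqOn (fun z : ℂ => L (r * z) * κ z / z ^ 2)
      ((fun z : ℂ => (r * M 0 * κ 0) * z⁻¹) + F) (sphere 0 |1|) := by
    intro z hz
    rw [abs_one, mem_sphere_zero_iff_norm] at hz
    have hz0 : z ≠ 0 := by
      intro h; rw [h] at hz; simp at hz
    have e1 : L (r * z) = r * z * (M 0 + r * z * l2 (r * z)) := by
      rw [eq_mul_dslope L0 (r * z)]
      congr 1
      exact eq_add_mul_dslope M (r * z)
    have e2 : κ z = κ 0 + z * k1 z := eq_add_mul_dslope κ z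
    simp only [Pi.add_apply, hF]
    rw [e1, e2]
    field_simp
    ring
  rw [Real.circleAverage_congr_sphere hsph, Real.circleAverage_add, mean_inv, hFm, zero_add, hF]
  · simp only [mul_zero, add_zero]
    rw [hl2, hk1, dslope_same, dslope_same, hM, dslope_same]
  · apply ContinuousOn.circleIntegrable zero_le_one
    apply ContinuousOn.mul continuousOn_const
    apply ContinuousOn.inv₀ continuousOn_id
    intro z hz
    rw [mem_sphere_zero_iff_norm] at hz
    intro h
    simp only [id_eq] at h
    rw [h] at hz; simp at hz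
  · apply ContinuousOn.circleIntegrable zero_le_one
    exact hFc.mono sphere_subset_closedBall

/-- the mean over the circle as an integral over `[0,π]` -/
lemma average_half {g : ℂ → ℂ} (hg : ContinuousOn g (sphere 0 1)) :
    Real.circleAverage g 0 1 =
      (2 * Real.pi : ℝ)⁻¹ • ∫ θ in (0 : ℝ)..Real.pi,
        (g (exp ((θ : ℂ) * I)) + g (exp (-((θ : ℂ) * I)))) := by
  rw [Real.circleAverage_eq_integral_add (-Real.pi)]
  congr 1
  rw [intervalIntegral.integral_comp_add_right (fun θ => g (circleMap 0 1 θ))]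
  have e1 : (0 : ℝ) + -Real.pi = -Real.pi := by ring
  have e2 : 2 * Real.pi + -Real.pi = Real.pi := by ring
  rw [e1, e2]
  have hcm : ∀ θ : ℝ, circleMap 0 1 θ = exp ((θ : ℂ) * I) := by
    intro θ; simp [circleMap]
  have hcont : Continuous (fun θ : ℝ => g (circleMap 0 1 θ)) := by
    rw [← continuousOn_univ]
    apply hg.comp (continuous_circleMap 0 1).continuousOn
    intro θ _
    exact circleMap_mem_sphere 0 zero_le_one θ
  rw [← intervalIntegral.integral_add_adjacent_intervals (b := 0)
    (hcont.intervalIntegrable _ _) (hcont.intervalIntegrable _ _)]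
  have e3 : ∫ θ in (-Real.pi)..0, g (circleMap 0 1 θ) =
      ∫ θ in (0 : ℝ)..Real.pi, g (circleMap 0 1 (-θ)) := by
    rw [intervalIntegral.integral_comp_neg (fun θ => g (circleMap 0 1 θ)), neg_zero]
  rw [e3, add_comm, ← intervalIntegral.integral_add]
  · apply intervalIntegral.integral_congr
    intro θ _
    simp only [hcm]
    congr 3
    push_cast
    ring
  · exact hcont.intervalIntegrable _ _
  · exact (hcont.comp continuous_neg).intervalIntegrable _ _

end Pool.Agent.Helper766.G
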