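import Mathlib

set_option autoImplicit false

open Real MeasureTheory

namespace Pool.Agent.Helper766.G

/-- weight on the circle -/
noncomputable def wt (β v θ : ℝ) : ℝ :=
  4 * cos (θ / 2) * (1 - cos θ - v) * √(2 * cos θ - 2 * cos β)

/-- its primitive in the variable `t` -/
noncomputable def Wf (B v t : ℝ) : ℝ :=
  (B / 2) * ((B / 2) * (t / 2 - sin (2 * t) / 4) - v * (t + sin t))

/-- the angle `θ` with `1 - cos θ = (B/2)(1 - cos t)` -/
noncomputable def tht (B t : ℝ) : ℝ := arccos (1 - B / 2 * (1 - cos t))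

lemma wt_continuous (β v : ℝ) : Continuous (wt β v) := by
  unfold wt
  fun_prop

lemma cos_tht {B t : ℝ} (hB : 0 < B) (hB2 : B ≤ 2) : cos (tht B t) = 1 - B / 2 * (1 - cos t) := by
  unfold tht
  have h1 := cos_le_one t
  have h2 := neg_one_le_cos t
  rw [cos_arccos]
  · nlinarith
  · nlinarith

lemma tht_nonneg (B t : ℝ) : 0 ≤ tht B t := arccos_nonneg _

lemma tht_le_pi (B t : ℝ) : tht B t ≤ π := arccos_le_pi _

lemma tht_zero (B : ℝ) : tht B 0 = 0 := by
  unfold tht; simp

lemma tht_mono {B t1 t2 : ℝ} (hB : 0 < B) (h1 : 0 ≤ t1) (h12 : t1 ≤ t2) (h2 : t2 ≤ π) :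
    tht B t1 ≤ tht B t2 := by
  unfold tht
  apply antitone_arccos
  have := cos_le_cos_of_nonneg_of_le_pi h1 h2 h12
  nlinarith

lemma Wf_hasDerivAt (B v t : ℝ) :
    HasDerivAt (Wf B v) ((B / 2) * ((B / 2 * (1 - cos t) - v) * (1 + cos t))) t := by
  have h1 : HasDerivAt (fun t : ℝ => sin (2 * t)) (cos (2 * t) * 2) t := by
    have := ((hasDerivAt_id t).const_mul 2).sin
    simpa using this
  have h2 : HasDerivAt (fun t : ℝ => t / 2 - sin (2 * t) / 4) (1 / 2 - cos (2 * t) * 2 / 4) t :=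
    ((hasDerivAt_id t).div_const 2).sub (h1.div_const 4)
  have h3 : HasDerivAt (fun t : ℝ => t + sin t) (1 + cos t) t :=
    (hasDerivAt_id t).add (hasDerivAt_sin t)
  have h4 := ((h2.const_mul (B / 2)).sub (h3.const_mul v)).const_mul (B / 2)
  refine h4.congr_deriv ?_
  rw [cos_two_mul]
  ring

lemma wt_integral {B v t β : ℝ} (hB : 0 < B) (hB2 : B ≤ 2) (ht0 : 0 ≤ t) (htπ : t ≤ π)
    (hβ : cos β = 1 - B) :
    ∫ θ in (0 : ℝ)..tht B t, wt β v θ = 4 * Wf B v t := by
  set A : ℝ → ℝ := fun θ => 4 * Wf B v (arccos (1 - 2 * (1 - cos θ) / B)) with hA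
  have hWc : Continuous (Wf B v) := by unfold Wf; fun_prop
  have h1 : ∫ θ in (0 : ℝ)..tht B t, wt β v θ = A (tht B t) - A 0 := by
    apply intervalIntegral.integral_eq_sub_of_hasDerivAt_of_le (tht_nonneg B t)
    · apply Continuous.continuousOn
      rw [hA]
      apply continuous_const.mul
      apply hWc.comp
      apply continuous_arccos.comp
      fun_prop
    · intro θ hθ
      have hcosθ : cos (tht B t) < cos θ :=
        cos_lt_cos_of_nonneg_of_le_pi hθ.1.le (tht_le_pi B t) hθ.2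
      rw [cos_tht hB hB2] at hcosθ
      have hct := neg_one_le_cos t
      have hθ2 : θ < π := lt_of_lt_of_le hθ.2 (tht_le_pi B t)
      have hcosθ1 : cos θ < 1 := by
        have := cos_lt_cos_of_nonneg_of_le_pi le_rfl hθ2.le hθ.1
        rwa [cos_zero] at this
      set u := 1 - cos θ with hu
      have hu0 : 0 < u := by rw [hu]; linarith
      have huB : u < B := by
        have : B / 2 * (1 - cos t) ≤ B := by nlinarith
        linarith
      set x := 1 - 2 * u / B with hx
      have hx1 : x < 1 := by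
        rw [hx]
        have : 0 < 2 * u / B := by positivity
        linarith
      have hx2 : -1 < x := by
        rw [hx]
        have : 2 * u / B < 2 := by
          rw [div_lt_iff₀ hB]; linarith
        linarith
      have hs2 : 0 < sin (θ / 2) := sin_pos_of_pos_of_lt_pi (by linarith [hθ.1]) (by linarith)
      have hu' : u = 2 * sin (θ / 2) ^ 2 := by
        have h := cos_two_mul (θ / 2)
        rw [show 2 * (θ / 2) = θ by ring] at h
        have h2 := sin_sq_add_cos_sq (θ / 2)
        rw [hu, h]; linarith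
      have hsin : sin θ = 2 * sin (θ / 2) * cos (θ / 2) := by
        have h := sin_two_mul (θ / 2)
        rwa [show 2 * (θ / 2) = θ by ring] at h
      set Q := √(2 * cos θ - 2 * cos β) with hQ
      have hQ2 : Q ^ 2 = 2 * (B - u) := by
        rw [hQ, sq_sqrt (by rw [hβ]; linarith), hβ]; rw [hu]; ring
      have hQ0 : 0 < Q := by
        rw [hQ]; apply sqrt_pos.mpr; rw [hβ]; linarith
      have hS : √(1 - x ^ 2) = 2 * sin (θ / 2) * Q / B := by
        rw [show 1 - x ^ 2 = (2 * sin (θ / 2) * Q / B) ^ 2 by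
          rw [div_pow, mul_pow, mul_pow, hQ2, hx]
          field_simp
          linear_combination (4 * (B - u)) * hu']
        apply sqrt_sq
        positivity
      have hdx : HasDerivAt (fun θ : ℝ => 1 - 2 * (1 - cos θ) / B) (-(2 * sin θ / B)) θ := by
        have h1 : HasDerivAt (fun θ : ℝ => 2 * (1 - cos θ) / B) (2 * sin θ / B) θ := by
          have := (((hasDerivAt_cos θ).const_sub 1).const_mul 2).div_const B
          refine this.congr_deriv ?_
          ring
        exact h1.const_sub 1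
      have hdarc : HasDerivAt arccos (-(1 / √(1 - x ^ 2))) x :=
        hasDerivAt_arccos (by linarith) (by linarith)
      have hdT := hdarc.comp θ hdx
      have hcosT : cos (arccos x) = x := cos_arccos hx2.le hx1.le
      have hdW := Wf_hasDerivAt B v (arccos x)
      rw [hcosT] at hdW
      have hdA := (hdW.comp θ hdT).const_mul 4
      refine hdA.congr_deriv ?_
      rw [hS]
      unfold wt
      rw [← hQ, ← hu, hsin]
      have e1 : B / 2 * (1 - x) = u := by rw [hx]; field_simp; ring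
      have e2 : B / 2 * (1 + x) = B - u := by rw [hx]; field_simp; ring
      have e3 : B / 2 * ((B / 2 * (1 - x) - v) * (1 + x)) = (u - v) * (Q ^ 2 / 2) := by
        rw [hQ2, e1]
        linear_combination (u - v) * e2
      rw [e3]
      field_simp
    · exact (wt_continuous β v).intervalIntegrable _ _
  rw [h1, hA]
  simp only
  rw [cos_tht hB hB2]
  have e1 : 1 - 2 * (1 - (1 - B / 2 * (1 - cos t))) / B = cos t := by field_simp; ring
  rw [e1, arccos_cos ht0 htπ]
  simp [Wf]

/-- lower bound of the weighted integral from pointwise bounds -/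
lemma weighted_lower {B β t1 ta s δ : ℝ} {R : ℝ → ℝ} (hB : 0 < B) (hB2 : B ≤ 2)
    (hβπ : β ≤ π) (hβ0 : 0 ≤ β) (hβ : cos β = 1 - B) (h1 : 0 ≤ t1) (h1a : t1 ≤ ta) (haπ : ta ≤ π)
    (hs0 : 0 ≤ s)
    (hor : ta = t1 ∨ B / 2 * (1 - cos ta) ≤ 1 - cos s)
    (hRi : IntervalIntegrable (fun θ => R θ * wt β (B / 2 * (1 - cos t1)) θ) volume 0 π)
    (hub : ∀ θ, 0 ≤ θ → θ ≤ π → θ ≠ s → R θ ≤ 2 * π - δ)
    (hlb : ∀ θ, 0 ≤ θ → θ ≤ π → θ ≠ s → -(π + δ) ≤ R θ)
    (hlb2 : ∀ θ, 0 ≤ θ → θ < s → π - δ ≤ R θ) :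
    4 * (π * Wf B (B / 2 * (1 - cos t1)) t1 + 2 * π * Wf B (B / 2 * (1 - cos t1)) ta -
      (π + δ) * Wf B (B / 2 * (1 - cos t1)) π) ≤
      ∫ θ in (0 : ℝ)..β, R θ * wt β (B / 2 * (1 - cos t1)) θ := by
  set v := B / 2 * (1 - cos t1) with hv
  have hπ := pi_pos
  have hβt : tht B π = β := by
    unfold tht
    rw [cos_pi, show 1 - B / 2 * (1 - -1) = 1 - B by ring, ← hβ, arccos_cos hβ0 hβπ]
  have m1 : 0 ≤ tht B t1 := tht_nonneg _ _
  have m2 : tht B t1 ≤ tht B ta := tht_mono hB h1 h1a haπ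
  have m3 : tht B ta ≤ β := by
    rw [← hβt]; exact tht_mono hB (h1.trans h1a) haπ le_rfl
  have c1 := cos_tht (t := t1) hB hB2
  have ca := cos_tht (t := ta) hB hB2
  set θ1 := tht B t1 with hθ1
  set θa := tht B ta with hθa
  have hwi : ∀ a b : ℝ, IntervalIntegrable (wt β v) volume a b :=
    fun a b => (wt_continuous β v).intervalIntegrable a b
  have hRsub : ∀ a b : ℝ, 0 ≤ a → a ≤ b → b ≤ π →
      IntervalIntegrable (fun θ => R θ * wt β v θ) volume a b := by
    intro a b ha hab hb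
    apply hRi.mono_set
    rw [Set.uIcc_of_le hab, Set.uIcc_of_le (by linarith)]
    exact Set.Icc_subset_Icc ha hb
  have i1 : ∫ θ in (0 : ℝ)..θ1, wt β v θ = 4 * Wf B v t1 := wt_integral hB hB2 h1 (h1a.trans haπ) hβ
  have i2 : ∫ θ in (0 : ℝ)..θa, wt β v θ = 4 * Wf B v ta := wt_integral hB hB2 (h1.trans h1a) haπ hβ
  have i3 : ∫ θ in (0 : ℝ)..β, wt β v θ = 4 * Wf B v π := by
    have := wt_integral (v := v) hB hB2 hπ.le le_rfl hβ
    rwa [hβt] at this
  have j2 : ∫ θ in θ1..θa, wt β v θ = 4 * Wf B v ta - 4 * Wf B v t1 := by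
    rw [← i1, ← i2, ← intervalIntegral.integral_add_adjacent_intervals (hwi 0 θ1) (hwi θ1 θa)]
    ring
  have j3 : ∫ θ in θa..β, wt β v θ = 4 * Wf B v π - 4 * Wf B v ta := by
    rw [← i2, ← i3, ← intervalIntegral.integral_add_adjacent_intervals (hwi 0 θa) (hwi θa β)]
    ring
  -- sign of the weight
  have sgn_neg : ∀ θ, 0 ≤ θ → θ ≤ θ1 → wt β v θ ≤ 0 := by
    intro θ h0 h1'
    have hc : cos θ1 ≤ cos θ :=
      cos_le_cos_of_nonneg_of_le_pi h0 (tht_le_pi _ _) h1'
    have hc2 : 0 ≤ cos (θ / 2) := by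
      apply cos_nonneg_of_mem_Icc
      have := tht_le_pi B t1
      constructor <;> linarith
    have h3 : 1 - cos θ - v ≤ 0 := by rw [hv]; linarith
    unfold wt
    have h4 := sqrt_nonneg (2 * cos θ - 2 * cos β)
    apply mul_nonpos_of_nonpos_of_nonneg _ h4
    apply mul_nonpos_of_nonneg_of_nonpos _ h3
    positivity
  have sgn_pos : ∀ θ, θ1 ≤ θ → θ ≤ π → 0 ≤ wt β v θ := by
    intro θ h0 h1'
    have hc : cos θ ≤ cos θ1 :=
      cos_le_cos_of_nonneg_of_le_pi (tht_nonneg _ _) h1' h0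
    have hc2 : 0 ≤ cos (θ / 2) := by
      apply cos_nonneg_of_mem_Icc
      constructor <;> linarith
    have h3 : 0 ≤ 1 - cos θ - v := by rw [hv]; linarith
    unfold wt
    have h4 := sqrt_nonneg (2 * cos θ - 2 * cos β)
    positivity
  have hae : ∀ a b : ℝ, ∀ᵐ θ ∂(volume.restrict (Set.Icc a b)), θ ≠ s := by
    intro a b
    apply ae_restrict_of_ae
    have : (volume : Measure ℝ) {s} = 0 := by simp
    exact compl_mem_ae_iff.mpr this
  have k1 : (2 * π - δ) * (4 * Wf B v t1) ≤ ∫ θ in (0 : ℝ)..θ1, R θ * wt β v θ := by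
    rw [← i1, ← intervalIntegral.integral_const_mul]
    apply intervalIntegral.integral_mono_ae_restrict m1
    · exact (hwi 0 θ1).const_mul _
    · exact hRsub 0 θ1 le_rfl m1 (by linarith)
    · filter_upwards [hae 0 θ1, ae_restrict_mem measurableSet_Icc] with θ hne hmem
      have := hub θ hmem.1 (by linarith [hmem.2]) hne
      have h2 := sgn_neg θ hmem.1 hmem.2
      nlinarith
  have k2 : (π - δ) * (4 * Wf B v ta - 4 * Wf B v t1) ≤ ∫ θ in θ1..θa, R θ * wt β v θ := by
    rcases hor with h | h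
    · have : θa = θ1 := by rw [hθa, hθ1, h]
      rw [this, h]; simp
    · have hθas : θa ≤ s := by
        by_contra hcon
        push Not at hcon
        have := cos_lt_cos_of_nonneg_of_le_pi hs0 (tht_le_pi B ta) hcon
        rw [← hθa, ca] at this
        linarith
      rw [← j2, ← intervalIntegral.integral_const_mul]
      apply intervalIntegral.integral_mono_ae_restrict m2
      · exact (hwi θ1 θa).const_mul _
      · exact hRsub θ1 θa m1 m2 (by linarith)
      · filter_upwards [hae θ1 θa, ae_restrict_mem measurableSet_Icc] with θ hne hmem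
        have := hlb2 θ (by linarith [hmem.1]) (lt_of_le_of_ne (hmem.2.trans hθas) hne)
        have h2 := sgn_pos θ hmem.1 (by linarith [hmem.2])
        nlinarith
  have k3 : -(π + δ) * (4 * Wf B v π - 4 * Wf B v ta) ≤ ∫ θ in θa..β, R θ * wt β v θ := by
    rw [← j3, ← intervalIntegral.integral_const_mul]
    apply intervalIntegral.integral_mono_ae_restrict m3
    · exact (hwi θa β).const_mul _
    · exact hRsub θa β (by linarith) m3 hβπ
    · filter_upwards [hae θa β, ae_restrict_mem measurableSet_Icc] with θ hne hmem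
      have := hlb θ (by linarith [hmem.1]) (by linarith [hmem.2]) hne
      have h2 := sgn_pos θ (by linarith [hmem.1]) (by linarith [hmem.2])
      nlinarith
  have hsplit : ∫ θ in (0 : ℝ)..β, R θ * wt β v θ = (∫ θ in (0 : ℝ)..θ1, R θ * wt β v θ) +
      (∫ θ in θ1..θa, R θ * wt β v θ) + ∫ θ in θa..β, R θ * wt β v θ := by
    rw [intervalIntegral.integral_add_adjacent_intervals
      (hRsub 0 θ1 le_rfl m1 (by linarith)) (hRsub θ1 θa m1 m2 (by linarith)),
      intervalIntegral.integral_add_adjacent_intervals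
      (hRsub 0 θa le_rfl (by linarith) (by linarith)) (hRsub θa β (by linarith) m3 hβπ)]
  rw [hsplit]
  calc 4 * (π * Wf B v t1 + 2 * π * Wf B v ta - (π + δ) * Wf B v π)
      = (2 * π - δ) * (4 * Wf B v t1) + (π - δ) * (4 * Wf B v ta - 4 * Wf B v t1) +
        -(π + δ) * (4 * Wf B v π - 4 * Wf B v ta) := by ring
    _ ≤ _ := by linarith

end Pool.Agent.Helper766.G
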