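import Mathlib
import Pool.Agent.Helper766.G.Branch
import Pool.Agent.Helper766.G.Mean
import Pool.Agent.Helper766.G.Weight

set_option autoImplicit false

open Polynomial Complex

namespace Pool.Agent.Helper766.G

open Pool.Agent.Helper766 Pool.Agent.Results.MP_6cc408_an.RealAxisSharp

section

variable {N : ℕ} {p : ℝ[X]} {ρ δ s : ℝ}

lemma aeval_deriv_zero (hb : Bad N p ρ δ s) : aeval (0 : ℂ) (derivative p) = 1 := by
  have := aeval_ofReal' (derivative p) 0
  simp only [Complex.ofReal_zero] at this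
  rw [this, deriv_zero hb.cls.2.2.1]
  simp

lemma aeval_deriv2_zero (p : ℝ[X]) :
    aeval (0 : ℂ) (derivative (derivative p)) = 2 * (p.coeff 2 : ℂ) := by
  have := aeval_ofReal' (derivative (derivative p)) 0
  simp only [Complex.ofReal_zero] at this
  rw [this, ← coeff_zero_eq_eval_zero, coeff_derivative, coeff_derivative]
  push_cast
  ring

lemma LL_hasDerivAt (hb : Bad N p ρ δ s) {z : ℂ} (hz : ‖z‖ < 1) :
    HasDerivAt (LL p ρ δ) (-(aeval z (derivative p) / wpt ρ δ) * exp (-(LL p ρ δ z))) z := by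
  have h1 : HasDerivAt (LL p ρ δ) (deriv (LL p ρ δ) z) z := (LL_diff hb hz).hasDerivAt
  have h2 := h1.cexp
  have hev : (fun z => exp (LL p ρ δ z)) =ᶠ[nhds z] fun z => 1 - aeval z p / wpt ρ δ := by
    have : Metric.ball (0 : ℂ) 1 ∈ nhds z := Metric.isOpen_ball.mem_nhds (by simpa using hz)
    filter_upwards [this] with y hy
    rw [mem_ball_zero_iff] at hy
    apply LL_exp hb hy.le
    intro h
    rw [h, norm_exp_ofReal_mul_I] at hy
    exact lt_irrefl _ hy
  have h3 : HasDerivAt (fun z => 1 - aeval z p / wpt ρ δ)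
      (-(aeval z (derivative p) / wpt ρ δ)) z := by
    have := ((p.hasDerivAt_aeval z).div_const (wpt ρ δ)).const_sub 1
    exact this
  have h4 := h2.unique (h3.congr_of_eventuallyEq hev)
  have h5 : deriv (LL p ρ δ) z = -(aeval z (derivative p) / wpt ρ δ) * exp (-(LL p ρ δ z)) := by
    rw [← h4, exp_neg]
    field_simp
  rwa [h5] at h1

lemma LL_deriv_zero (hb : Bad N p ρ δ s) : deriv (LL p ρ δ) 0 = -(wpt ρ δ)⁻¹ := by
  rw [(LL_hasDerivAt hb (z := 0) (by simp)).deriv, aeval_deriv_zero hb, LL_zero]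
  simp

lemma LL_diffOn (hb : Bad N p ρ δ s) : DifferentiableOn ℂ (LL p ρ δ) (Metric.ball 0 1) := by
  intro z hz
  rw [mem_ball_zero_iff] at hz
  exact (LL_diff hb hz).differentiableWithinAt

lemma LL_coef_two (hb : Bad N p ρ δ s) : deriv (dslope (LL p ρ δ) 0) 0 =
    -(p.coeff 2 : ℂ) * (wpt ρ δ)⁻¹ - (wpt ρ δ)⁻¹ ^ 2 / 2 := by
  rw [deriv_dslope (LL_diffOn hb) LL_zero]
  have hev : deriv (LL p ρ δ) =ᶠ[nhds 0]
      fun z => -(aeval z (derivative p) / wpt ρ δ) * exp (-(LL p ρ δ z)) := by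
    filter_upwards [Metric.ball_mem_nhds (0 : ℂ) one_pos] with z hz
    rw [mem_ball_zero_iff] at hz
    exact (LL_hasDerivAt hb hz).deriv
  rw [hev.deriv_eq]
  have h1 : HasDerivAt (fun z => -(aeval z (derivative p) / wpt ρ δ))
      (-(aeval (0 : ℂ) (derivative (derivative p)) / wpt ρ δ)) 0 :=
    (((derivative p).hasDerivAt_aeval (0 : ℂ)).div_const (wpt ρ δ)).neg
  have h2 : HasDerivAt (fun z => exp (-(LL p ρ δ z)))
      (exp (-(LL p ρ δ 0)) * -(-(aeval (0 : ℂ) (derivative p) / wpt ρ δ) *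
        exp (-(LL p ρ δ 0)))) 0 := (LL_hasDerivAt hb (z := 0) (by simp)).neg.cexp
  have h3 := h1.mul h2
  have h4 : (fun z => -(aeval z (derivative p) / wpt ρ δ) * exp (-(LL p ρ δ z))) =
      (fun z => -(aeval z (derivative p) / wpt ρ δ)) * (fun z => exp (-(LL p ρ δ z))) := rfl
  rw [h4, h3.deriv, LL_zero, aeval_deriv_zero hb, aeval_deriv2_zero]
  simp only [neg_zero, exp_zero, mul_one, one_mul, neg_neg]
  ring

lemma im_l1 (hb : Bad N p ρ δ s) : (-(wpt ρ δ)⁻¹).im = Real.sin δ / ρ := by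
  rw [inv_wpt hb, neg_im, im_ofReal_mul, exp_neg_im]
  ring

lemma im_l2 (hb : Bad N p ρ δ s) :
    (-(p.coeff 2 : ℂ) * (wpt ρ δ)⁻¹ - (wpt ρ δ)⁻¹ ^ 2 / 2).im =
      Real.sin δ / ρ * (p.coeff 2 + Real.cos δ / ρ) := by
  have e1 : ((wpt ρ δ)⁻¹ ^ 2 / 2).im = -(Real.sin δ * Real.cos δ / ρ ^ 2) := by
    rw [inv_wpt hb, mul_pow, ← exp_nat_mul]
    have : ((2 : ℕ) : ℂ) * -((δ : ℂ) * I) = -(((2 * δ : ℝ) : ℂ) * I) := by push_cast; ring
    rw [this]
    have h2 : ((1 / ρ : ℝ) : ℂ) ^ 2 * exp (-(((2 * δ : ℝ) : ℂ) * I)) / 2 =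
        ((1 / ρ ^ 2 / 2 : ℝ) : ℂ) * exp (-(((2 * δ : ℝ) : ℂ) * I)) := by push_cast; ring
    rw [h2, im_ofReal_mul, exp_neg_im, Real.sin_two_mul]
    ring
  have e2 : (-(p.coeff 2 : ℂ) * (wpt ρ δ)⁻¹).im = p.coeff 2 * (Real.sin δ / ρ) := by
    rw [← im_l1 hb, neg_im, ← ofReal_neg, im_ofReal_mul]
    ring
  rw [sub_im, e1, e2]
  ring

lemma re_LL_le (hb : Bad N p ρ δ s) {z : ℂ} (hz : ‖z‖ < 1) (hzi : 0 ≤ z.im) :
    (LL p ρ δ z).re ≤ (LL p ρ δ (starRingEnd ℂ z)).re := by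
  have hne : ∀ y : ℂ, ‖y‖ < 1 → y ≠ exp ((s : ℂ) * I) := by
    intro y hy h
    rw [h, norm_exp_ofReal_mul_I] at hy
    exact lt_irrefl _ hy
  have hz' : ‖starRingEnd ℂ z‖ < 1 := by rwa [norm_conj]
  have e1 := LL_exp hb hz.le (hne z hz)
  have e2 := LL_exp hb hz'.le (hne _ hz')
  have n1 := congrArg norm e1
  have n2 := congrArg norm e2
  rw [norm_exp] at n1 n2
  rw [← Real.exp_le_exp, n1, n2, aeval_conj]
  have hPi : 0 ≤ (aeval z p).im := by
    rcases hzi.eq_or_lt with h | h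
    · rw [aeval_real_im p h.symm]
    · exact (typically_real p (deriv_zero hb.cls.2.2.1) hb.cls.2.2.2 hz h).le
  have hw := wpt_ne hb
  have hdiv : ∀ P : ℂ, ‖1 - P / wpt ρ δ‖ = ‖wpt ρ δ - P‖ / ‖wpt ρ δ‖ := by
    intro P
    rw [← norm_div]
    congr 1
    field_simp
  rw [hdiv, hdiv]
  gcongr
  rw [norm_def, norm_def]
  apply Real.sqrt_le_sqrt
  rw [normSq_apply, normSq_apply, sub_re, sub_re, sub_im, sub_im, conj_re, conj_im]
  have hwi : 0 ≤ (wpt ρ δ).im := by
    unfold wpt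
    rw [im_ofReal_mul, exp_ofReal_mul_I_im]
    exact mul_nonneg hb.rho_pos.le (sin_d_pos hb).le
  nlinarith [mul_nonneg hwi hPi]

/-- the inequality at radius `r < 1` -/
lemma ineq_r (hb : Bad N p ρ δ s) {β v : ℝ} (hβ0 : 0 < β) (hβπ : β ≤ Real.pi)
    (hv : v ≤ 1 - Real.cos β) {r : ℝ} (hr0 : 0 < r) (hr1 : r < 1) :
    (2 * Real.pi)⁻¹ * ∫ θ in (0 : ℝ)..β, RR p ρ δ ((r : ℂ) * exp ((θ : ℂ) * I)) * wt β v θ ≤
      r * (Real.sin δ / ρ) * (1 + Real.cos β - 2 * v) -
        r ^ 2 * (Real.sin δ / ρ * (p.coeff 2 + Real.cos δ / ρ)) := by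
  have hπ := Real.pi_pos
  set g : ℂ → ℂ := fun z => LL p ρ δ (r * z) * kap β v z / z ^ 2 with hg
  have hmap : ∀ z : ℂ, ‖z‖ ≤ 1 → ‖(r : ℂ) * z‖ < 1 := by
    intro z hz
    rw [norm_mul, norm_real, Real.norm_eq_abs, abs_of_pos hr0]
    calc r * ‖z‖ ≤ r * 1 := by gcongr
      _ < 1 := by linarith
  have hgc : ContinuousOn g (Metric.sphere 0 1) := by
    intro z hz
    rw [mem_sphere_zero_iff_norm] at hz
    have hz0 : z ≠ 0 := by
      intro h; rw [h] at hz; simp at hz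
    apply ContinuousWithinAt.div
    · apply ContinuousWithinAt.mul
      · have h1 := (LL_diff hb (hmap z hz.le)).continuousAt
        exact (ContinuousAt.comp (f := fun z : ℂ => (r : ℂ) * z) h1
          (by fun_prop)).continuousWithinAt
      · apply (kap_continuousOn β v z (by rw [mem_closedBall_zero_iff]; exact hz.le)).mono
        exact Metric.sphere_subset_closedBall
    · exact (continuous_pow 2).continuousWithinAt
    · exact pow_ne_zero 2 hz0
  have hmean := mean_formula (LL_diffOn hb) LL_zero (kap_differentiableOn β v)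
    (kap_continuousOn β v) hr0 hr1
  rw [← hg, average_half hgc, kap_zero, (kap_hasDerivAt β v).deriv, LL_coef_two hb,
    LL_deriv_zero hb] at hmean
  have him := congrArg Complex.im hmean
  -- right-hand side
  have hrhs : ((r : ℂ) ^ 2 * (-(p.coeff 2 : ℂ) * (wpt ρ δ)⁻¹ - (wpt ρ δ)⁻¹ ^ 2 / 2) * -1 +
      r * -(wpt ρ δ)⁻¹ * ((1 + Real.cos β - 2 * v : ℝ) : ℂ)).im =
      r * (Real.sin δ / ρ) * (1 + Real.cos β - 2 * v) -
        r ^ 2 * (Real.sin δ / ρ * (p.coeff 2 + Real.cos δ / ρ)) := by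
    rw [← im_l2 hb, ← im_l1 hb]
    have e1 : (r : ℂ) ^ 2 * (-(p.coeff 2 : ℂ) * (wpt ρ δ)⁻¹ - (wpt ρ δ)⁻¹ ^ 2 / 2) * -1 =
        ((-(r ^ 2) : ℝ) : ℂ) * (-(p.coeff 2 : ℂ) * (wpt ρ δ)⁻¹ - (wpt ρ δ)⁻¹ ^ 2 / 2) := by
      push_cast; ring
    have e2 : (r : ℂ) * -(wpt ρ δ)⁻¹ * ((1 + Real.cos β - 2 * v : ℝ) : ℂ) =
        ((r * (1 + Real.cos β - 2 * v) : ℝ) : ℂ) * -(wpt ρ δ)⁻¹ := by
      push_cast; ring
    rw [e1, e2, add_im, im_ofReal_mul, im_ofReal_mul]
    ring
  rw [hrhs] at him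
  rw [← him, real_smul, im_ofReal_mul]
  -- continuity of the integrand
  have hcont : Continuous (fun θ : ℝ => g (exp ((θ : ℂ) * I)) + g (exp (-((θ : ℂ) * I)))) := by
    have h1 : Continuous (fun θ : ℝ => g (exp ((θ : ℂ) * I))) := by
      rw [← continuousOn_univ]
      apply hgc.comp (t := Metric.sphere 0 1) (by fun_prop)
      intro θ _
      rw [mem_sphere_zero_iff_norm, norm_exp_ofReal_mul_I]
    have h2 : Continuous (fun θ : ℝ => g (exp (-((θ : ℂ) * I)))) := by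
      rw [← continuousOn_univ]
      apply hgc.comp (t := Metric.sphere 0 1) (by fun_prop)
      intro θ _
      rw [mem_sphere_zero_iff_norm]
      exact norm_exp_neg θ
    exact h1.add h2
  have hcomm := (imCLM).intervalIntegral_comp_comm (μ := MeasureTheory.volume)
    (hcont.intervalIntegrable 0 Real.pi)
  simp only [imCLM_apply] at hcomm
  rw [← hcomm]
  have hcim : Continuous (fun θ : ℝ => (g (exp ((θ : ℂ) * I)) + g (exp (-((θ : ℂ) * I)))).im) :=
    continuous_im.comp hcont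
  rw [← intervalIntegral.integral_add_adjacent_intervals (b := β)
    (hcim.intervalIntegrable _ _) (hcim.intervalIntegrable _ _)]
  -- values
  have hval1 : ∀ θ : ℝ, g (exp ((θ : ℂ) * I)) = LL p ρ δ (r * exp ((θ : ℂ) * I)) * kk β v θ := by
    intro θ
    rw [hg]
    simp only
    unfold kk
    ring
  have hval2 : ∀ θ : ℝ, g (exp (-((θ : ℂ) * I))) =
      LL p ρ δ (starRingEnd ℂ (r * exp ((θ : ℂ) * I))) * starRingEnd ℂ (kk β v θ) := by
    intro θ
    rw [← kk_neg, map_mul, conj_ofReal, conj_exp, hg]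
    simp only
    ring
  have hI1 : ∫ θ in (0 : ℝ)..β, (g (exp ((θ : ℂ) * I)) + g (exp (-((θ : ℂ) * I)))).im =
      ∫ θ in (0 : ℝ)..β, RR p ρ δ ((r : ℂ) * exp ((θ : ℂ) * I)) * wt β v θ := by
    apply intervalIntegral.integral_congr
    intro θ hθ
    rw [Set.uIcc_of_le hβ0.le] at hθ
    simp only
    rw [hval1, hval2]
    have hk : kk β v θ = ((wt β v θ : ℝ) : ℂ) := by
      rcases hθ.2.eq_or_lt with h | h
      · rw [kk_gt hβ0 h.ge (by linarith)]
        unfold wt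
        rw [h]
        simp
      · rw [kk_lt hβπ hθ.1 h]
        unfold wt
        rfl
    rw [hk, conj_ofReal, add_im, im_mul_ofReal, im_mul_ofReal]
    unfold RR
    ring
  have hI2 : 0 ≤ ∫ θ in β..Real.pi, (g (exp ((θ : ℂ) * I)) + g (exp (-((θ : ℂ) * I)))).im := by
    apply intervalIntegral.integral_nonneg hβπ
    intro θ hθ
    rw [hval1, hval2, kk_gt hβ0 hθ.1 hθ.2]
    set ψ : ℝ := 4 * Real.cos (θ / 2) * (1 - Real.cos θ - v) *
      Real.sqrt (2 * Real.cos β - 2 * Real.cos θ) with hψ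
    have hψ0 : 0 ≤ ψ := by
      have hc2 : 0 ≤ Real.cos (θ / 2) := by
        apply Real.cos_nonneg_of_mem_Icc
        constructor <;> linarith [hθ.1, hθ.2]
      have hc3 : Real.cos θ ≤ Real.cos β :=
        Real.cos_le_cos_of_nonneg_of_le_pi hβ0.le hθ.2 hθ.1
      have h3 : 0 ≤ 1 - Real.cos θ - v := by linarith
      have h4 := Real.sqrt_nonneg (2 * Real.cos β - 2 * Real.cos θ)
      rw [hψ]
      positivity
    have hzn : ‖(r : ℂ) * exp ((θ : ℂ) * I)‖ < 1 := hmap _ (by rw [norm_exp_ofReal_mul_I])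
    have hle := re_LL_le hb hzn (by
      rw [im_ofReal_mul, exp_ofReal_mul_I_im]
      exact mul_nonneg hr0.le (Real.sin_nonneg_of_nonneg_of_le_pi (by linarith [hθ.1]) hθ.2))
    have e : (LL p ρ δ ((r : ℂ) * exp ((θ : ℂ) * I)) * (-I * (ψ : ℂ)) +
        LL p ρ δ (starRingEnd ℂ ((r : ℂ) * exp ((θ : ℂ) * I))) *
          starRingEnd ℂ (-I * (ψ : ℂ))).im =
        ψ * ((LL p ρ δ (starRingEnd ℂ ((r : ℂ) * exp ((θ : ℂ) * I)))).re -
          (LL p ρ δ ((r : ℂ) * exp ((θ : ℂ) * I))).re) := by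
      have ec : starRingEnd ℂ (-I * (ψ : ℂ)) = I * (ψ : ℂ) := by
        rw [map_mul (starRingEnd ℂ) (-I) (ψ : ℂ), map_neg, conj_I, conj_ofReal, neg_neg]
      rw [ec]
      simp only [add_im, mul_im, mul_re, neg_re, neg_im, I_re, I_im, ofReal_re, ofReal_im]
      ring
    rw [e]
    apply mul_nonneg hψ0
    linarith
  rw [hI1]
  apply mul_le_mul_of_nonneg_left _ (by positivity)
  linarith

lemma LS_measurable (S : Multiset ℂ) : Measurable (LS S) := by
  induction S using Multiset.induction_on with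
  | empty =>
    have : LS 0 = fun _ => (0 : ℂ) := by funext z; exact LS_zero z
    rw [this]; exact measurable_const
  | cons a S ih =>
    have : LS (a ::ₘ S) = fun z => Complex.log (1 - z / a) + LS S z := by
      funext z; exact LS_cons a S z
    rw [this]
    apply Measurable.add _ ih
    apply Complex.measurable_log.comp
    exact measurable_const.sub (measurable_id.div_const a)

lemma RR_measurable (p : ℝ[X]) (ρ δ : ℝ) : Measurable (RR p ρ δ) := by
  unfold RR LL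
  apply Measurable.add
  · exact Complex.measurable_im.comp (LS_measurable _)
  · exact Complex.measurable_im.comp ((LS_measurable _).comp continuous_conj.measurable)

lemma RR_bound (p : ℝ[X]) (ρ δ : ℝ) : ∃ C : ℝ, 0 ≤ C ∧ ∀ z, |RR p ρ δ z| ≤ C := by
  refine ⟨2 * (Multiset.card (Rt p (wpt ρ δ)) * Real.pi), by have := Real.pi_pos; positivity, ?_⟩
  intro z
  unfold RR LL
  have h1 := LS_im_bound (Rt p (wpt ρ δ)) z
  have h2 := LS_im_bound (Rt p (wpt ρ δ)) (starRingEnd ℂ z)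
  have h3 := abs_add_le (LS (Rt p (wpt ρ δ)) z).im (LS (Rt p (wpt ρ δ)) (starRingEnd ℂ z)).im
  linarith

lemma RR_wt_integrable (p : ℝ[X]) (ρ δ β v r a b : ℝ) :
    IntervalIntegrable (fun θ : ℝ => RR p ρ δ ((r : ℂ) * exp ((θ : ℂ) * I)) * wt β v θ)
      MeasureTheory.volume a b := by
  obtain ⟨C, hC0, hC⟩ := RR_bound p ρ δ
  have h1 : IntervalIntegrable (fun θ : ℝ => C * |wt β v θ|) MeasureTheory.volume a b :=
    (continuous_const.mul (wt_continuous β v).abs).intervalIntegrable a b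
  apply h1.mono_fun
  · apply Measurable.aestronglyMeasurable
    apply Measurable.mul _ (wt_continuous β v).measurable
    apply (RR_measurable p ρ δ).comp
    apply Continuous.measurable
    fun_prop
  · apply Filter.Eventually.of_forall
    intro θ
    simp only
    rw [Real.norm_eq_abs, Real.norm_eq_abs, abs_mul, abs_mul, abs_abs, abs_of_nonneg hC0]
    gcongr
    exact hC _

/-- the inequality on the unit circle -/
lemma ineq_one (hb : Bad N p ρ δ s) {β v : ℝ} (hβ0 : 0 < β) (hβπ : β ≤ Real.pi)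
    (hv : v ≤ 1 - Real.cos β) :
    (2 * Real.pi)⁻¹ * ∫ θ in (0 : ℝ)..β, RR p ρ δ (exp ((θ : ℂ) * I)) * wt β v θ ≤
      (Real.sin δ / ρ) * (1 + Real.cos β - 2 * v) -
        (Real.sin δ / ρ * (p.coeff 2 + Real.cos δ / ρ)) := by
  have hlim : Filter.Tendsto (fun r : ℝ => (2 * Real.pi)⁻¹ *
      ∫ θ in (0 : ℝ)..β, RR p ρ δ ((r : ℂ) * exp ((θ : ℂ) * I)) * wt β v θ)
      (nhdsWithin 1 (Set.Iio 1)) (nhds ((2 * Real.pi)⁻¹ *
      ∫ θ in (0 : ℝ)..β, RR p ρ δ (exp ((θ : ℂ) * I)) * wt β v θ)) := by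
    apply Filter.Tendsto.const_mul
    obtain ⟨C, hC0, hC⟩ := RR_bound p ρ δ
    apply intervalIntegral.tendsto_integral_filter_of_dominated_convergence
      (fun θ : ℝ => C * |wt β v θ|)
    · apply Filter.Eventually.of_forall
      intro r
      apply Measurable.aestronglyMeasurable
      apply Measurable.mul _ (wt_continuous β v).measurable
      apply (RR_measurable p ρ δ).comp
      apply Continuous.measurable
      fun_prop
    · apply Filter.Eventually.of_forall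
      intro r
      apply Filter.Eventually.of_forall
      intro θ _
      rw [Real.norm_eq_abs, abs_mul]
      gcongr
      exact hC _
    · exact (continuous_const.mul (wt_continuous β v).abs).intervalIntegrable 0 β
    · have hae : ∀ᵐ θ ∂(MeasureTheory.volume : MeasureTheory.Measure ℝ), θ ≠ s := by
        have : (MeasureTheory.volume : MeasureTheory.Measure ℝ) {s} = 0 := by simp
        exact MeasureTheory.compl_mem_ae_iff.mpr this
      filter_upwards [hae] with θ hne hmem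
      rw [Set.uIoc_of_le hβ0.le] at hmem
      apply Filter.Tendsto.mul_const
      have hc := RR_cont hb (θ := θ) hmem.1.le (by linarith [hmem.2]) hne
      have ht : Filter.Tendsto (fun r : ℝ => (r : ℂ) * exp ((θ : ℂ) * I)) (nhdsWithin 1 (Set.Iio 1))
          (nhds (exp ((θ : ℂ) * I))) := by
        have h1 : Continuous (fun r : ℝ => (r : ℂ) * exp ((θ : ℂ) * I)) := by fun_prop
        have h2 := (h1.tendsto 1).mono_left (nhdsWithin_le_nhds (s := Set.Iio 1))
        simpa using h2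
      exact hc.tendsto.comp ht
  have hrhs : Filter.Tendsto (fun r : ℝ => r * (Real.sin δ / ρ) * (1 + Real.cos β - 2 * v) -
        r ^ 2 * (Real.sin δ / ρ * (p.coeff 2 + Real.cos δ / ρ))) (nhdsWithin 1 (Set.Iio 1))
      (nhds ((Real.sin δ / ρ) * (1 + Real.cos β - 2 * v) -
        (Real.sin δ / ρ * (p.coeff 2 + Real.cos δ / ρ)))) := by
    have h1 : Continuous (fun r : ℝ => r * (Real.sin δ / ρ) * (1 + Real.cos β - 2 * v) -
        r ^ 2 * (Real.sin δ / ρ * (p.coeff 2 + Real.cos δ / ρ))) := by fun_prop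
    have h2 := (h1.tendsto 1).mono_left (nhdsWithin_le_nhds (s := Set.Iio 1))
    simpa using h2
  apply le_of_tendsto_of_tendsto hlim hrhs
  have h6 : Set.Ioo (0 : ℝ) 1 ∈ nhdsWithin (1 : ℝ) (Set.Iio 1) := Ioo_mem_nhdsLT one_pos
  filter_upwards [h6] with r hr
  exact ineq_r hb hβ0 hβπ hv hr.1 hr.2

/-- **The G-side inequality.** -/
theorem gside (hb : Bad N p ρ δ s) {B t1 ta : ℝ} (hB : 0 < B) (hB2 : B ≤ 2) (h1 : 0 ≤ t1)
    (h1a : t1 ≤ ta) (haπ : ta ≤ Real.pi)
    (hor : ta = t1 ∨ B / 2 * (1 - Real.cos ta) ≤ 1 - Real.cos s) :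
    B / 2 + B / 2 * (1 - Real.cos t1) + ρ / Real.sin δ *
      (Wf B (B / 2 * (1 - Real.cos t1)) t1 + 2 * Wf B (B / 2 * (1 - Real.cos t1)) ta -
        (1 + δ / Real.pi) * Wf B (B / 2 * (1 - Real.cos t1)) Real.pi) ≤
      (2 - p.coeff 2 - Real.cos δ / ρ) / 2 := by
  have hπ := Real.pi_pos
  set v := B / 2 * (1 - Real.cos t1) with hv
  set β := Real.arccos (1 - B) with hβdef
  have hβ : Real.cos β = 1 - B := Real.cos_arccos (by linarith) (by linarith)
  have hβ0 : 0 < β := Real.arccos_pos.mpr (by linarith)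
  have hβπ : β ≤ Real.pi := Real.arccos_le_pi _
  have hvle : v ≤ 1 - Real.cos β := by
    rw [hβ, hv]
    have := Real.neg_one_le_cos t1
    nlinarith
  have h2 := ineq_one hb hβ0 hβπ hvle
  have hRi := RR_wt_integrable p ρ δ β v 1 0 Real.pi
  have e1 : (fun θ : ℝ => RR p ρ δ (((1 : ℝ) : ℂ) * exp ((θ : ℂ) * I)) * wt β v θ) =
      fun θ : ℝ => RR p ρ δ (exp ((θ : ℂ) * I)) * wt β v θ := by
    funext θ; simp
  rw [e1] at hRi
  have hsπ := hb.s_lt
  have hδ0 := hb.d_pos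
  have hlow := weighted_lower (s := s) (δ := δ) (R := fun θ => RR p ρ δ (exp ((θ : ℂ) * I)))
    hB hB2 hβπ hβ0.le hβ h1 h1a haπ hb.s_pos.le hor hRi
    (by
      intro θ h0 hπ' hne
      rcases lt_or_gt_of_ne hne with h | h
      · exact (RR_right hb h0 h).2
      · have := (RR_left hb h hπ').2
        linarith)
    (by
      intro θ h0 hπ' hne
      rcases lt_or_gt_of_ne hne with h | h
      · have := (RR_right hb h0 h).1
        linarith
      · exact (RR_left hb h hπ').1)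
    (by
      intro θ h0 h
      exact (RR_right hb h0 h).1)
  rw [← hv] at hlow
  have h3 : (2 * Real.pi)⁻¹ * (4 * (Real.pi * Wf B v t1 + 2 * Real.pi * Wf B v ta -
      (Real.pi + δ) * Wf B v Real.pi)) ≤ (Real.sin δ / ρ) * (1 + Real.cos β - 2 * v) -
        (Real.sin δ / ρ * (p.coeff 2 + Real.cos δ / ρ)) :=
    (mul_le_mul_of_nonneg_left hlow (by positivity)).trans h2
  rw [hβ] at h3
  have hρ := hb.rho_pos
  have hsd := sin_d_pos hb
  have h4 : (2 * Real.pi)⁻¹ * (4 * (Real.pi * Wf B v t1 + 2 * Real.pi * Wf B v ta -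
      (Real.pi + δ) * Wf B v Real.pi)) =
      2 * (Wf B v t1 + 2 * Wf B v ta - (1 + δ / Real.pi) * Wf B v Real.pi) := by
    field_simp
    ring
  rw [h4] at h3
  have h5 : ρ / Real.sin δ * (Wf B v t1 + 2 * Wf B v ta - (1 + δ / Real.pi) * Wf B v Real.pi) ≤
      ρ / Real.sin δ * (((Real.sin δ / ρ) * (1 + (1 - B) - 2 * v) -
        (Real.sin δ / ρ * (p.coeff 2 + Real.cos δ / ρ))) / 2) := by
    apply mul_le_mul_of_nonneg_left _ (by positivity)
    linarith
  have h6 : ρ / Real.sin δ * (((Real.sin δ / ρ) * (1 + (1 - B) - 2 * v) -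
        (Real.sin δ / ρ * (p.coeff 2 + Real.cos δ / ρ))) / 2) =
      (2 - B - 2 * v - p.coeff 2 - Real.cos δ / ρ) / 2 := by
    field_simp
    ring
  rw [h6] at h5
  linarith

end

end Pool.Agent.Helper766.G
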