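import Mathlib
import Pool.Agent.Helper766.G.Gside

set_option autoImplicit false

open Polynomial

namespace Pool.Agent.Helper766.G

variable {N : ℕ} {p : ℝ[X]} {ρ δ s : ℝ}

/-- (G2): if `a ≤ 1 - cos s` and `a ≤ 1` -/
theorem gside_two (hb : Bad N p ρ δ s) {a : ℝ} (ha : 0 < a) (ha1 : a ≤ 1)
    (has : a ≤ 1 - Real.cos s) :
    a - δ * ρ / (2 * Real.sin δ) * a ^ 2 ≤ (2 - p.coeff 2 - Real.cos δ / ρ) / 2 := by
  have hπ := Real.pi_pos
  have h := gside hb (B := 2 * a) (t1 := 0) (ta := Real.pi / 2) (by linarith) (by linarith) le_rfl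
    (by linarith) (by linarith) (Or.inr (by rw [Real.cos_pi_div_two]; linarith))
  have hsd := sin_d_pos hb
  rw [Real.cos_zero] at h
  have e0 : 2 * a / 2 * (1 - 1) = 0 := by ring
  rw [e0] at h
  have w0 : Wf (2 * a) 0 0 = 0 := by unfold Wf; simp
  have w1 : Wf (2 * a) 0 (Real.pi / 2) = Real.pi * a ^ 2 / 4 := by
    unfold Wf
    rw [show 2 * (Real.pi / 2) = Real.pi by ring, Real.sin_pi]
    ring
  have w2 : Wf (2 * a) 0 Real.pi = Real.pi * a ^ 2 / 2 := by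
    unfold Wf
    rw [Real.sin_two_pi]
    ring
  rw [w0, w1, w2] at h
  have e1 : 2 * a / 2 + 0 + ρ / Real.sin δ * (0 + 2 * (Real.pi * a ^ 2 / 4) -
      (1 + δ / Real.pi) * (Real.pi * a ^ 2 / 2)) = a - δ * ρ / (2 * Real.sin δ) * a ^ 2 := by
    field_simp
    ring
  rw [e1] at h
  exact h

lemma wf_third (B : ℝ) : Wf B (B / 4) (Real.pi / 3) = -(3 * Real.sqrt 3 / 32) * B ^ 2 := by
  unfold Wf
  have h1 : Real.sin (2 * (Real.pi / 3)) = Real.sqrt 3 / 2 := by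
    rw [Real.sin_two_mul, Real.sin_pi_div_three, Real.cos_pi_div_three]
    ring
  rw [h1, Real.sin_pi_div_three]
  ring

/-- (G1), before optimising in `B` -/
theorem gside_one' (hb : Bad N p ρ δ s) {B : ℝ} (hB : 0 < B) (hB2 : B ≤ 2) :
    3 / 4 * B - 9 * Real.sqrt 3 / 32 * (ρ / Real.sin δ) * B ^ 2 ≤
      (2 - p.coeff 2 - Real.cos δ / ρ) / 2 := by
  have hπ := Real.pi_pos
  have h := gside hb (B := B) (t1 := Real.pi / 3) (ta := Real.pi / 3) hB hB2 (by positivity)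
    le_rfl (by linarith) (Or.inl rfl)
  rw [Real.cos_pi_div_three, show B / 2 * (1 - 1 / 2) = B / 4 by ring, wf_third] at h
  have w2 : Wf B (B / 4) Real.pi = 0 := by
    unfold Wf
    rw [Real.sin_two_pi, Real.sin_pi]
    ring
  rw [w2] at h
  have e1 : B / 2 + B / 4 + ρ / Real.sin δ * (-(3 * Real.sqrt 3 / 32) * B ^ 2 +
      2 * (-(3 * Real.sqrt 3 / 32) * B ^ 2) - (1 + δ / Real.pi) * 0) =
      3 / 4 * B - 9 * Real.sqrt 3 / 32 * (ρ / Real.sin δ) * B ^ 2 := by ring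
  rw [e1] at h
  exact h

/-- (G1): `(2 - b₂) ρ ≥ cos δ + sin δ / √3` -/
theorem gside_one (hb : Bad N p ρ δ s) (hbig : 2 * Real.sin δ ≤ 3 * Real.sqrt 3 * ρ) :
    Real.cos δ + Real.sin δ / Real.sqrt 3 ≤ (2 - p.coeff 2) * ρ := by
  have hsd := sin_d_pos hb
  have h3 : 0 < Real.sqrt 3 := Real.sqrt_pos.mpr (by norm_num)
  have h3s : Real.sqrt 3 ^ 2 = 3 := Real.sq_sqrt (by norm_num)
  have hρ0 := hb.rho_pos
  have h := gside_one' hb (B := 4 * Real.sin δ / (3 * Real.sqrt 3 * ρ)) (by positivity) (by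
    rw [div_le_iff₀ (by positivity)]
    nlinarith)
  have e : 3 / 4 * (4 * Real.sin δ / (3 * Real.sqrt 3 * ρ)) - 9 * Real.sqrt 3 / 32 *
      (ρ / Real.sin δ) * (4 * Real.sin δ / (3 * Real.sqrt 3 * ρ)) ^ 2 =
      Real.sin δ / (2 * Real.sqrt 3 * ρ) := by
    field_simp
    ring
  rw [e] at h
  have h2 : (2 - p.coeff 2 - Real.cos δ / ρ) / 2 * (2 * ρ) = (2 - p.coeff 2) * ρ - Real.cos δ := by
    field_simp
  have h4 : Real.sin δ / (2 * Real.sqrt 3 * ρ) * (2 * ρ) = Real.sin δ / Real.sqrt 3 := by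
    field_simp
  have h5 := mul_le_mul_of_nonneg_right h (by positivity : (0 : ℝ) ≤ 2 * ρ)
  rw [h2, h4] at h5
  linarith

end Pool.Agent.Helper766.G
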