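import Mathlib

set_option autoImplicit false

namespace Pool.Agent.Helper766.G

lemma nonneg_of_deriv {f f' : ℝ → ℝ} (hd : ∀ x, HasDerivAt f (f' x) x)
    (h : ∀ x, 0 ≤ x → 0 ≤ f' x) (h0 : f 0 = 0) {x : ℝ} (hx : 0 ≤ x) : 0 ≤ f x := by
  have hm : MonotoneOn f (Set.Ici 0) := by
    apply monotoneOn_of_deriv_nonneg (convex_Ici 0)
    · exact (continuous_iff_continuousAt.mpr fun x => (hd x).continuousAt).continuousOn
    · intro x _
      exact (hd x).differentiableAt.differentiableWithinAt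
    · intro x hx
      rw [interior_Ici] at hx
      rw [(hd x).deriv]
      exact h x (le_of_lt hx)
  have := hm (Set.self_mem_Ici) hx hx
  rw [h0] at this
  exact this

lemma sin_step {c s : ℝ → ℝ} (hs : ∀ x, HasDerivAt s (c x) x) (h : ∀ x, 0 ≤ x → Real.cos x ≤ c x)
    (h0 : s 0 = 0) : ∀ x, 0 ≤ x → Real.sin x ≤ s x := by
  intro x hx
  have := nonneg_of_deriv (f := fun x => s x - Real.sin x) (f' := fun x => c x - Real.cos x)
    (fun x => (hs x).sub (Real.hasDerivAt_sin x)) (fun x hx => by simpa using h x hx)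
    (by simp [h0]) hx
  linarith

lemma sin_step' {c s : ℝ → ℝ} (hs : ∀ x, HasDerivAt s (c x) x) (h : ∀ x, 0 ≤ x → c x ≤ Real.cos x)
    (h0 : s 0 = 0) : ∀ x, 0 ≤ x → s x ≤ Real.sin x := by
  intro x hx
  have := nonneg_of_deriv (f := fun x => Real.sin x - s x) (f' := fun x => Real.cos x - c x)
    (fun x => (Real.hasDerivAt_sin x).sub (hs x)) (fun x hx => by simpa using h x hx)
    (by simp [h0]) hx
  linarith

lemma cos_step {c s : ℝ → ℝ} (hc : ∀ x, HasDerivAt c (-(s x)) x)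
    (h : ∀ x, 0 ≤ x → Real.sin x ≤ s x) (h0 : c 0 = 1) : ∀ x, 0 ≤ x → c x ≤ Real.cos x := by
  intro x hx
  have := nonneg_of_deriv (f := fun x => Real.cos x - c x) (f' := fun x => -Real.sin x - -(s x))
    (fun x => (Real.hasDerivAt_cos x).sub (hc x)) (fun x hx => by have := h x hx; linarith)
    (by simp [h0]) hx
  linarith

lemma cos_step' {c s : ℝ → ℝ} (hc : ∀ x, HasDerivAt c (-(s x)) x)
    (h : ∀ x, 0 ≤ x → s x ≤ Real.sin x) (h0 : c 0 = 1) : ∀ x, 0 ≤ x → Real.cos x ≤ c x := by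
  intro x hx
  have := nonneg_of_deriv (f := fun x => c x - Real.cos x) (f' := fun x => -(s x) - -Real.sin x)
    (fun x => (hc x).sub (Real.hasDerivAt_cos x)) (fun x hx => by have := h x hx; linarith)
    (by simp [h0]) hx
  linarith

/-- Taylor polynomials -/
noncomputable def S3 (x : ℝ) : ℝ := x - x ^ 3 / 6
noncomputable def C4 (x : ℝ) : ℝ := 1 - x ^ 2 / 2 + x ^ 4 / 24
noncomputable def S5 (x : ℝ) : ℝ := S3 x + x ^ 5 / 120
noncomputable def C6 (x : ℝ) : ℝ := C4 x - x ^ 6 / 720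
noncomputable def S7 (x : ℝ) : ℝ := S5 x - x ^ 7 / 5040
noncomputable def C8 (x : ℝ) : ℝ := C6 x + x ^ 8 / 40320
noncomputable def S9 (x : ℝ) : ℝ := S7 x + x ^ 9 / 362880
noncomputable def C10 (x : ℝ) : ℝ := C8 x - x ^ 10 / 3628800
noncomputable def S11 (x : ℝ) : ℝ := S9 x - x ^ 11 / 39916800
noncomputable def C12 (x : ℝ) : ℝ := C10 x + x ^ 12 / 479001600
noncomputable def S13 (x : ℝ) : ℝ := S11 x + x ^ 13 / 6227020800

lemma hpow (n : ℕ) (k x : ℝ) : HasDerivAt (fun x : ℝ => x ^ (n + 1) / k) ((n + 1) * x ^ n / k) x := by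
  have := (hasDerivAt_pow (n + 1) x).div_const k
  simpa using this

lemma dC2 (x : ℝ) : HasDerivAt (fun x : ℝ => 1 - x ^ 2 / 2) (-x) x := by
  have := (hpow 1 2 x).const_sub 1
  refine this.congr_deriv ?_
  norm_num

lemma dS3 (x : ℝ) : HasDerivAt S3 (1 - x ^ 2 / 2) x := by
  have := (hasDerivAt_id x).sub (hpow 2 6 x)
  refine this.congr_deriv ?_
  norm_num; ring

lemma dC4 (x : ℝ) : HasDerivAt C4 (-(S3 x)) x := by
  have := (dC2 x).add (hpow 3 24 x)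
  refine this.congr_deriv ?_
  unfold S3; norm_num; ring

lemma dS5 (x : ℝ) : HasDerivAt S5 (C4 x) x := by
  have := (dS3 x).add (hpow 4 120 x)
  refine this.congr_deriv ?_
  unfold C4; norm_num; ring

lemma dC6 (x : ℝ) : HasDerivAt C6 (-(S5 x)) x := by
  have := (dC4 x).sub (hpow 5 720 x)
  refine this.congr_deriv ?_
  unfold S5; norm_num; ring

lemma dS7 (x : ℝ) : HasDerivAt S7 (C6 x) x := by
  have := (dS5 x).sub (hpow 6 5040 x)
  refine this.congr_deriv ?_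
  unfold C6; norm_num; ring

lemma dC8 (x : ℝ) : HasDerivAt C8 (-(S7 x)) x := by
  have := (dC6 x).add (hpow 7 40320 x)
  refine this.congr_deriv ?_
  unfold S7; norm_num; ring

lemma dS9 (x : ℝ) : HasDerivAt S9 (C8 x) x := by
  have := (dS7 x).add (hpow 8 362880 x)
  refine this.congr_deriv ?_
  unfold C8; norm_num; ring

lemma dC10 (x : ℝ) : HasDerivAt C10 (-(S9 x)) x := by
  have := (dC8 x).sub (hpow 9 3628800 x)
  refine this.congr_deriv ?_
  unfold S9; norm_num; ring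

lemma dS11 (x : ℝ) : HasDerivAt S11 (C10 x) x := by
  have := (dS9 x).sub (hpow 10 39916800 x)
  refine this.congr_deriv ?_
  unfold C10; norm_num; ring

lemma dC12 (x : ℝ) : HasDerivAt C12 (-(S11 x)) x := by
  have := (dC10 x).add (hpow 11 479001600 x)
  refine this.congr_deriv ?_
  unfold S11; norm_num; ring

lemma dS13 (x : ℝ) : HasDerivAt S13 (C12 x) x := by
  have := (dS11 x).add (hpow 12 6227020800 x)
  refine this.congr_deriv ?_
  unfold C12; norm_num; ring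

lemma cos_ge_C2 : ∀ x : ℝ, 0 ≤ x → 1 - x ^ 2 / 2 ≤ Real.cos x :=
  cos_step dC2 (fun _ hx => Real.sin_le hx) (by norm_num)
lemma sin_ge_S3 : ∀ x : ℝ, 0 ≤ x → S3 x ≤ Real.sin x := sin_step' dS3 cos_ge_C2 (by norm_num [S3])
lemma cos_le_C4 : ∀ x : ℝ, 0 ≤ x → Real.cos x ≤ C4 x := cos_step' dC4 sin_ge_S3 (by norm_num [C4])
lemma sin_le_S5 : ∀ x : ℝ, 0 ≤ x → Real.sin x ≤ S5 x :=
  sin_step dS5 cos_le_C4 (by norm_num [S5, S3])
lemma cos_ge_C6 : ∀ x : ℝ, 0 ≤ x → C6 x ≤ Real.cos x :=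
  cos_step dC6 sin_le_S5 (by norm_num [C6, C4])
lemma sin_ge_S7 : ∀ x : ℝ, 0 ≤ x → S7 x ≤ Real.sin x :=
  sin_step' dS7 cos_ge_C6 (by norm_num [S7, S5, S3])
lemma cos_le_C8 : ∀ x : ℝ, 0 ≤ x → Real.cos x ≤ C8 x :=
  cos_step' dC8 sin_ge_S7 (by norm_num [C8, C6, C4])
lemma sin_le_S9 : ∀ x : ℝ, 0 ≤ x → Real.sin x ≤ S9 x :=
  sin_step dS9 cos_le_C8 (by norm_num [S9, S7, S5, S3])
lemma cos_ge_C10 : ∀ x : ℝ, 0 ≤ x → C10 x ≤ Real.cos x :=
  cos_step dC10 sin_le_S9 (by norm_num [C10, C8, C6, C4])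
lemma sin_ge_S11 : ∀ x : ℝ, 0 ≤ x → S11 x ≤ Real.sin x :=
  sin_step' dS11 cos_ge_C10 (by norm_num [S11, S9, S7, S5, S3])
lemma cos_le_C12 : ∀ x : ℝ, 0 ≤ x → Real.cos x ≤ C12 x :=
  cos_step' dC12 sin_ge_S11 (by norm_num [C12, C10, C8, C6, C4])
lemma sin_le_S13 : ∀ x : ℝ, 0 ≤ x → Real.sin x ≤ S13 x :=
  sin_step dS13 cos_le_C12 (by norm_num [S13, S11, S9, S7, S5, S3])

end Pool.Agent.Helper766.G
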