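import Mathlib
import Pool.Agent.Helper809.Koe.SLow
import Pool.Agent.Helper766.G.SFive

set_option autoImplicit false

open Polynomial Finset

namespace Pool.Agent.Helper766.G

open Pool.Agent.Helper766 Pool.Agent.Helper809.Koe Pool.Agent.Results.MP_6cc408_an.RealAxisSharp

lemma cos_two_pi_seven : 623489 / 1000000 ≤ Real.cos (2 * Real.pi / 7) := by
  have hπ := Real.pi_pos
  set c := Real.cos (2 * Real.pi / 7) with hc
  have h1 : 1 / 2 < c := by
    rw [hc, ← Real.cos_pi_div_three]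
    apply Real.cos_lt_cos_of_nonneg_of_le_pi (by positivity) (by linarith)
    linarith
  have h2 : c < 1 := by
    rw [hc, ← Real.cos_zero]
    apply Real.cos_lt_cos_of_nonneg_of_le_pi le_rfl (by linarith) (by positivity)
  have h3 : Real.cos (3 * (2 * Real.pi / 7)) = 4 * c ^ 3 - 3 * c := Real.cos_three_mul _
  have h4 : Real.cos (2 * (2 * (2 * Real.pi / 7))) = 2 * (2 * c ^ 2 - 1) ^ 2 - 1 := by
    rw [Real.cos_two_mul, Real.cos_two_mul]
  have h5 : Real.cos (2 * (2 * (2 * Real.pi / 7))) = Real.cos (3 * (2 * Real.pi / 7)) := by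
    rw [show 2 * (2 * (2 * Real.pi / 7)) = 2 * Real.pi - 3 * (2 * Real.pi / 7) by ring,
      Real.cos_two_pi_sub]
  rw [h3, h4] at h5
  have h6 : (c - 1) * (8 * c ^ 3 + 4 * c ^ 2 - 4 * c - 1) = 0 := by linear_combination h5
  have h7 : 8 * c ^ 3 + 4 * c ^ 2 - 4 * c - 1 = 0 := by
    rcases mul_eq_zero.mp h6 with h | h
    · linarith
    · exact h
  by_contra hcon
  push Not at hcon
  have h8 : 0 < (c - 1 / 2) := by linarith
  have h9 : 0 < 623489 / 1000000 - c := by linarith
  nlinarith [mul_pos h8 h9, mul_pos (mul_pos h8 h9) h8, mul_pos (mul_pos h8 h9) h9]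

/-- `2 ρ κ₀ < 1` -/
lemma rho_five {p : ℝ[X]} {ρ δ s : ℝ} (hb : Bad 5 p ρ δ s) : ρ * (2 * (1623489 / 1000000)) < 1 := by
  have h := bad_rho (by norm_num) hb
  have h2 := cos_two_pi_seven
  have e : 2 * Real.pi / (((5 : ℕ) : ℝ) + 2) = 2 * Real.pi / 7 := by norm_num
  rw [e] at h
  have := hb.rho_pos
  nlinarith

/-- the `P` side on a window -/
lemma pwin {p : ℝ[X]} {ρ δ s : ℝ} (hb : Bad 5 p ρ δ s) {c al T t : ℝ} (hc1 : 1 / 2 < c) (hc2 : c < 1)
    (hsign : 0 ≤ 8 * c ^ 3 - 4 * c - al * (4 * c ^ 2 - 1))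
    (hx : 1 / 2 < Real.cos s) (ht0 : 0 < t) (htT : t ≤ T)
    (htc : Real.cos δ * (1 + t ^ 2) = 1 - t ^ 2) (hts : Real.sin δ * (1 + t ^ 2) = 2 * t)
    (hA : 0 < 8 * Real.cos s ^ 3 - 4 * Real.cos s + al * (4 * Real.cos s ^ 2 - 1))
    (hR : (1623489 / 1000000 + Real.cos s + c) * T ^ 2 ≤ 1623489 / 1000000 - Real.cos s - c)
    (hPsi : 0 < Real.sin s * (8 * Real.cos s ^ 3 - 4 * Real.cos s + al * (4 * Real.cos s ^ 2 - 1)) *
      ((1623489 / 1000000 - Real.cos s - c) + (1623489 / 1000000 + Real.cos s + c) * T ^ 2) -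
      2 * (Real.cos s + c) * (-(8 * Real.cos s ^ 4 - 8 * Real.cos s ^ 2 + 1) -
        al * (4 * Real.cos s ^ 3 - 3 * Real.cos s)) * T) : False := by
  have hπ := Real.pi_pos
  have hsin : 0 < Real.sin s := Real.sin_pos_of_pos_of_lt_pi hb.s_pos hb.s_lt
  set x := Real.cos s with hxd
  set y := Real.sin s with hyd
  set θ := Real.arccos c with hθd
  have hcθ : Real.cos θ = c := Real.cos_arccos (by linarith) hc2.le
  have hθ0 : 0 < θ := Real.arccos_pos.mpr hc2
  have hθ3 : θ < Real.pi / 3 := by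
    have h1 : θ ≤ Real.pi := Real.arccos_le_pi c
    by_contra hcon
    push Not at hcon
    have := Real.cos_le_cos_of_nonneg_of_le_pi (by positivity) h1 hcon
    rw [hcθ, Real.cos_pi_div_three] at this
    linarith
  have hs3 : s < Real.pi / 3 := by
    by_contra hcon
    push Not at hcon
    have := Real.cos_le_cos_of_nonneg_of_le_pi (by positivity) hb.s_lt.le hcon
    rw [← hxd, Real.cos_pi_div_three] at this
    linarith
  have hsinθ : 0 < Real.sin θ := Real.sin_pos_of_pos_of_lt_pi hθ0 (by linarith)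
  have e4 : ∀ w : ℝ, Real.sin (4 * w) = Real.sin w * (8 * Real.cos w ^ 3 - 4 * Real.cos w) := by
    intro w
    rw [show 4 * w = 2 * (2 * w) by ring, Real.sin_two_mul, Real.cos_two_mul, Real.sin_two_mul]
    ring
  have e3 : ∀ w : ℝ, Real.sin (3 * w) = Real.sin w * (4 * Real.cos w ^ 2 - 1) := by
    intro w
    rw [Real.sin_three_mul]
    have := Real.sin_sq_add_cos_sq w
    linear_combination (-4 * Real.sin w) * this
  have c4 : ∀ w : ℝ, Real.cos (4 * w) = 8 * Real.cos w ^ 4 - 8 * Real.cos w ^ 2 + 1 := by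
    intro w
    rw [show 4 * w = 2 * (2 * w) by ring, Real.cos_two_mul, Real.cos_two_mul]
    ring
  have c3 : ∀ w : ℝ, Real.cos (3 * w) = 4 * Real.cos w ^ 3 - 3 * Real.cos w :=
    fun w => Real.cos_three_mul w
  have key := pside hb (m := 3) (by norm_num) (α := al) (Or.inr (by norm_num)) (by norm_num)
    (θ := θ) (by push_cast; exact hs3) hθ0 (by push_cast; exact hθ3)
    (by
      push_cast
      rw [show (3 : ℝ) + 1 = 4 by norm_num, e4, e3, ← hxd, ← hyd]
      have : y * (8 * x ^ 3 - 4 * x) + al * (y * (4 * x ^ 2 - 1)) =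
        y * (8 * x ^ 3 - 4 * x + al * (4 * x ^ 2 - 1)) := by ring
      rw [this]
      positivity)
    (by
      push_cast
      rw [show (3 : ℝ) + 1 = 4 by norm_num, e4, e3, hcθ]
      have : Real.sin θ * (8 * c ^ 3 - 4 * c) - al * (Real.sin θ * (4 * c ^ 2 - 1)) =
        Real.sin θ * (8 * c ^ 3 - 4 * c - al * (4 * c ^ 2 - 1)) := by ring
      rw [this]
      positivity)
  push_cast at key
  rw [show (3 : ℝ) + 1 = 4 by norm_num, Real.sin_sub, Real.sin_sub, e4, e3, c4, c3, hcθ,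
    ← hxd, ← hyd] at key
  set A := y * (8 * x ^ 3 - 4 * x + al * (4 * x ^ 2 - 1)) with hAd
  set ct := -(8 * x ^ 4 - 8 * x ^ 2 + 1) - al * (4 * x ^ 3 - 3 * x) with hct
  have hApos : 0 < A := mul_pos hsin hA
  have key2 : A ≤ 2 * (x + c) * ρ * (A * Real.cos δ + ct * Real.sin δ) := by
    calc A = y * (8 * x ^ 3 - 4 * x) + al * (y * (4 * x ^ 2 - 1)) := by rw [hAd]; ring
      _ ≤ _ := key
      _ = _ := by rw [hAd, hct]; ring
  have hT : 0 < T := by linarith
  set K : ℝ := 1623489 / 1000000 with hK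
  have hK0 : (0 : ℝ) < K := by rw [hK]; norm_num
  -- f(t) ≥ 0
  have hf : 0 ≤ A * (K + x + c) * t ^ 2 - 2 * (x + c) * ct * t + A * (K - x - c) := by
    have hu0 : 0 ≤ t / T := by positivity
    have hu1 : t / T ≤ 1 := by rw [div_le_one hT]; exact htT
    have h1 : 0 ≤ A * (K - x - c) - A * (K + x + c) * t * T := by
      have h2 : (K + x + c) * (t * T) ≤ (K + x + c) * T ^ 2 := by
        apply mul_le_mul_of_nonneg_left _ (by linarith)
        nlinarith
      have h3 : 0 ≤ A * ((K - x - c) - (K + x + c) * (t * T)) :=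
        mul_nonneg hApos.le (by linarith)
      linarith
    have h2 : A * (K + x + c) * t ^ 2 - 2 * (x + c) * ct * t + A * (K - x - c) =
        (t / T) * (A * ((K - x - c) + (K + x + c) * T ^ 2) - 2 * (x + c) * ct * T) +
        (1 - t / T) * (A * (K - x - c) - A * (K + x + c) * t * T) := by
      field_simp
      ring
    rw [h2]
    have h3 : 0 ≤ 1 - t / T := by linarith
    have h4 := mul_nonneg hu0 hPsi.le
    have h5 := mul_nonneg h3 h1
    linarith
  have ht2 : 0 < 1 + t ^ 2 := by positivity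
  have h6 : (x + c) * (A * Real.cos δ + ct * Real.sin δ) ≤ K * A := by
    have h7 : (x + c) * (A * Real.cos δ + ct * Real.sin δ) * (1 + t ^ 2) ≤ K * A * (1 + t ^ 2) := by
      have h8 : (x + c) * (A * Real.cos δ + ct * Real.sin δ) * (1 + t ^ 2) =
          (x + c) * (A * (1 - t ^ 2) + ct * (2 * t)) := by
        rw [← htc, ← hts]; ring
      rw [h8]
      nlinarith
    exact le_of_mul_le_mul_right h7 ht2
  have hρ := rho_five hb
  have hρ0 := hb.rho_pos
  rw [← hK] at hρ
  have h7 : 2 * (x + c) * ρ * (A * Real.cos δ + ct * Real.sin δ) ≤ 2 * ρ * (K * A) := by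
    have := mul_le_mul_of_nonneg_left h6 (by positivity : 0 ≤ 2 * ρ)
    linarith
  have h8 : 2 * ρ * (K * A) < A := by
    have := mul_lt_mul_of_pos_right hρ hApos
    linarith
  linarith

end Pool.Agent.Helper766.G
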