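import Mathlib

set_option autoImplicit false

namespace Pool.Agent.Helper766.G

lemma psi1 {x y : ℝ} (hx1 : (909 / 1000) ≤ x) (hx2 : x ≤ (4687 / 5000)) (hy : 0 ≤ y) (hxy : x ^ 2 + y ^ 2 = 1) :
    0 < 8 * x ^ 3 - 4 * x + (-(69 / 250)) * (4 * x ^ 2 - 1) ∧
    ((1623489 / 1000000) + x + (1353 / 2000)) * (41 / 1000) ^ 2 ≤ (1623489 / 1000000) - x - (1353 / 2000) ∧
    0 < y * (8 * x ^ 3 - 4 * x + (-(69 / 250)) * (4 * x ^ 2 - 1)) *
      (((1623489 / 1000000) - x - (1353 / 2000)) + ((1623489 / 1000000) + x + (1353 / 2000)) * (41 / 1000) ^ 2) -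
      2 * (x + (1353 / 2000)) * (-(8 * x ^ 4 - 8 * x ^ 2 + 1) - (-(69 / 250)) * (4 * x ^ 3 - 3 * x)) * (41 / 1000) := by
  have h1 : 0 ≤ x - (909 / 1000) := by linarith
  have h2 : 0 ≤ (4687 / 5000) - x := by linarith
  have hA : 0 < 8 * x ^ 3 - 4 * x + (-(69 / 250)) * (4 * x ^ 2 - 1) := by
    nlinarith [mul_nonneg h1 h2, mul_nonneg h1 h1, mul_nonneg (mul_nonneg h1 h1) h1]
  have hR : ((1623489 / 1000000) + x + (1353 / 2000)) * (41 / 1000) ^ 2 ≤ (1623489 / 1000000) - x - (1353 / 2000) := by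
    norm_num
    linarith
  have hlin : 0 ≤ ((1623489 / 1000000) - x - (1353 / 2000)) + ((1623489 / 1000000) + x + (1353 / 2000)) * (41 / 1000) ^ 2 := by
    norm_num
    linarith
  have hL : (13051 / 5000) + (-(2413 / 1000)) * x ≤ y := by
    by_contra hcon
    push Not at hcon
    have h3 : y ^ 2 < ((13051 / 5000) + (-(2413 / 1000)) * x) ^ 2 := by
      apply pow_lt_pow_left₀ hcon hy (by norm_num)
    nlinarith [mul_nonneg h1 h2]
  have hB : 0 < ((13051 / 5000) + (-(2413 / 1000)) * x) * (8 * x ^ 3 - 4 * x + (-(69 / 250)) * (4 * x ^ 2 - 1)) *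
      (((1623489 / 1000000) - x - (1353 / 2000)) + ((1623489 / 1000000) + x + (1353 / 2000)) * (41 / 1000) ^ 2) -
      2 * (x + (1353 / 2000)) * (-(8 * x ^ 4 - 8 * x ^ 2 + 1) - (-(69 / 250)) * (4 * x ^ 3 - 3 * x)) * (41 / 1000) := by
    have e : ((13051 / 5000) + (-(2413 / 1000)) * x) * (8 * x ^ 3 - 4 * x + (-(69 / 250)) * (4 * x ^ 2 - 1)) *
      (((1623489 / 1000000) - x - (1353 / 2000)) + ((1623489 / 1000000) + x + (1353 / 2000)) * (41 / 1000) ^ 2) -
      2 * (x + (1353 / 2000)) * (-(8 * x ^ 4 - 8 * x ^ 2 + 1) - (-(69 / 250)) * (4 * x ^ 3 - 3 * x)) * (41 / 1000) =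
      (270251590997055617942097 / 2309413569280000000) * ((x - (909 / 1000)) ^ 0 * ((4687 / 5000) - x) ^ 5) + (12311549632950621779257877 / 11547067846400000000) * ((x - (909 / 1000)) ^ 1 * ((4687 / 5000) - x) ^ 4) + (18296656823500404445464241 / 5773533923200000000) * ((x - (909 / 1000)) ^ 2 * ((4687 / 5000) - x) ^ 3) + (622916748086263876465906621 / 144338348080000000000) * ((x - (909 / 1000)) ^ 3 * ((4687 / 5000) - x) ^ 2) + (4049574469480678514351888613 / 1443383480800000000000) * ((x - (909 / 1000)) ^ 4 * ((4687 / 5000) - x) ^ 1) + (1024563497843921074701919453 / 1443383480800000000000) * ((x - (909 / 1000)) ^ 5 * ((4687 / 5000) - x) ^ 0) := by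
      ring
    rw [e]
    rcases h1.eq_or_lt with h3 | h3
    · rw [← h3]
      have : (0 : ℝ) < (4687 / 5000) - x := by linarith
      norm_num
      positivity
    · positivity
  refine ⟨hA, hR, ?_⟩
  have h5 : ((13051 / 5000) + (-(2413 / 1000)) * x) * (8 * x ^ 3 - 4 * x + (-(69 / 250)) * (4 * x ^ 2 - 1)) *
      (((1623489 / 1000000) - x - (1353 / 2000)) + ((1623489 / 1000000) + x + (1353 / 2000)) * (41 / 1000) ^ 2) ≤
      y * (8 * x ^ 3 - 4 * x + (-(69 / 250)) * (4 * x ^ 2 - 1)) *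
      (((1623489 / 1000000) - x - (1353 / 2000)) + ((1623489 / 1000000) + x + (1353 / 2000)) * (41 / 1000) ^ 2) :=
    mul_le_mul_of_nonneg_right (mul_le_mul_of_nonneg_right hL hA.le) hlin
  linarith


lemma psi2 {x y : ℝ} (hx1 : (9133 / 10000) ≤ x) (hx2 : x ≤ (4687 / 5000)) (hy : 0 ≤ y) (hxy : x ^ 2 + y ^ 2 = 1) :
    0 < 8 * x ^ 3 - 4 * x + (-(251 / 1000)) * (4 * x ^ 2 - 1) ∧
    ((1623489 / 1000000) + x + (679 / 1000)) * (9 / 200) ^ 2 ≤ (1623489 / 1000000) - x - (679 / 1000) ∧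
    0 < y * (8 * x ^ 3 - 4 * x + (-(251 / 1000)) * (4 * x ^ 2 - 1)) *
      (((1623489 / 1000000) - x - (679 / 1000)) + ((1623489 / 1000000) + x + (679 / 1000)) * (9 / 200) ^ 2) -
      2 * (x + (679 / 1000)) * (-(8 * x ^ 4 - 8 * x ^ 2 + 1) - (-(251 / 1000)) * (4 * x ^ 3 - 3 * x)) * (9 / 200) := by
  have h1 : 0 ≤ x - (9133 / 10000) := by linarith
  have h2 : 0 ≤ (4687 / 5000) - x := by linarith
  have hA : 0 < 8 * x ^ 3 - 4 * x + (-(251 / 1000)) * (4 * x ^ 2 - 1) := by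
    nlinarith [mul_nonneg h1 h2, mul_nonneg h1 h1, mul_nonneg (mul_nonneg h1 h1) h1]
  have hR : ((1623489 / 1000000) + x + (679 / 1000)) * (9 / 200) ^ 2 ≤ (1623489 / 1000000) - x - (679 / 1000) := by
    norm_num
    linarith
  have hlin : 0 ≤ ((1623489 / 1000000) - x - (679 / 1000)) + ((1623489 / 1000000) + x + (679 / 1000)) * (9 / 200) ^ 2 := by
    norm_num
    linarith
  have hL : (26439 / 10000) + (-(2449 / 1000)) * x ≤ y := by
    by_contra hcon
    push Not at hcon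
    have h3 : y ^ 2 < ((26439 / 10000) + (-(2449 / 1000)) * x) ^ 2 := by
      apply pow_lt_pow_left₀ hcon hy (by norm_num)
    nlinarith [mul_nonneg h1 h2]
  have hB : 0 < ((26439 / 10000) + (-(2449 / 1000)) * x) * (8 * x ^ 3 - 4 * x + (-(251 / 1000)) * (4 * x ^ 2 - 1)) *
      (((1623489 / 1000000) - x - (679 / 1000)) + ((1623489 / 1000000) + x + (679 / 1000)) * (9 / 200) ^ 2) -
      2 * (x + (679 / 1000)) * (-(8 * x ^ 4 - 8 * x ^ 2 + 1) - (-(251 / 1000)) * (4 * x ^ 3 - 3 * x)) * (9 / 200) := by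
    have e : ((26439 / 10000) + (-(2449 / 1000)) * x) * (8 * x ^ 3 - 4 * x + (-(251 / 1000)) * (4 * x ^ 2 - 1)) *
      (((1623489 / 1000000) - x - (679 / 1000)) + ((1623489 / 1000000) + x + (679 / 1000)) * (9 / 200) ^ 2) -
      2 * (x + (679 / 1000)) * (-(8 * x ^ 4 - 8 * x ^ 2 + 1) - (-(251 / 1000)) * (4 * x ^ 3 - 3 * x)) * (9 / 200) =
      (52468704941846914038002837 / 203247504300250000000) * ((x - (9133 / 10000)) ^ 0 * ((4687 / 5000) - x) ^ 5) + (1034914265046630994575235767 / 406495008600500000000) * ((x - (9133 / 10000)) ^ 1 * ((4687 / 5000) - x) ^ 4) + (3168610009477264608923848859 / 406495008600500000000) * ((x - (9133 / 10000)) ^ 2 * ((4687 / 5000) - x) ^ 3) + (2183721466375941172509382459 / 203247504300250000000) * ((x - (9133 / 10000)) ^ 3 * ((4687 / 5000) - x) ^ 2) + (711220732625838117443904889 / 101623752150125000000) * ((x - (9133 / 10000)) ^ 4 * ((4687 / 5000) - x) ^ 1) + (89510174083151323540369563 / 50811876075062500000)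 * ((x - (9133 / 10000)) ^ 5 * ((4687 / 5000) - x) ^ 0) := by
      ring
    rw [e]
    rcases h1.eq_or_lt with h3 | h3
    · rw [← h3]
      have : (0 : ℝ) < (4687 / 5000) - x := by linarith
      norm_num
      positivity
    · positivity
  refine ⟨hA, hR, ?_⟩
  have h5 : ((26439 / 10000) + (-(2449 / 1000)) * x) * (8 * x ^ 3 - 4 * x + (-(251 / 1000)) * (4 * x ^ 2 - 1)) *
      (((1623489 / 1000000) - x - (679 / 1000)) + ((1623489 / 1000000) + x + (679 / 1000)) * (9 / 200) ^ 2) ≤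
      y * (8 * x ^ 3 - 4 * x + (-(251 / 1000)) * (4 * x ^ 2 - 1)) *
      (((1623489 / 1000000) - x - (679 / 1000)) + ((1623489 / 1000000) + x + (679 / 1000)) * (9 / 200) ^ 2) :=
    mul_le_mul_of_nonneg_right (mul_le_mul_of_nonneg_right hL hA.le) hlin
  linarith


lemma psi3 {x y : ℝ} (hx1 : (2293 / 2500) ≤ x) (hx2 : x ≤ (4687 / 5000)) (hy : 0 ≤ y) (hxy : x ^ 2 + y ^ 2 = 1) :
    0 < 8 * x ^ 3 - 4 * x + (-(261 / 1000)) * (4 * x ^ 2 - 1) ∧
    ((1623489 / 1000000) + x + (339 / 500)) * (489 / 10000) ^ 2 ≤ (1623489 / 1000000) - x - (339 / 500) ∧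
    0 < y * (8 * x ^ 3 - 4 * x + (-(261 / 1000)) * (4 * x ^ 2 - 1)) *
      (((1623489 / 1000000) - x - (339 / 500)) + ((1623489 / 1000000) + x + (339 / 500)) * (489 / 10000) ^ 2) -
      2 * (x + (339 / 500)) * (-(8 * x ^ 4 - 8 * x ^ 2 + 1) - (-(261 / 1000)) * (4 * x ^ 3 - 3 * x)) * (489 / 10000) := by
  have h1 : 0 ≤ x - (2293 / 2500) := by linarith
  have h2 : 0 ≤ (4687 / 5000) - x := by linarith
  have hA : 0 < 8 * x ^ 3 - 4 * x + (-(261 / 1000)) * (4 * x ^ 2 - 1) := by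
    nlinarith [mul_nonneg h1 h2, mul_nonneg h1 h1, mul_nonneg (mul_nonneg h1 h1) h1]
  have hR : ((1623489 / 1000000) + x + (339 / 500)) * (489 / 10000) ^ 2 ≤ (1623489 / 1000000) - x - (339 / 500) := by
    norm_num
    linarith
  have hlin : 0 ≤ ((1623489 / 1000000) - x - (339 / 500)) + ((1623489 / 1000000) + x + (339 / 500)) * (489 / 10000) ^ 2 := by
    norm_num
    linarith
  have hL : (26767 / 10000) + (-(621 / 250)) * x ≤ y := by
    by_contra hcon
    push Not at hcon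
    have h3 : y ^ 2 < ((26767 / 10000) + (-(621 / 250)) * x) ^ 2 := by
      apply pow_lt_pow_left₀ hcon hy (by norm_num)
    nlinarith [mul_nonneg h1 h2]
  have hB : 0 < ((26767 / 10000) + (-(621 / 250)) * x) * (8 * x ^ 3 - 4 * x + (-(261 / 1000)) * (4 * x ^ 2 - 1)) *
      (((1623489 / 1000000) - x - (339 / 500)) + ((1623489 / 1000000) + x + (339 / 500)) * (489 / 10000) ^ 2) -
      2 * (x + (339 / 500)) * (-(8 * x ^ 4 - 8 * x ^ 2 + 1) - (-(261 / 1000)) * (4 * x ^ 3 - 3 * x)) * (489 / 10000) := by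
    have e : ((26767 / 10000) + (-(621 / 250)) * x) * (8 * x ^ 3 - 4 * x + (-(261 / 1000)) * (4 * x ^ 2 - 1)) *
      (((1623489 / 1000000) - x - (339 / 500)) + ((1623489 / 1000000) + x + (339 / 500)) * (489 / 10000) ^ 2) -
      2 * (x + (339 / 500)) * (-(8 * x ^ 4 - 8 * x ^ 2 + 1) - (-(261 / 1000)) * (4 * x ^ 3 - 3 * x)) * (489 / 10000) =
      (2686380374766527830894601063 / 3284406406562500000000) * ((x - (2293 / 2500)) ^ 0 * ((4687 / 5000) - x) ^ 5) + (24175606863481248082218314017 / 3284406406562500000000) * ((x - (2293 / 2500)) ^ 1 * ((4687 / 5000) - x) ^ 4) + (284819597985331488384401771439 / 13137625626250000000000) * ((x - (2293 / 2500)) ^ 2 * ((4687 / 5000) - x) ^ 3) + (95687130343594467089478393153 / 3284406406562500000000) * ((x - (2293 / 2500)) ^ 3 * ((4687 / 5000) - x) ^ 2) + (244154225319206245460191541821 / 13137625626250000000000) * ((x - (2293 / 2500)) ^ 4 * ((4687 / 5000) - x) ^ 1) + (3766791668800023813219939527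 / 821101601640625000000) * ((x - (2293 / 2500)) ^ 5 * ((4687 / 5000) - x) ^ 0) := by
      ring
    rw [e]
    rcases h1.eq_or_lt with h3 | h3
    · rw [← h3]
      have : (0 : ℝ) < (4687 / 5000) - x := by linarith
      norm_num
      positivity
    · positivity
  refine ⟨hA, hR, ?_⟩
  have h5 : ((26767 / 10000) + (-(621 / 250)) * x) * (8 * x ^ 3 - 4 * x + (-(261 / 1000)) * (4 * x ^ 2 - 1)) *
      (((1623489 / 1000000) - x - (339 / 500)) + ((1623489 / 1000000) + x + (339 / 500)) * (489 / 10000) ^ 2) ≤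
      y * (8 * x ^ 3 - 4 * x + (-(261 / 1000)) * (4 * x ^ 2 - 1)) *
      (((1623489 / 1000000) - x - (339 / 500)) + ((1623489 / 1000000) + x + (339 / 500)) * (489 / 10000) ^ 2) :=
    mul_le_mul_of_nonneg_right (mul_le_mul_of_nonneg_right hL hA.le) hlin
  linarith

end Pool.Agent.Helper766.G
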