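import Mathlib
import Pool.Agent.Helper766.G.Cor
import Pool.Agent.Helper766.G.PWin
import Pool.Agent.Helper766.G.Psi5
import Pool.Agent.Helper809.Koe.Asm

set_option autoImplicit false

open Polynomial Finset

namespace Pool.Agent.Helper766.G

open Pool.Agent.Helper766 Pool.Agent.Results.MP_6cc408_an.RealAxisSharp

lemma bad5_b2 {p : ℝ[X]} {ρ δ s : ℝ} (hb : Bad 5 p ρ δ s) :
    (2 - p.coeff 2) / 2 ≤ 1 + 70710679 / 100000000 := by
  have h := Pool.Agent.Helper809.Koe.bad_b2 (by norm_num) hb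
  have e : 2 * Real.pi / (((5 : ℕ) : ℝ) + 3) = Real.pi / 4 := by
    push_cast; ring
  rw [e, Real.cos_pi_div_four] at h
  have h2 : Real.sqrt 2 ≤ 141421358 / 100000000 := by
    rw [Real.sqrt_le_left (by norm_num)]
    norm_num
  linarith

lemma m_le {p : ℝ[X]} {ρ δ s : ℝ} (hb : Bad 5 p ρ δ s) :
    (2 - p.coeff 2 - Real.cos δ / ρ) / 2 ≤
      1 + 70710679 / 100000000 - 1623489 / 1000000 * Real.cos δ := by
  have h := bad5_b2 hb
  have hρ := rho_five hb
  have hρ0 := hb.rho_pos
  have hc : 0 ≤ Real.cos δ := Real.cos_nonneg_of_mem_Icc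
    ⟨by linarith [hb.d_pos, Real.pi_pos], hb.d_le⟩
  have h2 : 2 * (1623489 / 1000000) * Real.cos δ ≤ Real.cos δ / ρ := by
    rw [le_div_iff₀ hρ0]
    nlinarith
  linarith

lemma gfinal {p : ℝ[X]} {ρ δ s t : ℝ} (hb : Bad 5 p ρ δ s) (ht0 : 0 < t)
    (htc : Real.cos δ * (1 + t ^ 2) = 1 - t ^ 2) (hts : Real.sin δ * (1 + t ^ 2) = 2 * t)
    {E F k br : ℝ} (hk : 0 ≤ k) (hE : E ≤ F - 1 - 70710679 / 100000000) (hbr : -k ≤ br)
    (h : F + ρ / Real.sin δ * br ≤ (2 - p.coeff 2 - Real.cos δ / ρ) / 2)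
    (hpoly : k * (1 + t ^ 2) ^ 2 < 4 * (1623489 / 1000000) * t *
      (E * (1 + t ^ 2) + (1623489 / 1000000) * (1 - t ^ 2))) : False := by
  have hm := m_le hb
  have hρ := rho_five hb
  have hρ0 := hb.rho_pos
  have hsd := sin_d_pos hb
  have ht2 : 0 < 1 + t ^ 2 := by positivity
  set K : ℝ := 1623489 / 1000000 with hK
  have hK0 : (0 : ℝ) < K := by rw [hK]; norm_num
  have h1 : -(k / (2 * K * Real.sin δ)) ≤ ρ / Real.sin δ * br := by
    have h2 : ρ / Real.sin δ * -k ≤ ρ / Real.sin δ * br :=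
      mul_le_mul_of_nonneg_left hbr (by positivity)
    have h3 : ρ / Real.sin δ * k ≤ k / (2 * K * Real.sin δ) := by
      rw [div_mul_eq_mul_div, div_le_div_iff₀ hsd (by positivity)]
      have h4 : ρ * (2 * K) * (k * Real.sin δ) ≤ 1 * (k * Real.sin δ) :=
        mul_le_mul_of_nonneg_right hρ.le (by positivity)
      linarith
    linarith
  have h5 : (E + K * Real.cos δ) * (2 * K * Real.sin δ) ≤ k := by
    have h6 : E + K * Real.cos δ ≤ k / (2 * K * Real.sin δ) := by linarith
    rwa [le_div_iff₀ (by positivity)] at h6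
  have h7 : (E + K * Real.cos δ) * (2 * K * Real.sin δ) * (1 + t ^ 2) ^ 2 ≤ k * (1 + t ^ 2) ^ 2 :=
    mul_le_mul_of_nonneg_right h5 (by positivity)
  have h8 : (E + K * Real.cos δ) * (2 * K * Real.sin δ) * (1 + t ^ 2) ^ 2 =
      4 * K * t * (E * (1 + t ^ 2) + K * (1 - t ^ 2)) := by
    calc (E + K * Real.cos δ) * (2 * K * Real.sin δ) * (1 + t ^ 2) ^ 2 =
        2 * K * (E * (1 + t ^ 2) + K * (Real.cos δ * (1 + t ^ 2))) *
          (Real.sin δ * (1 + t ^ 2)) := by ring
      _ = _ := by rw [htc, hts]; ring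
  linarith

lemma gpoly2 {t : ℝ} (h1 : (41 / 1000) ≤ t) (h2 : t ≤ (9 / 200)) :
    ((782623 / 100000000) + 2 * (442863 / 100000000) * t) * (1 + t ^ 2) ^ 2 <
      4 * (1623489 / 1000000) * t * ((-(158554899 / 100000000)) * (1 + t ^ 2) + (1623489 / 1000000) * (1 - t ^ 2)) := by
  have e : 4 * (1623489 / 1000000) * t * ((-(158554899 / 100000000)) * (1 + t ^ 2) + (1623489 / 1000000) * (1 - t ^ 2)) -
      ((782623 / 100000000) + 2 * (442863 / 100000000) * t) * (1 + t ^ 2) ^ 2 =
      (179363417786589371 / 409600000) * ((t - (41 / 1000)) ^ 0 * ((9 / 200) - t) ^ 5) + (138313241549511037431 / 51200000000) * ((t - (41 / 1000)) ^ 1 * ((9 / 200) - t) ^ 4) + (163491884333810628899 / 25600000000) * ((t - (41 / 1000)) ^ 2 * ((9 / 200) - t) ^ 3) + (37520938174408498563 / 5120000000) * ((t - (41 / 1000)) ^ 3 * ((9 / 200) - t) ^ 2) + (8424731497732591859 / 2048000000) * ((t - (41 / 1000)) ^ 4 * ((9 / 200) - t) ^ 1) + (371998880321681687 / 409600000) * ((t - (41 / 1000)) ^ 5 * ((9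 / 200) - t) ^ 0) := by
    ring
  have h1' : 0 ≤ t - (41 / 1000) := by linarith
  have h2' : 0 ≤ (9 / 200) - t := by linarith
  have hp : 0 < (179363417786589371 / 409600000) * ((t - (41 / 1000)) ^ 0 * ((9 / 200) - t) ^ 5) + (138313241549511037431 / 51200000000) * ((t - (41 / 1000)) ^ 1 * ((9 / 200) - t) ^ 4) + (163491884333810628899 / 25600000000) * ((t - (41 / 1000)) ^ 2 * ((9 / 200) - t) ^ 3) + (37520938174408498563 / 5120000000) * ((t - (41 / 1000)) ^ 3 * ((9 / 200) - t) ^ 2) + (8424731497732591859 / 2048000000) * ((t - (41 / 1000)) ^ 4 * ((9 / 200) - t) ^ 1) + (371998880321681687 / 409600000) * ((t - (41 / 1000)) ^ 5 * ((9 / 200) - t) ^ 0) := by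
    rcases h1'.eq_or_lt with h3 | h3
    · rw [← h3]
      have : (0 : ℝ) < (9 / 200) - t := by linarith
      norm_num
      positivity
    · positivity
  linarith

lemma gwin2 {p : ℝ[X]} {ρ δ s t : ℝ} (hb : Bad 5 p ρ δ s) (ht1 : (41 / 1000) ≤ t) (ht2 : t ≤ (9 / 200))
    (htc : Real.cos δ * (1 + t ^ 2) = 1 - t ^ 2) (hts : Real.sin δ * (1 + t ^ 2) = 2 * t)
    (hδt : δ ≤ 2 * t) (ha : (867 / 10000) ≤ 1 - Real.cos s) : False := by
  have hπ := Real.pi_pos
  have hπ3 := Real.pi_gt_three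
  have hπ2 : Real.pi < 3.141593 := Real.pi_lt_d6
  have c1 := cos_ge_C10 (1 / 2) (by norm_num)
  have c1' := cos_le_C12 (1 / 2) (by norm_num)
  have ca := cos_ge_C10 (137 / 100) (by norm_num)
  have s1 := sin_le_S13 (1 / 2) (by norm_num)
  have sa := sin_le_S13 (137 / 100) (by norm_num)
  have s21 := sin_le_S13 (2 * (1 / 2)) (by norm_num)
  have s2a := sin_le_S13 (2 * (137 / 100)) (by norm_num)
  have b1 : (5484891 / 6250000) ≤ Real.cos (1 / 2) := by
    refine le_trans ?_ c1
    norm_num [C10, C8, C6, C4]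
  have b1' : Real.cos (1 / 2) ≤ (87758257 / 100000000) := by
    refine le_trans c1' ?_
    norm_num [C12, C10, C8, C6, C4]
  have ba : (19944963 / 100000000) ≤ Real.cos (137 / 100) := by
    refine le_trans ?_ ca
    norm_num [C10, C8, C6, C4]
  have bs1 : Real.sin (1 / 2) ≤ (23971277 / 50000000) := by
    refine le_trans s1 ?_
    norm_num [S13, S11, S9, S7, S5, S3]
  have bsa : Real.sin (137 / 100) ≤ (97990807 / 100000000) := by
    refine le_trans sa ?_
    norm_num [S13, S11, S9, S7, S5, S3]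
  have bs21 : Real.sin (2 * (1 / 2)) ≤ (84147099 / 100000000) := by
    refine le_trans s21 ?_
    norm_num [S13, S11, S9, S7, S5, S3]
  have bs2a : Real.sin (2 * (137 / 100)) ≤ (2443047 / 6250000) := by
    refine le_trans s2a ?_
    norm_num [S13, S11, S9, S7, S5, S3]
  have h := gside hb (B := (1083 / 5000)) (t1 := (1 / 2)) (ta := (137 / 100)) (by norm_num) (by norm_num)
    (by norm_num) (by norm_num) (by linarith) (Or.inr (by linarith))
  set v := (1083 / 5000) / 2 * (1 - Real.cos (1 / 2)) with hv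
  have hvlo : (13257807669 / 1000000000000) ≤ v := by rw [hv]; linarith
  have hvhi : v ≤ (828613047 / 62500000000) := by rw [hv]; linarith
  have hs1p : 0 ≤ Real.sin (1 / 2) := Real.sin_nonneg_of_nonneg_of_le_pi (by norm_num) (by linarith)
  have hsap : 0 ≤ Real.sin (137 / 100) := Real.sin_nonneg_of_nonneg_of_le_pi (by norm_num) (by linarith)
  have w1 : (-(470719 / 500000000)) ≤ Wf (1083 / 5000) v (1 / 2) := by
    unfold Wf
    have h3 : v * ((1 / 2) + Real.sin (1 / 2)) ≤ (828613047 / 62500000000) * ((1 / 2) + (23971277 / 50000000)) := by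
      apply mul_le_mul hvhi (by linarith) (by linarith) (by norm_num)
    linarith
  have wa : (3514073 / 1000000000) ≤ Wf (1083 / 5000) v (137 / 100) := by
    unfold Wf
    have h3 : v * ((137 / 100) + Real.sin (137 / 100)) ≤ (828613047 / 62500000000) * ((137 / 100) + (97990807 / 100000000)) := by
      apply mul_le_mul hvhi (by linarith) (by linarith) (by norm_num)
    linarith
  have wpi : (1 + δ / Real.pi) * Wf (1083 / 5000) v Real.pi = (Real.pi + δ) * ((1083 / 5000) / 8 * ((1083 / 5000) - 4 * v)) := by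
    unfold Wf
    rw [Real.sin_two_pi, Real.sin_pi]
    field_simp
    ring
  have hδ0 := hb.d_pos
  have ht0 : 0 < t := by linarith
  have wpi2 : (Real.pi + δ) * ((1083 / 5000) / 8 * ((1083 / 5000) - 4 * v)) ≤ (3.141593 + 2 * t) * (44286244294473 / 10000000000000000) := by
    apply mul_le_mul (by linarith) (by linarith) (by linarith) (by linarith)
  have hbr : -((782623 / 100000000) + 2 * (442863 / 100000000) * t) ≤ Wf (1083 / 5000) v (1 / 2) + 2 * Wf (1083 / 5000) v (137 / 100) -
      (1 + δ / Real.pi) * Wf (1083 / 5000) v Real.pi := by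
    rw [wpi]
    norm_num at wpi2 ⊢
    linarith
  exact gfinal hb ht0 htc hts (E := (-(158554899 / 100000000))) (F := (1083 / 5000) / 2 + v) (k := (782623 / 100000000) + 2 * (442863 / 100000000) * t) (by linarith)
    (by linarith) hbr h (gpoly2 ht1 ht2)


lemma gpoly3 {t : ℝ} (h1 : (9 / 200) ≤ t) (h2 : t ≤ (489 / 10000)) :
    ((1380781 / 100000000) + 2 * (390551 / 100000000) * t) * (1 + t ^ 2) ^ 2 <
      4 * (1623489 / 1000000) * t * ((-(156668539 / 100000000)) * (1 + t ^ 2) + (1623489 / 1000000) * (1 - t ^ 2)) := by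
  have e : 4 * (1623489 / 1000000) * t * ((-(156668539 / 100000000)) * (1 + t ^ 2) + (1623489 / 1000000) * (1 - t ^ 2)) -
      ((1380781 / 100000000) + 2 * (390551 / 100000000) * t) * (1 + t ^ 2) ^ 2 =
      (198029671491407207 / 360896796) * ((t - (9 / 200)) ^ 0 * ((489 / 10000) - t) ^ 5) + (67652459948227641491 / 18044839800) * ((t - (9 / 200)) ^ 1 * ((489 / 10000) - t) ^ 4) + (1067094560374508767567 / 112780248750) * ((t - (9 / 200)) ^ 2 * ((489 / 10000) - t) ^ 3) + (128300540816948531741263 / 11278024875000) * ((t - (9 / 200)) ^ 3 * ((489 / 10000) - t) ^ 2) + (597293817412555497707713 / 90224199000000) * ((t - (9 / 200)) ^ 4 * ((489 / 10000) - t) ^ 1) + (6790512865379155455166801 / 4511209950000000) * ((t - (9 / 200)) ^ 5 * ((489 / 10000) - t) ^ 0) := by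
    ring
  have h1' : 0 ≤ t - (9 / 200) := by linarith
  have h2' : 0 ≤ (489 / 10000) - t := by linarith
  have hp : 0 < (198029671491407207 / 360896796) * ((t - (9 / 200)) ^ 0 * ((489 / 10000) - t) ^ 5) + (67652459948227641491 / 18044839800) * ((t - (9 / 200)) ^ 1 * ((489 / 10000) - t) ^ 4) + (1067094560374508767567 / 112780248750) * ((t - (9 / 200)) ^ 2 * ((489 / 10000) - t) ^ 3) + (128300540816948531741263 / 11278024875000) * ((t - (9 / 200)) ^ 3 * ((489 / 10000) - t) ^ 2) + (597293817412555497707713 / 90224199000000) * ((t - (9 / 200)) ^ 4 * ((489 / 10000) - t) ^ 1) + (6790512865379155455166801 / 4511209950000000) * ((t - (9 / 200)) ^ 5 * ((489 / 10000) - t) ^ 0) := by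
    rcases h1'.eq_or_lt with h3 | h3
    · rw [← h3]
      have : (0 : ℝ) < (489 / 10000) - t := by linarith
      norm_num
      positivity
    · positivity
  linarith

lemma gwin3 {p : ℝ[X]} {ρ δ s t : ℝ} (hb : Bad 5 p ρ δ s) (ht1 : (9 / 200) ≤ t) (ht2 : t ≤ (489 / 10000))
    (htc : Real.cos δ * (1 + t ^ 2) = 1 - t ^ 2) (hts : Real.sin δ * (1 + t ^ 2) = 2 * t)
    (hδt : δ ≤ 2 * t) (ha : (207 / 2500) ≤ 1 - Real.cos s) : False := by
  have hπ := Real.pi_pos
  have hπ3 := Real.pi_gt_three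
  have hπ2 : Real.pi < 3.141593 := Real.pi_lt_d6
  have c1 := cos_ge_C10 (33 / 50) (by norm_num)
  have c1' := cos_le_C12 (33 / 50) (by norm_num)
  have ca := cos_ge_C10 (32 / 25) (by norm_num)
  have s1 := sin_le_S13 (33 / 50) (by norm_num)
  have sa := sin_le_S13 (32 / 25) (by norm_num)
  have s21 := sin_le_S13 (2 * (33 / 50)) (by norm_num)
  have s2a := sin_le_S13 (2 * (32 / 25)) (by norm_num)
  have b1 : (78999223 / 100000000) ≤ Real.cos (33 / 50) := by
    refine le_trans ?_ c1
    norm_num [C10, C8, C6, C4]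
  have b1' : Real.cos (33 / 50) ≤ (9874903 / 12500000) := by
    refine le_trans c1' ?_
    norm_num [C12, C10, C8, C6, C4]
  have ba : (7167879 / 25000000) ≤ Real.cos (32 / 25) := by
    refine le_trans ?_ ca
    norm_num [C10, C8, C6, C4]
  have bs1 : Real.sin (33 / 50) ≤ (30655843 / 50000000) := by
    refine le_trans s1 ?_
    norm_num [S13, S11, S9, S7, S5, S3]
  have bsa : Real.sin (32 / 25) ≤ (95801587 / 100000000) := by
    refine le_trans sa ?_
    norm_num [S13, S11, S9, S7, S5, S3]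
  have bs21 : Real.sin (2 * (33 / 50)) ≤ (96871511 / 100000000) := by
    refine le_trans s21 ?_
    norm_num [S13, S11, S9, S7, S5, S3]
  have bs2a : Real.sin (2 * (32 / 25)) ≤ (54935643 / 100000000) := by
    refine le_trans s2a ?_
    norm_num [S13, S11, S9, S7, S5, S3]
  have h := gside hb (B := (2321 / 10000)) (t1 := (33 / 50)) (ta := (32 / 25)) (by norm_num) (by norm_num)
    (by norm_num) (by norm_num) (by linarith) (Or.inr (by linarith))
  set v := (2321 / 10000) / 2 * (1 - Real.cos (33 / 50)) with hv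
  have hvlo : (6092850137 / 250000000000) ≤ v := by rw [hv]; linarith
  have hvhi : v ≤ (48742803417 / 2000000000000) := by rw [hv]; linarith
  have hs1p : 0 ≤ Real.sin (33 / 50) := Real.sin_nonneg_of_nonneg_of_le_pi (by norm_num) (by linarith)
  have hsap : 0 ≤ Real.sin (32 / 25) := Real.sin_nonneg_of_nonneg_of_le_pi (by norm_num) (by linarith)
  have w1 : (-(2418017 / 1000000000)) ≤ Wf (2321 / 10000) v (33 / 50) := by
    unfold Wf
    have h3 : v * ((33 / 50) + Real.sin (33 / 50)) ≤ (48742803417 / 2000000000000) * ((33 / 50) + (30655843 / 50000000)) := by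
      apply mul_le_mul hvhi (by linarith) (by linarith) (by norm_num)
    linarith
  have wa : (219927 / 500000000) ≤ Wf (2321 / 10000) v (32 / 25) := by
    unfold Wf
    have h3 : v * ((32 / 25) + Real.sin (32 / 25)) ≤ (48742803417 / 2000000000000) * ((32 / 25) + (95801587 / 100000000)) := by
      apply mul_le_mul hvhi (by linarith) (by linarith) (by norm_num)
    linarith
  have wpi : (1 + δ / Real.pi) * Wf (2321 / 10000) v Real.pi = (Real.pi + δ) * ((2321 / 10000) / 8 * ((2321 / 10000) - 4 * v)) := by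
    unfold Wf
    rw [Real.sin_two_pi, Real.sin_pi]
    field_simp
    ring
  have hδ0 := hb.d_pos
  have ht0 : 0 < t := by linarith
  have wpi2 : (Real.pi + δ) * ((2321 / 10000) / 8 * ((2321 / 10000) - 4 * v)) ≤ (3.141593 + 2 * t) * (19527501082023 / 5000000000000000) := by
    apply mul_le_mul (by linarith) (by linarith) (by linarith) (by linarith)
  have hbr : -((1380781 / 100000000) + 2 * (390551 / 100000000) * t) ≤ Wf (2321 / 10000) v (33 / 50) + 2 * Wf (2321 / 10000) v (32 / 25) -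
      (1 + δ / Real.pi) * Wf (2321 / 10000) v Real.pi := by
    rw [wpi]
    norm_num at wpi2 ⊢
    linarith
  exact gfinal hb ht0 htc hts (E := (-(156668539 / 100000000))) (F := (2321 / 10000) / 2 + v) (k := (1380781 / 100000000) + 2 * (390551 / 100000000) * t) (by linarith)
    (by linarith) hbr h (gpoly3 ht1 ht2)

end Pool.Agent.Helper766.G
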