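import Mathlib
import Pool.Agent.Helper766.G.GWin

set_option autoImplicit false

open Polynomial Finset

namespace Pool.Agent.Helper766.G

open Pool.Agent.Helper766 Pool.Agent.Results.MP_6cc408_an.RealAxisSharp

/-- first bound on `δ` from (G1) -/
lemma g1_five {p : ℝ[X]} {ρ δ s : ℝ} (hb : Bad 5 p ρ δ s) (hc : 8253 / 10000 < Real.cos δ) :
    57735 / 100000 * Real.sin δ + Real.cos δ ≤ 105150520 / 100000000 := by
  have hm := m_le hb
  have hρ := rho_five hb
  have hρ0 := hb.rho_pos
  have hsd := sin_d_pos hb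
  have hsc := Real.sin_sq_add_cos_sq δ
  set σ := Real.sin δ with hσ
  have hσ1 : σ ≤ 565 / 1000 := by nlinarith
  set K : ℝ := 1623489 / 1000000 with hK
  have hK0 : (0 : ℝ) < K := by rw [hK]; norm_num
  set q := Real.sqrt 3 with hq
  have hq0 : 0 < q := Real.sqrt_pos.mpr (by norm_num)
  have hq2 : q ^ 2 = 3 := Real.sq_sqrt (by norm_num)
  have hq1 : 17320508 / 10000000 ≤ q := by
    rw [hq]
    apply Real.le_sqrt_of_sq_le
    norm_num
  have h := gside_one' hb (B := 8 * K * σ / (3 * q)) (by positivity) (by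
    rw [div_le_iff₀ (by positivity)]
    rw [hK]
    nlinarith)
  rw [← hσ, ← hq] at h
  have h1 : ρ / σ ≤ 1 / (2 * K * σ) := by
    rw [div_le_div_iff₀ hsd (by positivity)]
    have := mul_le_mul_of_nonneg_right hρ.le hsd.le
    linarith
  have h2 : 9 * q / 32 * (ρ / σ) * (8 * K * σ / (3 * q)) ^ 2 ≤
      9 * q / 32 * (1 / (2 * K * σ)) * (8 * K * σ / (3 * q)) ^ 2 := by
    gcongr
  have h3 : 3 / 4 * (8 * K * σ / (3 * q)) - 9 * q / 32 * (1 / (2 * K * σ)) *
      (8 * K * σ / (3 * q)) ^ 2 = K * σ / q := by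
    field_simp
    ring
  have h4 : K * σ / q = K * σ * (q / 3) := by
    rw [div_eq_iff hq0.ne']
    linear_combination (-(K * σ / 3)) * hq2
  have h5 : K * (σ * (q / 3) + Real.cos δ) ≤ 1 + 70710679 / 100000000 := by linarith
  have h6 : 57735 / 100000 ≤ q / 3 := by linarith
  have h7 : σ * (57735 / 100000) ≤ σ * (q / 3) := mul_le_mul_of_nonneg_left h6 hsd.le
  have h8 : K * (57735 / 100000 * σ + Real.cos δ) ≤ 1 + 70710679 / 100000000 := by
    have : K * (57735 / 100000 * σ + Real.cos δ) ≤ K * (σ * (q / 3) + Real.cos δ) := by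
      apply mul_le_mul_of_nonneg_left _ hK0.le
      linarith
    linarith
  rw [hK] at h8
  linarith

theorem case5 {p : ℝ[X]} {ρ δ s : ℝ} (hb : Bad 5 p ρ δ s)
    (hB : (p.coeff 2 + Real.cos δ / ρ) ^ 2 + (Real.sin δ / ρ) ^ 2 ≤ 4) : False := by
  have hπ := Real.pi_pos
  have hρ := rho_five hb
  have hρ0 := hb.rho_pos
  have hδ0 := hb.d_pos
  have hδ2 := hb.d_le
  have hb2 := bad5_b2 hb
  have hcos : 8253 / 10000 < Real.cos δ :=
    Pool.Agent.Helper809.Koe.cos_ge (b := p.coeff 2) (r0 := 2 * (1623489 / 1000000))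
      (m0 := 1 / 10) hρ0 hρ (by norm_num) (by norm_num) (by norm_num) (by linarith) hδ0 hδ2 hB
  have hg1 := g1_five hb hcos
  -- half angle
  have hc2 : 0 < Real.cos (δ / 2) := Real.cos_pos_of_mem_Ioo ⟨by linarith, by linarith⟩
  have hs2 : 0 < Real.sin (δ / 2) := Real.sin_pos_of_pos_of_lt_pi (by linarith) (by linarith)
  have hsc := Real.sin_sq_add_cos_sq (δ / 2)
  obtain ⟨t, ht⟩ : ∃ t, t = Real.tan (δ / 2) := ⟨_, rfl⟩
  have htd : t * Real.cos (δ / 2) = Real.sin (δ / 2) := by
    rw [ht, Real.tan_eq_sin_div_cos]; field_simp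
  have ht0 : 0 < t := by
    rw [ht, Real.tan_eq_sin_div_cos]; positivity
  have hδt : δ ≤ 2 * t := by
    have := Real.le_tan (x := δ / 2) (by linarith) (by linarith)
    rw [← ht] at this
    linarith
  have h1t : Real.cos (δ / 2) ^ 2 * (1 + t ^ 2) = 1 := by
    have : Real.cos (δ / 2) ^ 2 * (1 + t ^ 2) =
        Real.cos (δ / 2) ^ 2 + (t * Real.cos (δ / 2)) ^ 2 := by ring
    rw [this, htd]; linarith
  have hcδ : Real.cos δ = Real.cos (δ / 2) ^ 2 * (1 - t ^ 2) := by
    have h2 : Real.cos δ = Real.cos (2 * (δ / 2)) := by ring_nf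
    rw [h2, Real.cos_two_mul]
    have : Real.cos (δ / 2) ^ 2 * (1 - t ^ 2) =
        Real.cos (δ / 2) ^ 2 - (t * Real.cos (δ / 2)) ^ 2 := by ring
    rw [this, htd]; linarith
  have hsδ : Real.sin δ = Real.cos (δ / 2) ^ 2 * (2 * t) := by
    have h2 : Real.sin δ = Real.sin (2 * (δ / 2)) := by ring_nf
    rw [h2, Real.sin_two_mul]
    have : Real.cos (δ / 2) ^ 2 * (2 * t) = 2 * (t * Real.cos (δ / 2)) * Real.cos (δ / 2) := by ring
    rw [this, htd]
  have htc : Real.cos δ * (1 + t ^ 2) = 1 - t ^ 2 := by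
    rw [hcδ]; linear_combination (1 - t ^ 2) * h1t
  have hts : Real.sin δ * (1 + t ^ 2) = 2 * t := by
    rw [hsδ]; linear_combination (2 * t) * h1t
  have ht2 : 0 < 1 + t ^ 2 := by positivity
  have ht32 : t < 32 / 100 := by
    by_contra hcon
    push Not at hcon
    nlinarith
  have ht489 : t ≤ 489 / 10000 := by
    by_contra hcon
    push Not at hcon
    have h3 : (57735 / 100000 * Real.sin δ + Real.cos δ) * (1 + t ^ 2) ≤
        105150520 / 100000000 * (1 + t ^ 2) := mul_le_mul_of_nonneg_right hg1 ht2.le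
    have h4 : (57735 / 100000 * Real.sin δ + Real.cos δ) * (1 + t ^ 2) =
        57735 / 100000 * (2 * t) + (1 - t ^ 2) := by
      rw [← htc, ← hts]; ring
    nlinarith
  -- bound on s
  have hs := s_five (m := 3) rfl (p := p) (ρ := ρ) (δ := δ) (s := s) hb
  have hx0 : Real.cos s ≤ 9374 / 10000 := by
    have h3 : Real.cos s ≤ Real.cos (356 / 1000) :=
      Real.cos_le_cos_of_nonneg_of_le_pi (by norm_num) hb.s_lt.le hs.le
    have h4 := cos_le_C4 (356 / 1000) (by norm_num)
    unfold C4 at h4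
    norm_num at h4
    linarith
  have hsin := sin_s_pos hb
  have hsc2 : Real.cos s ^ 2 + Real.sin s ^ 2 = 1 := by
    have := Real.sin_sq_add_cos_sq s; linarith
  rcases le_or_gt t (41 / 1000) with h41 | h41
  · -- window 1
    have ha : 91 / 1000 ≤ 1 - Real.cos s := by
      by_contra hcon
      push Not at hcon
      obtain ⟨q1, q2, q3⟩ := psi1 (x := Real.cos s) (y := Real.sin s) (by linarith) (by linarith)
        hsin.le hsc2
      exact pwin hb (c := 1353 / 2000) (al := -(69 / 250)) (by norm_num) (by norm_num)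
        (by norm_num) (by linarith) ht0 h41 htc hts q1 q2 q3
    have h := gside_two hb (a := 91 / 1000) (by norm_num) (by norm_num) ha
    have hm := m_le hb
    have hsd := sin_d_pos hb
    set K : ℝ := 1623489 / 1000000 with hK
    have hK0 : (0 : ℝ) < K := by rw [hK]; norm_num
    have h5 : δ * ρ / (2 * Real.sin δ) ≤ t / (2 * K * Real.sin δ) := by
      rw [div_le_div_iff₀ (by positivity) (by positivity)]
      have h6 : δ * (ρ * (2 * K)) ≤ 2 * t * 1 :=
        mul_le_mul hδt hρ.le (by positivity) (by positivity)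
      have h7 := mul_le_mul_of_nonneg_right h6 hsd.le
      linarith
    have h8 : (91 / 1000 - 1 - 70710679 / 100000000 + K * Real.cos δ) * (2 * K * Real.sin δ) ≤
        t * (91 / 1000) ^ 2 := by
      have h9 : 91 / 1000 - 1 - 70710679 / 100000000 + K * Real.cos δ ≤
          t * (91 / 1000) ^ 2 / (2 * K * Real.sin δ) := by
        have h10 : δ * ρ / (2 * Real.sin δ) * (91 / 1000) ^ 2 ≤
            t / (2 * K * Real.sin δ) * (91 / 1000) ^ 2 :=
          mul_le_mul_of_nonneg_right h5 (by norm_num)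
        have h11 : t / (2 * K * Real.sin δ) * (91 / 1000) ^ 2 =
            t * (91 / 1000) ^ 2 / (2 * K * Real.sin δ) := by ring
        linarith
      rwa [le_div_iff₀ (by positivity)] at h9
    have h12 : (91 / 1000 - 1 - 70710679 / 100000000 + K * Real.cos δ) * (2 * K * Real.sin δ) *
        (1 + t ^ 2) ^ 2 ≤ t * (91 / 1000) ^ 2 * (1 + t ^ 2) ^ 2 :=
      mul_le_mul_of_nonneg_right h8 (by positivity)
    have h13 : (91 / 1000 - 1 - 70710679 / 100000000 + K * Real.cos δ) * (2 * K * Real.sin δ) *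
        (1 + t ^ 2) ^ 2 = t * (4 * K * ((91 / 1000 - 1 - 70710679 / 100000000) * (1 + t ^ 2) +
          K * (1 - t ^ 2))) := by
      calc _ = 2 * K * ((91 / 1000 - 1 - 70710679 / 100000000) * (1 + t ^ 2) +
            K * (Real.cos δ * (1 + t ^ 2))) * (Real.sin δ * (1 + t ^ 2)) := by ring
        _ = _ := by rw [htc, hts]; ring
    rw [h13] at h12
    have h14 : 4 * K * ((91 / 1000 - 1 - 70710679 / 100000000) * (1 + t ^ 2) + K * (1 - t ^ 2)) ≤
        (91 / 1000) ^ 2 * (1 + t ^ 2) ^ 2 :=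
      le_of_mul_le_mul_left (by linarith) ht0
    rw [hK] at h14
    nlinarith [mul_nonneg ht0.le (sub_nonneg.mpr h41), sq_nonneg t, mul_nonneg (sq_nonneg t) (sq_nonneg t)]
  · rcases le_or_gt t (45 / 1000) with h45 | h45
    · have ha : 867 / 10000 ≤ 1 - Real.cos s := by
        by_contra hcon
        push Not at hcon
        obtain ⟨q1, q2, q3⟩ := psi2 (x := Real.cos s) (y := Real.sin s) (by linarith) (by linarith)
          hsin.le hsc2
        exact pwin hb (c := 679 / 1000) (al := -(251 / 1000)) (T := 9 / 200) (by norm_num)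
          (by norm_num) (by norm_num) (by linarith) ht0 (by linarith) htc hts q1 q2 q3
      exact gwin2 hb (by linarith) (by linarith) htc hts hδt (by linarith)
    · have ha : 828 / 10000 ≤ 1 - Real.cos s := by
        by_contra hcon
        push Not at hcon
        obtain ⟨q1, q2, q3⟩ := psi3 (x := Real.cos s) (y := Real.sin s) (by linarith) (by linarith)
          hsin.le hsc2
        exact pwin hb (c := 339 / 500) (al := -(261 / 1000)) (by norm_num)
          (by norm_num) (by norm_num) (by linarith) ht0 ht489 htc hts q1 q2 q3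
      exact gwin3 hb (by linarith) (by linarith) htc hts hδt (by linarith)

end Pool.Agent.Helper766.G
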